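import Mathlib
import Pool.Agent.Lib.MP_8ca0c8_nt.Defs

/-!
# Project CYC (MP_8ca0c8_nt): the trace problem for cyclotomic integers. Definitions.
-/

namespace Pool.Agent.CYC

open Finset

/-! ### Positive weights on `ZMod q` -/

/-- Fourier transform on `ZMod q` of the weight `w` with respect to the character `ψ` -/
noncomputable def FT {q : ℕ} [NeZero q] (ψ : AddChar (ZMod q) ℂ) (w : ZMod q → ℝ)
    (j : ZMod q) : ℂ := ∑ a, (w a : ℂ) * ψ (j * a)

/-- A family, indexed by the finite set `Ω` of places, of positive functions `f φ` on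
`S ⊆ ZMod q`, of nonnegative mean logarithm, with primitive characters `ψ φ` of `ZMod q`. -/
structure Fam (Ω : Type) [Fintype Ω] (q : ℕ) [NeZero q] where
  ψ : Ω → AddChar (ZMod q) ℂ
  hψ : ∀ φ, (ψ φ).IsPrimitive
  S : Finset (ZMod q)
  hS : q ≤ 2 * S.card
  f : Ω → ZMod q → ℝ
  hf : ∀ φ, ∀ a ∈ S, 0 < f φ a
  hlog : 0 ≤ ∑ φ, ∑ a ∈ S, Real.log (f φ a)

namespace Fam

variable {Ω : Type} [Fintype Ω] {q : ℕ} [NeZero q] (F : Fam Ω q)

/-- the weight `f / |S|` on `S` -/
noncomputable def w (φ : Ω) (a : ZMod q) : ℝ := if a ∈ F.S then F.f φ a / F.S.card else 0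

/-- the Fourier coefficients -/
noncomputable def T (φ : Ω) (j : ZMod q) : ℂ := FT (F.ψ φ) (F.w φ) j

/-- the mass -/
noncomputable def m (φ : Ω) : ℝ := ∑ a, F.w φ a

end Fam

section basic

variable {q : ℕ} [NeZero q] (ψ : AddChar (ZMod q) ℂ)

theorem norm_psi (x : ZMod q) : ‖ψ x‖ = 1 := AddChar.norm_apply ψ x

theorem FT_zero (w : ZMod q → ℝ) : FT ψ w 0 = ((∑ a, w a : ℝ) : ℂ) := by
  simp [FT]

theorem FT_neg (w : ZMod q → ℝ) (j : ZMod q) : FT ψ w (-j) = (starRingEnd ℂ) (FT ψ w j) := by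
  simp only [FT, map_sum, map_mul, Complex.conj_ofReal]
  refine Finset.sum_congr rfl fun a _ => ?_
  rw [neg_mul, AddChar.map_neg_eq_conj]

theorem FT_split (w : ZMod q → ℝ) (E : Finset (ZMod q)) (j : ZMod q) :
    FT ψ w j = FT ψ (fun a => if a ∈ E then w a else 0) j +
      FT ψ (fun a => if a ∈ E then 0 else w a) j := by
  simp only [FT]
  rw [← Finset.sum_add_distrib]
  refine Finset.sum_congr rfl fun a _ => ?_
  by_cases h : a ∈ E <;> simp [h]

theorem norm_FT_le {w : ZMod q → ℝ} (hw : ∀ a, 0 ≤ w a) (j : ZMod q) :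
    ‖FT ψ w j‖ ≤ ∑ a, w a := by
  refine (norm_sum_le _ _).trans (Finset.sum_le_sum fun a _ => ?_)
  rw [norm_mul, norm_psi, mul_one, Complex.norm_real, Real.norm_eq_abs, abs_of_nonneg (hw a)]

theorem norm_FT_ite_le {w : ZMod q → ℝ} (hw : ∀ a, 0 ≤ w a) (E : Finset (ZMod q)) (j : ZMod q) :
    ‖FT ψ (fun a => if a ∈ E then w a else 0) j‖ ≤ ∑ a ∈ E, w a := by
  refine (norm_FT_le ψ (fun a => ?_) j).trans (le_of_eq ?_)
  · split_ifs
    · exact hw a
    · exact le_rfl
  · rw [Finset.sum_ite_mem, Finset.univ_inter]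

/-- triangle inequality for the splitting of a weight by the set `E` -/
theorem norm_FT_le_add {w : ZMod q → ℝ} (hw : ∀ a, 0 ≤ w a) (E : Finset (ZMod q)) (j : ZMod q) :
    ‖FT ψ w j‖ ≤ (∑ a ∈ E, w a) + ‖FT ψ (fun a => if a ∈ E then 0 else w a) j‖ := by
  rw [FT_split ψ w E j]
  exact (norm_add_le _ _).trans (add_le_add (norm_FT_ite_le ψ hw E j) le_rfl)

end basic

namespace Fam

variable {Ω : Type} [Fintype Ω] {q : ℕ} [NeZero q] (F : Fam Ω q)

theorem card_pos : 0 < F.S.card := by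
  have h1 := F.hS
  have h2 := NeZero.pos q
  omega

theorem w_nonneg (φ : Ω) (a : ZMod q) : 0 ≤ F.w φ a := by
  unfold w
  split_ifs with h
  · exact div_nonneg (F.hf φ a h).le (Nat.cast_nonneg _)
  · exact le_rfl

theorem T_zero (φ : Ω) : F.T φ 0 = (F.m φ : ℂ) := FT_zero _ _

theorem norm_T_le (φ : Ω) (j : ZMod q) : ‖F.T φ j‖ ≤ F.m φ := norm_FT_le _ (F.w_nonneg φ) j

theorem m_eq (φ : Ω) : F.m φ = (∑ a ∈ F.S, F.f φ a) / F.S.card := by
  unfold m w
  rw [Finset.sum_ite_mem, Finset.univ_inter, Finset.sum_div]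

theorem m_pos (φ : Ω) : 0 < F.m φ := by
  rw [m_eq]
  have h1 : (0 : ℝ) < F.S.card := by exact_mod_cast F.card_pos
  exact div_pos (Finset.sum_pos (F.hf φ) (Finset.card_pos.mp F.card_pos)) h1

end Fam

/-! ### Algebra -/

/-- the standard primitive `n`-th root of unity -/
noncomputable def zt (n : ℕ) : ℂ := Complex.exp (2 * Real.pi * Complex.I / n)

/-- the ring `O_K[ζ_n]` -/
def Rn (K : IntermediateField ℚ ℂ) (n : ℕ) : Subring ℂ :=
  Subring.closure ({x | x ∈ K ∧ IsIntegral ℤ x} ∪ {zt n})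

/-- the field `K(ζ_n)` -/
noncomputable def Ln (K : IntermediateField ℚ ℂ) (n : ℕ) : IntermediateField ℚ ℂ :=
  K ⊔ IntermediateField.adjoin ℚ {zt n}

/-- the ring `O_K[μ_∞]` generated by the integers of `K` and all roots of unity -/
def Rinf (K : IntermediateField ℚ ℂ) : Subring ℂ :=
  Subring.closure ({x | x ∈ K ∧ IsIntegral ℤ x} ∪ {z | ∃ n : ℕ, 0 < n ∧ z ^ n = 1})

/-- `α` is a cyclotomic integer: an algebraic integer in the field generated by a root of unity -/
def IsCyclotomicInteger (α : ℂ) : Prop :=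
  IsIntegral ℤ α ∧ ∃ z : ℂ, (∃ n : ℕ, 0 < n ∧ z ^ n = 1) ∧ α ∈ IntermediateField.adjoin ℚ {z}

/-- the mean traces of the totally positive cyclotomic integers -/
def cycTraceSet : Set ℝ :=
  {t | ∃ α : ℂ, IsCyclotomicInteger α ∧ STP.IsTotallyPositive α ∧ STP.meanTrace α = (t : ℂ)}

theorem zt_pow (n : ℕ) (hn : n ≠ 0) : IsPrimitiveRoot (zt n) n :=
  Complex.isPrimitiveRoot_exp n hn

theorem zt_mem (K : IntermediateField ℚ ℂ) (n : ℕ) : zt n ∈ Ln K n :=
  le_sup_right (a := K) (IntermediateField.subset_adjoin ℚ {zt n} (Set.mem_singleton _))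

instance Ln_finite (K : IntermediateField ℚ ℂ) [FiniteDimensional ℚ K] (n : ℕ) :
    FiniteDimensional ℚ (Ln K n) := by
  have h : FiniteDimensional ℚ (IntermediateField.adjoin ℚ {zt n}) := by
    rcases Nat.eq_zero_or_pos n with h0 | h0
    · have h1 : zt n = 1 := by simp [zt, h0]
      rw [h1]
      exact IntermediateField.adjoin.finiteDimensional isIntegral_one
    · exact IntermediateField.adjoin.finiteDimensional
        (((zt_pow n h0.ne').isIntegral h0).tower_top)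
  exact IntermediateField.finiteDimensional_sup K _

end Pool.Agent.CYC
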