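import Mathlib
import Pool.Agent.Lib.MP_8ca0c8_nt_CYC.Defs

/-! Project CYC (MP_8ca0c8_nt), module AMGM: arithmetic-geometric mean inequality with a sparse set. -/

namespace Pool.Agent.CYC

open Finset

theorem amgm_sparse {ι : Type} (S E : Finset ι) (f : ι → ℝ) (hf : ∀ a ∈ S, 0 < f a)
    (hE : E ⊆ S) (lam : ℝ) (hl : 0 < lam) :
    (1 - lam) * ∑ a ∈ E, f a + S.card + ∑ a ∈ S, Real.log (f a) -
      E.card * Real.log (1 / lam) ≤ ∑ a ∈ S, f a := by
  classical
  have e1 : ∑ a ∈ S \ E, (Real.log (f a) + 1) ≤ ∑ a ∈ S \ E, f a := by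
    refine Finset.sum_le_sum fun a ha => ?_
    have := Real.log_le_sub_one_of_pos (hf a (Finset.mem_sdiff.1 ha).1)
    linarith
  have e2 : ∑ a ∈ E, (Real.log (f a) + 1 - Real.log (1 / lam)) ≤ ∑ a ∈ E, lam * f a := by
    refine Finset.sum_le_sum fun a ha => ?_
    have h1 := hf a (hE ha)
    have h2 := Real.log_le_sub_one_of_pos (mul_pos hl h1)
    rw [Real.log_mul hl.ne' h1.ne'] at h2
    rw [one_div, Real.log_inv]
    linarith
  rw [Finset.sum_add_distrib, Finset.sum_const, nsmul_eq_mul, mul_one] at e1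
  rw [Finset.sum_sub_distrib, Finset.sum_add_distrib, Finset.sum_const, Finset.sum_const,
    nsmul_eq_mul, nsmul_eq_mul, mul_one, ← Finset.mul_sum] at e2
  have e3 := Finset.sum_sdiff hE (f := f)
  have e4 := Finset.sum_sdiff hE (f := fun a => Real.log (f a))
  have e5 : ((S \ E).card : ℝ) + E.card = S.card := by
    exact_mod_cast Finset.card_sdiff_add_card_eq_card hE
  rw [← e3, ← e4, ← e5]
  linarith

theorem two_of_sparse {Ω : Type} [Fintype Ω] {q : ℕ} [NeZero q] (F : Fam Ω q)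
    (E : Ω → Finset (ZMod q)) (e A0 lam : ℝ) (hl : 0 < lam) (hl1 : lam ≤ 1) (he : 0 ≤ e)
    (hE : ∀ φ, ((E φ).card : ℝ) ≤ e * F.S.card)
    (hA : A0 * Fintype.card Ω ≤ ∑ φ, ∑ a ∈ E φ, F.w φ a) :
    ((1 - lam) * A0 + 1 - e * Real.log (1 / lam)) * Fintype.card Ω ≤ ∑ φ, F.m φ := by
  classical
  have hS : (0 : ℝ) < F.S.card := by exact_mod_cast F.card_pos
  have hlog : 0 ≤ Real.log (1 / lam) := Real.log_nonneg (by rwa [le_div_iff₀ hl, one_mul])
  have key (φ : Ω) : (1 - lam) * ∑ a ∈ E φ, F.w φ a + 1 +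
      (∑ a ∈ F.S, Real.log (F.f φ a)) / F.S.card - e * Real.log (1 / lam) ≤ F.m φ := by
    have h1 := amgm_sparse F.S (E φ ∩ F.S) (F.f φ) (F.hf φ) Finset.inter_subset_right lam hl
    have h2 : ∑ a ∈ E φ, F.w φ a = (∑ a ∈ E φ ∩ F.S, F.f φ a) / F.S.card := by
      unfold Fam.w
      rw [Finset.sum_ite_mem, Finset.sum_div]
    have h3 : ((E φ ∩ F.S).card : ℝ) ≤ e * F.S.card :=
      (by exact_mod_cast Finset.card_le_card Finset.inter_subset_left :
        ((E φ ∩ F.S).card : ℝ) ≤ (E φ).card).trans (hE φ)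
    have h4 := mul_le_mul_of_nonneg_right h3 hlog
    rw [h2, F.m_eq, le_div_iff₀ hS]
    have h5 : ((1 - lam) * ((∑ a ∈ E φ ∩ F.S, F.f φ a) / F.S.card) + 1 +
        (∑ a ∈ F.S, Real.log (F.f φ a)) / F.S.card - e * Real.log (1 / lam)) * F.S.card =
        (1 - lam) * ∑ a ∈ E φ ∩ F.S, F.f φ a + F.S.card + ∑ a ∈ F.S, Real.log (F.f φ a) -
          e * F.S.card * Real.log (1 / lam) := by
      field_simp
    rw [h5]
    linarith
  have hsum := Finset.sum_le_sum fun φ (_ : φ ∈ (Finset.univ : Finset Ω)) => key φ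
  rw [Finset.sum_sub_distrib, Finset.sum_add_distrib, Finset.sum_add_distrib, ← Finset.mul_sum,
    ← Finset.sum_div, Finset.sum_const, Finset.sum_const, nsmul_eq_mul, nsmul_eq_mul,
    Finset.card_univ] at hsum
  have h6 : 0 ≤ (∑ φ, ∑ a ∈ F.S, Real.log (F.f φ a)) / F.S.card := div_nonneg F.hlog hS.le
  have h7 := mul_le_mul_of_nonneg_left hA (by linarith : 0 ≤ 1 - lam)
  linarith

end Pool.Agent.CYC
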