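import Mathlib
import Pool.Agent.Lib.MP_8ca0c8_nt_CYC.Defs

/-! Project CYC (MP_8ca0c8_nt), module CHAIN: chains of multiples. -/

namespace Pool.Agent.CYC

open Finset

private theorem chain_aux {q : ℕ} [NeZero q] (j0 : ZMod q) (P : ℕ → ℕ)
    (R X : ℕ) (hR : 1 ≤ R) (hmono : StrictMono P) (hP : ∀ i, P i ≤ R ^ i)
    (h : R ^ X < addOrderOf j0) (i i' : ℕ) (hii : i < i') (hi' : i' ≤ X)
    (he : (P i : ZMod q) * j0 = (P i' : ZMod q) * j0) : False := by
  have h1 : P i < P i' := hmono hii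
  have h2 : (P i' - P i) • j0 = 0 := by
    rw [nsmul_eq_mul, Nat.cast_sub h1.le, sub_mul, he, sub_self]
  have h3 : addOrderOf j0 ∣ P i' - P i := addOrderOf_dvd_iff_nsmul_eq_zero.mpr h2
  have h4 : addOrderOf j0 ≤ P i' - P i := Nat.le_of_dvd (by omega) h3
  have h5 : P i' ≤ R ^ X := (hP i').trans (Nat.pow_le_pow_right hR hi')
  omega

theorem chain {q : ℕ} [NeZero q] (J : Finset (ZMod q)) (R X : ℕ) (hX : J.card ≤ X)
    (j0 : ZMod q) (hj0 : j0 ∈ J) (h : R ^ X < addOrderOf j0) :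
    ∃ j ∈ J, ∀ r : ℕ, 2 ≤ r → r ≤ R → (r : ZMod q) * j ∉ J := by
  classical
  by_contra hcon
  have hcon' : ∀ j ∈ J, ∃ r : ℕ, 2 ≤ r ∧ r ≤ R ∧ (r : ZMod q) * j ∈ J := by
    intro j hj
    by_contra hne
    apply hcon
    refine ⟨j, hj, fun r h2 hR hmem => hne ⟨r, h2, hR, hmem⟩⟩
  choose! r hr2 hrR hrJ using hcon'
  have hR : 1 ≤ R := le_trans (by norm_num) ((hr2 j0 hj0).trans (hrR j0 hj0))
  let P : ℕ → ℕ := fun i =>
    Nat.rec (motive := fun _ => ℕ) 1 (fun _ p => r ((p : ZMod q) * j0) * p) i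
  have hP0 : P 0 = 1 := rfl
  have hPs : ∀ i : ℕ, P (i + 1) = r (((P i : ℕ) : ZMod q) * j0) * P i := fun i => rfl
  have hPJ : ∀ i : ℕ, ((P i : ℕ) : ZMod q) * j0 ∈ J := by
    intro i
    induction i with
    | zero => rw [hP0, Nat.cast_one, one_mul]; exact hj0
    | succ i ih =>
      rw [hPs, Nat.cast_mul, mul_assoc]
      exact hrJ _ ih
  have hPpos : ∀ i, 1 ≤ P i := by
    intro i
    induction i with
    | zero => exact le_of_eq hP0.symm
    | succ i ih =>
      rw [hPs]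
      exact Nat.mul_pos (by have := hr2 _ (hPJ i); omega) ih
  have hmono : StrictMono P := by
    refine strictMono_nat_of_lt_succ fun i => ?_
    rw [hPs]
    have h1 := hr2 _ (hPJ i)
    have h2 := hPpos i
    nlinarith
  have hle : ∀ i, P i ≤ R ^ i := by
    intro i
    induction i with
    | zero => rw [hP0, pow_zero]
    | succ i ih =>
      rw [hPs, pow_succ, mul_comm]
      exact Nat.mul_le_mul ih (hrR _ (hPJ i))
  have hcard : J.card < (range (X + 1)).card := by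
    rw [card_range]
    omega
  obtain ⟨i, hi, i', hi', hne, he⟩ := Finset.exists_ne_map_eq_of_card_lt_of_maps_to hcard
    (f := fun i => (P i : ZMod q) * j0) (fun i _ => hPJ i)
  rw [mem_range] at hi hi'
  rcases lt_or_gt_of_ne hne with h1 | h1
  · exact chain_aux j0 P R X hR hmono hle h i i' h1 (by omega) he
  · exact chain_aux j0 P R X hR hmono hle h i' i h1 (by omega) he.symm

end Pool.Agent.CYC
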