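import Mathlib
import Pool.Agent.Lib.MP_8ca0c8_nt_CYC.Defs

/-! Project CYC (MP_8ca0c8_nt), module SCALE: pigeonhole on scales. -/

namespace Pool.Agent.CYC

open Finset

/-- the sequence of scales -/
noncomputable def scaleSeq (G : ℝ → ℝ) : ℕ → ℝ
  | 0 => 1
  | n + 1 => min (scaleSeq G n) (G (scaleSeq G n))

theorem scaleSeq_pos (G : ℝ → ℝ) (hG : ∀ η, 0 < η → 0 < G η) (n : ℕ) : 0 < scaleSeq G n := by
  induction n with
  | zero => exact one_pos
  | succ n ih => exact lt_min ih (hG _ ih)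

theorem scaleSeq_antitone (G : ℝ → ℝ) : Antitone (scaleSeq G) :=
  antitone_nat_of_succ_le fun _ => min_le_left _ _

/-- pigeonhole on scales: `G` is any function with `0 < G η` -/
theorem scale (M1 κ : ℝ) (hM : 0 < M1) (hκ : 0 < κ) (G : ℝ → ℝ)
    (hG : ∀ η, 0 < η → 0 < G η) : ∃ η0 : ℝ, 0 < η0 ∧
    ∀ {ι : Type} [Fintype ι] (w : ι → ℝ), (∀ a, 0 ≤ w a) → ∑ a, w a ≤ M1 →
      ∃ η η' : ℝ, η0 ≤ η' ∧ η' ≤ η ∧ η ≤ 1 ∧ η' ≤ G η ∧
        ∑ a with η' ≤ w a ∧ w a < η, w a ≤ κ := by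
  obtain ⟨I, hI⟩ := exists_nat_gt (M1 / κ)
  refine ⟨scaleSeq G I, scaleSeq_pos G hG I, ?_⟩
  intro ι _ w hw hsum
  have hanti := scaleSeq_antitone G
  suffices h : ∃ i < I, ∑ a with scaleSeq G (i + 1) ≤ w a ∧ w a < scaleSeq G i, w a ≤ κ by
    obtain ⟨i, hi, h⟩ := h
    exact ⟨scaleSeq G i, scaleSeq G (i + 1), hanti hi, hanti (Nat.le_succ i),
      hanti (Nat.zero_le i), min_le_right _ _, h⟩
  by_contra hcon
  push Not at hcon
  have h1 : ∑ i ∈ range I, κ ≤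
      ∑ i ∈ range I, ∑ a with scaleSeq G (i + 1) ≤ w a ∧ w a < scaleSeq G i, w a :=
    Finset.sum_le_sum fun i hi => (hcon i (mem_range.1 hi)).le
  have h2 : ∑ i ∈ range I, ∑ a with scaleSeq G (i + 1) ≤ w a ∧ w a < scaleSeq G i, w a ≤
      ∑ a, w a := by
    simp only [Finset.sum_filter]
    rw [Finset.sum_comm]
    refine Finset.sum_le_sum fun a _ => ?_
    rw [← Finset.sum_filter]
    rw [Finset.sum_const, nsmul_eq_mul]
    have h3 : (#{i ∈ range I | scaleSeq G (i + 1) ≤ w a ∧ w a < scaleSeq G i}) ≤ 1 := by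
      rw [Finset.card_le_one]
      intro i hi j hj
      rw [Finset.mem_filter] at hi hj
      by_contra hij
      rcases Nat.lt_or_gt_of_ne hij with h | h
      · have h4 := hanti (show i + 1 ≤ j from h)
        linarith [hi.2.1, hj.2.2]
      · have h4 := hanti (show j + 1 ≤ i from h)
        linarith [hj.2.1, hi.2.2]
    have h5 : ((#{i ∈ range I | scaleSeq G (i + 1) ≤ w a ∧ w a < scaleSeq G i} : ℕ) : ℝ) ≤ 1 := by
      exact_mod_cast h3
    calc _ ≤ 1 * w a := mul_le_mul_of_nonneg_right h5 (hw a)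
      _ = w a := one_mul _
  rw [Finset.sum_const, Finset.card_range, nsmul_eq_mul] at h1
  rw [div_lt_iff₀ hκ] at hI
  linarith

end Pool.Agent.CYC
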