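import Mathlib
import Pool.Agent.Lib.MP_8ca0c8_nt_CYC.Defs

/-! Project CYC (MP_8ca0c8_nt), module DIR: simultaneous Dirichlet approximation. -/

namespace Pool.Agent.CYC

open Finset

/-- the class of the fractional part of `n x` among `K` intervals -/
noncomputable def dir_cell (K : ℕ) (hK : 0 < K) (x : ℝ) (n : ℕ) : Fin K :=
  ⟨⌊(K : ℝ) * Int.fract ((n : ℝ) * x)⌋₊, by
    have h0 : (0 : ℝ) < K := by exact_mod_cast hK
    rw [Nat.floor_lt (mul_nonneg h0.le (Int.fract_nonneg _))]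
    calc (K : ℝ) * Int.fract ((n : ℝ) * x) < K * 1 :=
          mul_lt_mul_of_pos_left (Int.fract_lt_one _) h0
      _ = K := mul_one _⟩

theorem dir_cell_close {K : ℕ} (hK : 0 < K) {x : ℝ} {n m : ℕ}
    (h : dir_cell K hK x n = dir_cell K hK x m) :
    |Int.fract ((n : ℝ) * x) - Int.fract ((m : ℝ) * x)| ≤ 1 / K := by
  have h0 : (0 : ℝ) < K := by exact_mod_cast hK
  have h1 : ⌊(K : ℝ) * Int.fract ((n : ℝ) * x)⌋₊ = ⌊(K : ℝ) * Int.fract ((m : ℝ) * x)⌋₊ :=
    congrArg Fin.val h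
  have a1 := Nat.floor_le (mul_nonneg h0.le (Int.fract_nonneg ((n : ℝ) * x)))
  have a2 := Nat.lt_floor_add_one ((K : ℝ) * Int.fract ((n : ℝ) * x))
  have b1 := Nat.floor_le (mul_nonneg h0.le (Int.fract_nonneg ((m : ℝ) * x)))
  have b2 := Nat.lt_floor_add_one ((K : ℝ) * Int.fract ((m : ℝ) * x))
  rw [h1] at a1 a2
  have h2 : |Int.fract ((n : ℝ) * x) - Int.fract ((m : ℝ) * x)| * K =
      |(Int.fract ((n : ℝ) * x) - Int.fract ((m : ℝ) * x)) * K| := by
    rw [abs_mul, abs_of_pos h0]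
  rw [le_div_iff₀ h0, h2, abs_le]
  constructor <;> nlinarith

theorem dir_pow {z : ℂ} (hz : ‖z‖ = 1) (n : ℕ) (c : ℤ) (d : ℝ)
    (h : (n : ℝ) * (Complex.arg z / (2 * Real.pi)) = c + d) :
    ‖z ^ n - 1‖ ≤ 2 * Real.pi * |d| := by
  have hpi : (2 * Real.pi) ≠ 0 := by positivity
  have hz1 : z = Complex.exp (Complex.arg z * Complex.I) := by
    conv_lhs => rw [← Complex.norm_mul_exp_arg_mul_I z]
    rw [hz]
    simp
  have h2 : (n : ℝ) * Complex.arg z = c * (2 * Real.pi) + 2 * Real.pi * d := by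
    have h3 : (n : ℝ) * Complex.arg z =
        ((n : ℝ) * (Complex.arg z / (2 * Real.pi))) * (2 * Real.pi) := by
      field_simp
    rw [h3, h]
    ring
  have h4 : z ^ n = Complex.exp (Complex.I * ((2 * Real.pi * d : ℝ) : ℂ)) := by
    rw [hz1, ← Complex.exp_nat_mul]
    have h5 : (n : ℂ) * (((Complex.arg z : ℝ) : ℂ) * Complex.I) =
        (c : ℂ) * (2 * Real.pi * Complex.I) + Complex.I * ((2 * Real.pi * d : ℝ) : ℂ) := by
      have h6 := congrArg (fun t : ℝ => (t : ℂ)) h2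
      push_cast at h6 ⊢
      linear_combination Complex.I * h6
    rw [h5, Complex.exp_add, Complex.exp_int_mul_two_pi_mul_I, one_mul]
  rw [h4]
  refine le_trans Real.norm_exp_I_mul_ofReal_sub_one_le ?_
  rw [Real.norm_eq_abs, abs_mul, abs_of_pos (by positivity : (0 : ℝ) < 2 * Real.pi)]

theorem dirichlet_unit {ι : Type} (A : Finset ι) (u : ι → ℂ) (hu : ∀ a ∈ A, ‖u a‖ = 1)
    (K : ℕ) (hK : 0 < K) :
    ∃ n : ℕ, 1 ≤ n ∧ n ≤ K ^ A.card ∧ ∀ a ∈ A, ‖u a ^ n - 1‖ ≤ 2 * Real.pi / K := by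
  classical
  have h0 : (0 : ℝ) < K := by exact_mod_cast hK
  let f : ℕ → (A → Fin K) := fun n a =>
    dir_cell K hK (Complex.arg (u a) / (2 * Real.pi)) n
  have hcard : (Finset.univ : Finset (A → Fin K)).card < (Finset.range (K ^ A.card + 1)).card := by
    rw [Finset.card_univ, Fintype.card_fun, Fintype.card_fin, Fintype.card_coe,
      Finset.card_range]
    exact Nat.lt_succ_self _
  obtain ⟨n, hn, m, hm, hne, heq⟩ := Finset.exists_ne_map_eq_of_card_lt_of_maps_to hcard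
    (fun n _ => Finset.mem_univ (f n))
  have key : ∀ n m : ℕ, n < m → m ≤ K ^ A.card → f n = f m →
      ∃ n : ℕ, 1 ≤ n ∧ n ≤ K ^ A.card ∧ ∀ a ∈ A, ‖u a ^ n - 1‖ ≤ 2 * Real.pi / K := by
    intro n m hnm hm heq
    refine ⟨m - n, by omega, by omega, fun a ha => ?_⟩
    have h1 : f m ⟨a, ha⟩ = f n ⟨a, ha⟩ := by rw [heq]
    have h2 := dir_cell_close hK h1
    have h3 := dir_pow (hu a ha) (m - n)
      (⌊(m : ℝ) * (Complex.arg (u a) / (2 * Real.pi))⌋ -
        ⌊(n : ℝ) * (Complex.arg (u a) / (2 * Real.pi))⌋)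
      (Int.fract ((m : ℝ) * (Complex.arg (u a) / (2 * Real.pi))) -
        Int.fract ((n : ℝ) * (Complex.arg (u a) / (2 * Real.pi)))) (by
          rw [Nat.cast_sub hnm.le]
          push_cast
          have e1 := Int.floor_add_fract ((m : ℝ) * (Complex.arg (u a) / (2 * Real.pi)))
          have e2 := Int.floor_add_fract ((n : ℝ) * (Complex.arg (u a) / (2 * Real.pi)))
          linear_combination e2 - e1)
    refine le_trans h3 ?_
    calc 2 * Real.pi * _ ≤ 2 * Real.pi * (1 / K) :=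
          mul_le_mul_of_nonneg_left h2 (by positivity)
      _ = 2 * Real.pi / K := by ring
  have hn' := Finset.mem_range.mp hn
  have hm' := Finset.mem_range.mp hm
  rcases lt_or_gt_of_ne hne with h | h
  · exact key n m h (by omega) heq
  · exact key m n h (by omega) heq.symm

end Pool.Agent.CYC
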