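import Mathlib
import Pool.Agent.Lib.MP_8ca0c8_nt_CYC.Defs

/-! Project CYC (MP_8ca0c8_nt), module SPS: Parseval and the sparse set lemma. -/

namespace Pool.Agent.CYC

open Finset

theorem parseval {q : ℕ} [NeZero q] {ψ : AddChar (ZMod q) ℂ} (hψ : ψ.IsPrimitive)
    (c : ZMod q → ℂ) :
    ∑ a, ‖∑ j, c j * ψ (j * a)‖ ^ 2 = q * ∑ j, ‖c j‖ ^ 2 := by
  have key : ∀ j k : ZMod q, ∑ a, ψ (j * a) * (starRingEnd ℂ) (ψ (k * a)) =
      if j = k then (q : ℂ) else 0 := by
    intro j k
    have h1 : ∀ a : ZMod q, ψ (j * a) * (starRingEnd ℂ) (ψ (k * a)) = ψ (a * (j - k)) := by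
      intro a
      rw [← AddChar.map_neg_eq_conj, ← AddChar.map_add_eq_mul]
      congr 1
      ring
    simp_rw [h1]
    rw [AddChar.sum_mulShift (j - k) hψ]
    simp only [sub_eq_zero, ZMod.card]
    split_ifs <;> simp
  have h2 : ((∑ a, ‖∑ j, c j * ψ (j * a)‖ ^ 2 : ℝ) : ℂ) =
      ((q * ∑ j, ‖c j‖ ^ 2 : ℝ) : ℂ) := by
    push_cast
    have h3 : ∀ z : ℂ, ((‖z‖ : ℝ) : ℂ) ^ 2 = z * (starRingEnd ℂ) z := fun z => by
      rw [Complex.mul_conj, Complex.normSq_eq_norm_sq]
      push_cast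
      rfl
    simp_rw [h3, map_sum, map_mul, Finset.sum_mul_sum]
    rw [Finset.sum_comm]
    have h4 : ∀ j : ZMod q, ∑ a, ∑ k, c j * ψ (j * a) *
        ((starRingEnd ℂ) (c k) * (starRingEnd ℂ) (ψ (k * a))) =
        q * (c j * (starRingEnd ℂ) (c j)) := by
      intro j
      rw [Finset.sum_comm]
      have h5 : ∀ k : ZMod q, ∑ a, c j * ψ (j * a) *
          ((starRingEnd ℂ) (c k) * (starRingEnd ℂ) (ψ (k * a))) =
          c j * (starRingEnd ℂ) (c k) * (if j = k then (q : ℂ) else 0) := by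
        intro k
        rw [← key j k, Finset.mul_sum]
        refine Finset.sum_congr rfl fun a _ => ?_
        ring
      simp_rw [h5]
      simp only [mul_ite, mul_zero, Finset.sum_ite_eq, Finset.mem_univ, if_true]
      ring
    simp_rw [h4]
    rw [Finset.mul_sum]
  exact Complex.ofReal_injective h2

/-- unimodular multiplier turning a complex number into its norm -/
noncomputable def spsU (z : ℂ) : ℂ := if z = 0 then 1 else (starRingEnd ℂ) z / (‖z‖ : ℂ)

theorem spsU_norm (z : ℂ) : ‖spsU z‖ = 1 := by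
  unfold spsU
  split_ifs with h
  · simp
  · have h1 : ‖z‖ ≠ 0 := norm_ne_zero_iff.mpr h
    rw [norm_div, RCLike.norm_conj, Complex.norm_real, norm_norm, div_self h1]

theorem spsU_mul (z : ℂ) : spsU z * z = (‖z‖ : ℂ) := by
  unfold spsU
  split_ifs with h
  · simp [h]
  · have h1 : ((‖z‖ : ℝ) : ℂ) ≠ 0 := by exact_mod_cast norm_ne_zero_iff.mpr h
    rw [div_mul_eq_mul_div, div_eq_iff h1, mul_comm, Complex.mul_conj, Complex.normSq_eq_norm_sq]
    push_cast
    ring

/-- the step of the greedy construction -/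
theorem sps_step {q : ℕ} [NeZero q] {ψ : AddChar (ZMod q) ℂ} (hψ : ψ.IsPrimitive)
    (w : ZMod q → ℝ) (hw : ∀ a, 0 ≤ w a) (J : Finset (ZMod q)) (hJ : J.Nonempty) (τ : ℝ)
    (hτ : 0 < τ) (E : Finset (ZMod q))
    (hbad : 2 * τ * (∑ a, w a) * J.card <
      ∑ j ∈ J, ‖FT ψ (fun a => if a ∈ E then 0 else w a) j‖) :
    ∃ E' : Finset (ZMod q), Disjoint E E' ∧ (E'.card : ℝ) * (τ ^ 2 * J.card) ≤ q ∧
      τ * (∑ a, w a) ≤ ∑ a ∈ E', w a := by
  classical
  set m : ℝ := ∑ a, w a with hm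
  set v : ZMod q → ℝ := fun a => if a ∈ E then 0 else w a with hv
  have hJc : (0 : ℝ) < J.card := by exact_mod_cast hJ.card_pos
  set c : ZMod q → ℂ := fun j => if j ∈ J then spsU (FT ψ v j) else 0 with hc
  set W : ZMod q → ℂ := fun a => ∑ j, c j * ψ (j * a) with hW
  have hcn : ∀ j, ‖c j‖ ^ 2 = if j ∈ J then 1 else 0 := by
    intro j
    simp only [hc]
    split_ifs with h
    · rw [spsU_norm, one_pow]
    · simp
  have hpars : ∑ a, ‖W a‖ ^ 2 = q * J.card := by
    rw [hW, parseval hψ c]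
    simp_rw [hcn]
    simp
  have hWle : ∀ a, ‖W a‖ ≤ J.card := by
    intro a
    refine (norm_sum_le _ _).trans ?_
    have h1 : ∀ j, ‖c j * ψ (j * a)‖ = if j ∈ J then 1 else 0 := by
      intro j
      rw [norm_mul, norm_psi, mul_one]
      simp only [hc]
      split_ifs with h
      · exact spsU_norm _
      · simp
    simp_rw [h1]
    simp
  set E' : Finset (ZMod q) := Finset.univ.filter (fun a => a ∉ E ∧ τ * J.card < ‖W a‖) with hE'
  refine ⟨E', ?_, ?_, ?_⟩
  · rw [Finset.disjoint_left]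
    intro a ha ha'
    exact (Finset.mem_filter.mp ha').2.1 ha
  · have h1 : (E'.card : ℝ) * (τ * J.card) ^ 2 ≤ ∑ a ∈ E', ‖W a‖ ^ 2 := by
      rw [← nsmul_eq_mul]
      refine Finset.card_nsmul_le_sum _ _ _ fun a ha => ?_
      have h2 := (Finset.mem_filter.mp ha).2.2
      exact pow_le_pow_left₀ (by positivity) h2.le 2
    have h2 : ∑ a ∈ E', ‖W a‖ ^ 2 ≤ ∑ a, ‖W a‖ ^ 2 :=
      Finset.sum_le_sum_of_subset_of_nonneg (Finset.subset_univ _) fun _ _ _ => by positivity
    have h3 : ((E'.card : ℝ) * (τ ^ 2 * J.card)) * J.card ≤ q * J.card := by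
      calc ((E'.card : ℝ) * (τ ^ 2 * J.card)) * J.card = (E'.card : ℝ) * (τ * J.card) ^ 2 := by ring
        _ ≤ _ := h1.trans (h2.trans hpars.le)
    exact le_of_mul_le_mul_right h3 hJc
  · have h1 : ((∑ j ∈ J, ‖FT ψ v j‖ : ℝ) : ℂ) = ∑ a, (v a : ℂ) * W a := by
      push_cast
      calc ∑ j ∈ J, ((‖FT ψ v j‖ : ℝ) : ℂ) = ∑ j ∈ J, spsU (FT ψ v j) * FT ψ v j :=
            Finset.sum_congr rfl fun j _ => (spsU_mul _).symm
        _ = ∑ j, c j * FT ψ v j := by
            simp only [hc, ite_mul, zero_mul]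
            rw [Finset.sum_ite_mem, Finset.univ_inter]
        _ = ∑ j, ∑ a, (v a : ℂ) * (c j * ψ (j * a)) := by
            refine Finset.sum_congr rfl fun j _ => ?_
            rw [FT, Finset.mul_sum]
            refine Finset.sum_congr rfl fun a _ => ?_
            ring
        _ = ∑ a, ∑ j, (v a : ℂ) * (c j * ψ (j * a)) := Finset.sum_comm
        _ = ∑ a, (v a : ℂ) * W a := by
            refine Finset.sum_congr rfl fun a _ => ?_
            rw [hW, Finset.mul_sum]
    have hv0 : ∀ a, 0 ≤ v a := by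
      intro a
      simp only [hv]
      split_ifs
      · exact le_rfl
      · exact hw a
    have hvw : ∀ a, v a ≤ w a := by
      intro a
      simp only [hv]
      split_ifs
      · exact hw a
      · exact le_rfl
    have h2 : ∑ j ∈ J, ‖FT ψ v j‖ ≤ ∑ a, v a * ‖W a‖ := by
      have h3 : (∑ j ∈ J, ‖FT ψ v j‖) = ‖∑ a, (v a : ℂ) * W a‖ := by
        rw [← h1, Complex.norm_real, Real.norm_eq_abs, abs_of_nonneg]
        exact Finset.sum_nonneg fun _ _ => norm_nonneg _
      rw [h3]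
      refine (norm_sum_le _ _).trans (le_of_eq ?_)
      refine Finset.sum_congr rfl fun a _ => ?_
      rw [norm_mul, Complex.norm_real, Real.norm_eq_abs, abs_of_nonneg (hv0 a)]
    have h3 : ∑ a, v a * ‖W a‖ ≤ ∑ a, ((if a ∈ E' then w a else 0) * J.card +
        τ * J.card * w a) := by
      refine Finset.sum_le_sum fun a _ => ?_
      by_cases haE : a ∈ E
      · have h4 : v a = 0 := by simp [hv, haE]
        rw [h4, zero_mul]
        have h5 := hw a
        have h6 : 0 ≤ (if a ∈ E' then w a else 0) := by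
          split_ifs
          · exact h5
          · exact le_rfl
        positivity
      · by_cases haE' : a ∈ E'
        · simp only [haE', if_true]
          have h5 : v a * ‖W a‖ ≤ w a * J.card :=
            mul_le_mul (hvw a) (hWle a) (norm_nonneg _) (hw a)
          have h6 : 0 ≤ τ * J.card * w a := mul_nonneg (by positivity) (hw a)
          linarith
        · simp only [haE', if_false, zero_mul, zero_add]
          have h5 : ‖W a‖ ≤ τ * J.card := by
            by_contra h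
            exact haE' (Finset.mem_filter.mpr ⟨Finset.mem_univ _, haE, not_le.mp h⟩)
          calc v a * ‖W a‖ ≤ w a * (τ * J.card) :=
                mul_le_mul (hvw a) h5 (norm_nonneg _) (hw a)
            _ = τ * J.card * w a := by ring
    have h4 : ∑ a, ((if a ∈ E' then w a else 0) * (J.card : ℝ) + τ * J.card * w a) =
        (∑ a ∈ E', w a) * J.card + τ * J.card * m := by
      rw [Finset.sum_add_distrib, ← Finset.sum_mul, ← Finset.mul_sum, Finset.sum_ite_mem,
        Finset.univ_inter]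
    have h5 : 2 * τ * m * J.card < (∑ a ∈ E', w a) * J.card + τ * J.card * m :=
      lt_of_lt_of_le hbad (h2.trans (h3.trans h4.le))
    have h6 : (τ * m) * J.card ≤ (∑ a ∈ E', w a) * J.card := by nlinarith
    exact le_of_mul_le_mul_right h6 hJc

theorem sps_claim {q : ℕ} [NeZero q] {ψ : AddChar (ZMod q) ℂ} (hψ : ψ.IsPrimitive)
    (w : ZMod q → ℝ) (hw : ∀ a, 0 ≤ w a) (J : Finset (ZMod q)) (hJ : J.Nonempty) (τ : ℝ)
    (hτ : 0 < τ) (k : ℕ) :
    ∃ E : Finset (ZMod q), (E.card : ℝ) * (τ ^ 2 * J.card) ≤ k * q ∧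
      ((∑ j ∈ J, ‖FT ψ (fun a => if a ∈ E then 0 else w a) j‖ ≤ 2 * τ * (∑ a, w a) * J.card) ∨
        k * (τ * ∑ a, w a) ≤ ∑ a ∈ E, w a) := by
  classical
  induction k with
  | zero => exact ⟨∅, by simp, Or.inr (by simp)⟩
  | succ k ih =>
    obtain ⟨E, hE, h⟩ := ih
    by_cases hgood : ∑ j ∈ J, ‖FT ψ (fun a => if a ∈ E then 0 else w a) j‖ ≤
        2 * τ * (∑ a, w a) * J.card
    · refine ⟨E, hE.trans ?_, Or.inl hgood⟩
      have h1 : (0 : ℝ) ≤ q := Nat.cast_nonneg q
      push_cast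
      linarith
    · have h' := h.resolve_left hgood
      obtain ⟨E', hdis, hcard, hmass⟩ := sps_step hψ w hw J hJ τ hτ E (not_le.mp hgood)
      refine ⟨E ∪ E', ?_, Or.inr ?_⟩
      · rw [Finset.card_union_of_disjoint hdis]
        push_cast
        linarith
      · rw [Finset.sum_union hdis]
        push_cast
        linarith

theorem sparse_set {q : ℕ} [NeZero q] {ψ : AddChar (ZMod q) ℂ} (hψ : ψ.IsPrimitive)
    (w : ZMod q → ℝ) (hw : ∀ a, 0 ≤ w a) (J : Finset (ZMod q)) (hJ : J.Nonempty) (τ : ℝ)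
    (hτ : 0 < τ) :
    ∃ E : Finset (ZMod q), (E.card : ℝ) * (τ ^ 2 * J.card) ≤ (1 / τ + 1) * q ∧
      ∑ j ∈ J, ‖FT ψ (fun a => if a ∈ E then 0 else w a) j‖ ≤ 2 * τ * (∑ a, w a) * J.card := by
  obtain ⟨E, hE, h⟩ := sps_claim hψ w hw J hJ τ hτ (⌊1 / τ⌋₊ + 1)
  have hq : (0 : ℝ) ≤ q := Nat.cast_nonneg q
  have h1 : (⌊1 / τ⌋₊ : ℝ) ≤ 1 / τ := Nat.floor_le (by positivity)
  have h2 : 1 / τ < (⌊1 / τ⌋₊ : ℝ) + 1 := Nat.lt_floor_add_one _
  refine ⟨E, hE.trans ?_, ?_⟩
  · push_cast
    exact mul_le_mul_of_nonneg_right (by linarith) hq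
  · have hm0 : 0 ≤ ∑ a, w a := Finset.sum_nonneg fun a _ => hw a
    rcases h with h | h
    · exact h
    · rcases hm0.eq_or_lt with h0 | h0
      · have h3 : ∀ a, w a = 0 := by
          intro a
          exact (Finset.sum_eq_zero_iff_of_nonneg fun a _ => hw a).mp h0.symm a (Finset.mem_univ a)
        have h4 : (fun a => if a ∈ E then 0 else w a) = fun _ => (0 : ℝ) := by
          funext a
          simp [h3 a]
        rw [h4, ← h0]
        simp [FT]
      · exfalso
        have h3 : ∑ a ∈ E, w a ≤ ∑ a, w a :=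
          Finset.sum_le_sum_of_subset_of_nonneg (Finset.subset_univ _) fun a _ _ => hw a
        have h4 : 1 < ((⌊1 / τ⌋₊ : ℝ) + 1) * τ := by
          have := (div_lt_iff₀ hτ).mp h2
          exact this
        push_cast at h
        nlinarith

end Pool.Agent.CYC
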