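import Mathlib
import Pool.Agent.Lib.MP_8ca0c8_nt_CYC.Sparse
import Pool.Agent.Lib.MP_8ca0c8_nt_CYC.Dir

/-! Project CYC (MP_8ca0c8_nt), module SHIFT: one almost period. -/

namespace Pool.Agent.CYC

open Finset

/-- the number of large weights -/
theorem shift_card_large {q : ℕ} [NeZero q] (w : ZMod q → ℝ) (hw : ∀ a, 0 ≤ w a) (M1 : ℝ)
    (hwM : ∑ a, w a ≤ M1) (η : ℝ) (hη : 0 < η) :
    (Finset.univ.filter (fun a => η ≤ w a)).card ≤ ⌈M1 / η⌉₊ := by
  have h1 : ((Finset.univ.filter (fun a => η ≤ w a)).card : ℝ) * η ≤ M1 := by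
    refine le_trans ?_ hwM
    rw [← nsmul_eq_mul]
    refine (Finset.card_nsmul_le_sum _ _ _ fun a ha => (Finset.mem_filter.mp ha).2).trans ?_
    exact Finset.sum_le_sum_of_subset_of_nonneg (Finset.subset_univ _) fun a _ _ => hw a
  have h2 : ((Finset.univ.filter (fun a => η ≤ w a)).card : ℝ) ≤ M1 / η := by
    rw [le_div_iff₀ hη]
    exact h1
  exact_mod_cast h2.trans (Nat.le_ceil _)

/-- Chebyshev's inequality for the small weights -/
theorem shift_cheb {q : ℕ} [NeZero q] {ψ : AddChar (ZMod q) ℂ} (hψ : ψ.IsPrimitive)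
    (w : ZMod q → ℝ) (hw : ∀ a, 0 ≤ w a) (M1 d0 : ℝ) (hd : 0 < d0) (hwM : ∑ a, w a ≤ M1)
    (η' : ℝ) (hη' : 0 < η') :
    ((Finset.univ.filter (fun j => d0 / 8 ≤
      ‖FT ψ (fun a => if w a < η' then w a else 0) j‖)).card : ℝ) ≤
      64 * M1 / d0 ^ 2 * η' * q := by
  have hp := parseval hψ (fun a => (((if w a < η' then w a else 0 : ℝ)) : ℂ))
  have h1 : ∑ j, ‖FT ψ (fun a => if w a < η' then w a else 0) j‖ ^ 2 =
      q * ∑ a, ‖(((if w a < η' then w a else 0 : ℝ)) : ℂ)‖ ^ 2 := by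
    rw [← hp]
    refine Finset.sum_congr rfl fun j _ => ?_
    congr 2
    rw [FT]
    refine Finset.sum_congr rfl fun a _ => ?_
    rw [mul_comm j a]
  have h2 : ∑ a, ‖(((if w a < η' then w a else 0 : ℝ)) : ℂ)‖ ^ 2 ≤ η' * M1 := by
    refine le_trans ?_ (mul_le_mul_of_nonneg_left hwM hη'.le)
    rw [Finset.mul_sum]
    refine Finset.sum_le_sum fun a _ => ?_
    rw [Complex.norm_real, Real.norm_eq_abs, sq_abs]
    have h3 := hw a
    split_ifs with h
    · nlinarith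
    · have := mul_nonneg hη'.le h3
      simpa using this
  have h3 : ((Finset.univ.filter (fun j => d0 / 8 ≤
      ‖FT ψ (fun a => if w a < η' then w a else 0) j‖)).card : ℝ) * (d0 / 8) ^ 2 ≤
      q * (η' * M1) := by
    have hq : (0 : ℝ) ≤ q := Nat.cast_nonneg q
    refine le_trans ?_ (mul_le_mul_of_nonneg_left h2 hq)
    rw [← h1, ← nsmul_eq_mul]
    refine (Finset.card_nsmul_le_sum _ _ _ fun j hj => ?_).trans
      (Finset.sum_le_sum_of_subset_of_nonneg (Finset.subset_univ _) fun _ _ _ => by positivity)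
    exact pow_le_pow_left₀ (by positivity) (Finset.mem_filter.mp hj).2 2
  have h4 : (0 : ℝ) < (d0 / 8) ^ 2 := by positivity
  rw [← le_div_iff₀ h4] at h3
  refine h3.trans (le_of_eq ?_)
  field_simp
  ring

theorem shift_step {q : ℕ} [NeZero q] {ψ : AddChar (ZMod q) ℂ} (hψ : ψ.IsPrimitive)
    (w : ZMod q → ℝ) (hw : ∀ a, 0 ≤ w a) (M1 d0 : ℝ) (hM : 0 < M1) (hd : 0 < d0)
    (hwM : ∑ a, w a ≤ M1)
    (hsep : ∀ i j, FT ψ w i = FT ψ w j ∨ d0 ≤ ‖FT ψ w i - FT ψ w j‖)
    (η η' : ℝ) (hη' : 0 < η') (hη : η' ≤ η)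
    (hmid : ∑ a with η' ≤ w a ∧ w a < η, w a ≤ d0 / 8) (Kc : ℕ) (hKc : 16 * Real.pi * M1 / d0 ≤ Kc)
    (hKc0 : 0 < Kc) (h : ZMod q) :
    ∃ n : ℕ, 1 ≤ n ∧ n ≤ Kc ^ ⌈M1 / η⌉₊ ∧
      (#{j : ZMod q | FT ψ w (j + n * h) ≠ FT ψ w j} : ℝ) ≤ 128 * M1 / d0 ^ 2 * η' * q := by
  classical
  have hη0 : 0 < η := lt_of_lt_of_le hη' hη
  set Lg : Finset (ZMod q) := Finset.univ.filter (fun a => η ≤ w a) with hLg
  obtain ⟨n, hn1, hn2, hn3⟩ := dirichlet_unit Lg (fun a => ψ (h * a))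
    (fun a _ => norm_psi ψ _) Kc hKc0
  refine ⟨n, hn1, hn2.trans (Nat.pow_le_pow_right hKc0
    (shift_card_large w hw M1 hwM η hη0)), ?_⟩
  have hKr : (0 : ℝ) < Kc := by exact_mod_cast hKc0
  set P : ZMod q → ℂ := fun j => FT ψ (fun a => if w a < η' then w a else 0) j with hP
  set B : Finset (ZMod q) := Finset.univ.filter (fun j => d0 / 8 ≤ ‖P j‖) with hB
  have hBc : (B.card : ℝ) ≤ 64 * M1 / d0 ^ 2 * η' * q := shift_cheb hψ w hw M1 d0 hd hwM η' hη'
  -- the difference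
  have hpsi : ∀ j a : ZMod q, ψ ((j + n * h) * a) = ψ (j * a) * ψ (h * a) ^ n := by
    intro j a
    have h1 : (j + n * h) * a = j * a + n • (h * a) := by
      rw [nsmul_eq_mul]
      ring
    rw [h1, AddChar.map_add_eq_mul, AddChar.map_nsmul_eq_pow]
  have hdiff : ∀ j, ‖FT ψ w (j + n * h) - FT ψ w j‖ ≤
      d0 / 8 + d0 / 4 + ‖P (j + n * h)‖ + ‖P j‖ := by
    intro j
    have h1 : FT ψ w (j + n * h) - FT ψ w j =
        (∑ a ∈ Lg, (w a : ℂ) * (ψ (j * a) * (ψ (h * a) ^ n - 1))) +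
        (∑ a with η' ≤ w a ∧ w a < η, (w a : ℂ) * (ψ (j * a) * (ψ (h * a) ^ n - 1))) +
        (P (j + n * h) - P j) := by
      have e1 : FT ψ w (j + n * h) - FT ψ w j =
          ∑ a, (w a : ℂ) * (ψ (j * a) * (ψ (h * a) ^ n - 1)) := by
        rw [FT, FT, ← Finset.sum_sub_distrib]
        refine Finset.sum_congr rfl fun a _ => ?_
        rw [hpsi]
        ring
      have e2 : P (j + n * h) - P j =
          ∑ a, if w a < η' then (w a : ℂ) * (ψ (j * a) * (ψ (h * a) ^ n - 1)) else 0 := by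
        rw [hP]
        simp only [FT]
        rw [← Finset.sum_sub_distrib]
        refine Finset.sum_congr rfl fun a _ => ?_
        rw [hpsi]
        split_ifs
        · ring
        · simp
      rw [e1, e2, hLg, Finset.sum_filter, Finset.sum_filter, ← Finset.sum_add_distrib,
        ← Finset.sum_add_distrib]
      refine Finset.sum_congr rfl fun a _ => ?_
      by_cases c1 : η ≤ w a
      · have c2 : ¬ (η' ≤ w a ∧ w a < η) := fun hh => absurd hh.2 (not_lt.mpr c1)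
        have c3 : ¬ (w a < η') := not_lt.mpr (hη.trans c1)
        simp [c1, c2, c3]
      · by_cases c2 : w a < η'
        · have c3 : ¬ (η' ≤ w a ∧ w a < η) := fun hh => absurd c2 (not_lt.mpr hh.1)
          simp [c1, c2, c3]
        · have c3 : (η' ≤ w a ∧ w a < η) := ⟨not_lt.mp c2, not_le.mp c1⟩
          simp [c1, c2, c3]
    have hL : ‖∑ a ∈ Lg, (w a : ℂ) * (ψ (j * a) * (ψ (h * a) ^ n - 1))‖ ≤ d0 / 8 := by
      have s1 : ‖∑ a ∈ Lg, (w a : ℂ) * (ψ (j * a) * (ψ (h * a) ^ n - 1))‖ ≤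
          ∑ a ∈ Lg, w a * (2 * Real.pi / Kc) := by
        refine (norm_sum_le _ _).trans (Finset.sum_le_sum fun a ha => ?_)
        rw [norm_mul, norm_mul, norm_psi, one_mul, Complex.norm_real, Real.norm_eq_abs,
          abs_of_nonneg (hw a)]
        exact mul_le_mul_of_nonneg_left (hn3 a ha) (hw a)
      refine s1.trans ?_
      rw [← Finset.sum_mul]
      have s2 : ∑ a ∈ Lg, w a ≤ M1 :=
        (Finset.sum_le_sum_of_subset_of_nonneg (Finset.subset_univ _) fun a _ _ => hw a).trans hwM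
      have s3 : (0 : ℝ) ≤ 2 * Real.pi / Kc := by positivity
      refine (mul_le_mul_of_nonneg_right s2 s3).trans ?_
      have s4 : 16 * Real.pi * M1 ≤ Kc * d0 := (div_le_iff₀ hd).mp hKc
      rw [← mul_div_assoc, div_le_iff₀ hKr]
      linarith
    have hMd : ‖∑ a with η' ≤ w a ∧ w a < η, (w a : ℂ) * (ψ (j * a) * (ψ (h * a) ^ n - 1))‖ ≤
        d0 / 4 := by
      have s1 : ‖∑ a with η' ≤ w a ∧ w a < η, (w a : ℂ) * (ψ (j * a) * (ψ (h * a) ^ n - 1))‖ ≤
          ∑ a with η' ≤ w a ∧ w a < η, w a * 2 := by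
        refine (norm_sum_le _ _).trans (Finset.sum_le_sum fun a _ => ?_)
        rw [norm_mul, norm_mul, norm_psi, one_mul, Complex.norm_real, Real.norm_eq_abs,
          abs_of_nonneg (hw a)]
        refine mul_le_mul_of_nonneg_left ?_ (hw a)
        refine (norm_sub_le _ _).trans ?_
        rw [norm_pow, norm_psi, one_pow, norm_one]
        norm_num
      refine s1.trans ?_
      rw [← Finset.sum_mul]
      linarith
    rw [h1]
    have t1 := norm_add_le ((∑ a ∈ Lg, (w a : ℂ) * (ψ (j * a) * (ψ (h * a) ^ n - 1))) +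
        (∑ a with η' ≤ w a ∧ w a < η, (w a : ℂ) * (ψ (j * a) * (ψ (h * a) ^ n - 1))))
        (P (j + n * h) - P j)
    have t2 := norm_add_le (∑ a ∈ Lg, (w a : ℂ) * (ψ (j * a) * (ψ (h * a) ^ n - 1)))
        (∑ a with η' ≤ w a ∧ w a < η, (w a : ℂ) * (ψ (j * a) * (ψ (h * a) ^ n - 1)))
    have t3 := norm_sub_le (P (j + n * h)) (P j)
    linarith
  -- the bad set
  have hsub : Finset.univ.filter (fun j : ZMod q => FT ψ w (j + n * h) ≠ FT ψ w j) ⊆
      B ∪ Finset.univ.filter (fun j : ZMod q => j + n * h ∈ B) := by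
    intro j hj
    by_contra hno
    rw [Finset.mem_union, not_or] at hno
    have c1 : ‖P j‖ < d0 / 8 := by
      by_contra hh
      exact hno.1 (Finset.mem_filter.mpr ⟨Finset.mem_univ _, not_lt.mp hh⟩)
    have c2 : ‖P (j + n * h)‖ < d0 / 8 := by
      by_contra hh
      exact hno.2 (Finset.mem_filter.mpr ⟨Finset.mem_univ _,
        Finset.mem_filter.mpr ⟨Finset.mem_univ _, not_lt.mp hh⟩⟩)
    have c3 := hdiff j
    rcases hsep (j + n * h) j with c4 | c4
    · exact (Finset.mem_filter.mp hj).2 c4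
    · linarith
  have htr : (Finset.univ.filter (fun j : ZMod q => j + n * h ∈ B)).card ≤ B.card := by
    refine Finset.card_le_card_of_injOn (fun j => j + n * h) ?_ ?_
    · intro j hj
      exact (Finset.mem_filter.mp hj).2
    · intro i _ j _ hij
      exact add_right_cancel hij
  have hfin : ((Finset.univ.filter (fun j : ZMod q => FT ψ w (j + n * h) ≠ FT ψ w j)).card : ℝ) ≤
      (B.card : ℝ) + B.card := by
    have g1 := (Finset.card_le_card hsub).trans (Finset.card_union_le _ _)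
    have g2 := g1.trans (Nat.add_le_add_left htr _)
    exact_mod_cast g2
  refine hfin.trans ?_
  have g3 : (B.card : ℝ) + B.card ≤ 2 * (64 * M1 / d0 ^ 2 * η' * q) := by linarith
  refine g3.trans (le_of_eq ?_)
  ring

end Pool.Agent.CYC
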