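import Mathlib
import Pool.Agent.Lib.MP_8ca0c8_nt_CYC.Shift
import Pool.Agent.Lib.MP_8ca0c8_nt_CYC.Scale

/-! Project CYC (MP_8ca0c8_nt), module COHEN: weights with few separated Fourier values. -/

namespace Pool.Agent.CYC

open Finset

/-- translating a bad set -/
theorem cohen_translate {p : ℕ} [NeZero p] (f : ZMod p → ℂ) (g c : ZMod p) :
    #{j : ZMod p | f (j + c + g) ≠ f (j + c)} = #{j : ZMod p | f (j + g) ≠ f j} := by
  refine Finset.card_bij (fun j _ => j + c) ?_ ?_ ?_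
  · intro j hj
    rw [mem_filter] at hj ⊢
    exact ⟨mem_univ _, hj.2⟩
  · intro a _ b _ hab
    exact add_right_cancel hab
  · intro b hb
    rw [mem_filter] at hb
    refine ⟨b - c, ?_, by ring⟩
    rw [mem_filter]
    refine ⟨mem_univ _, ?_⟩
    rw [sub_add_cancel]
    exact hb.2

/-- union bound along a progression -/
theorem cohen_union {p : ℕ} [NeZero p] (f : ZMod p → ℂ) (g : ZMod p) (m : ℕ) :
    #{j : ZMod p | f (j + m * g) ≠ f j} ≤ m * #{j : ZMod p | f (j + g) ≠ f j} := by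
  induction m with
  | zero => simp
  | succ m ih =>
    have hsub : ({j : ZMod p | f (j + (m + 1 : ℕ) * g) ≠ f j} : Finset (ZMod p)) ⊆
        ({j : ZMod p | f (j + m * g) ≠ f j} : Finset (ZMod p)) ∪
        ({j : ZMod p | f (j + m * g + g) ≠ f (j + m * g)} : Finset (ZMod p)) := by
      intro j hj
      rw [mem_filter] at hj
      rw [mem_union, mem_filter, mem_filter]
      by_cases h : f (j + m * g) = f j
      · right
        refine ⟨mem_univ _, ?_⟩
        rw [h]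
        have e : j + (m : ZMod p) * g + g = j + ((m + 1 : ℕ) : ZMod p) * g := by
          push_cast
          ring
        rw [e]
        exact hj.2
      · left
        exact ⟨mem_univ _, h⟩
    calc #{j : ZMod p | f (j + (m + 1 : ℕ) * g) ≠ f j}
        ≤ #{j : ZMod p | f (j + m * g) ≠ f j} +
            #{j : ZMod p | f (j + m * g + g) ≠ f (j + m * g)} :=
          (Finset.card_le_card hsub).trans (Finset.card_union_le _ _)
      _ ≤ m * #{j : ZMod p | f (j + g) ≠ f j} + #{j : ZMod p | f (j + g) ≠ f j} :=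
          add_le_add ih (le_of_eq (cohen_translate f g _))
      _ = (m + 1) * #{j : ZMod p | f (j + g) ≠ f j} := by ring

/-- averaging over all shifts -/
theorem cohen_average {p : ℕ} [NeZero p] (f : ZMod p → ℂ) (r : ℝ)
    (h : ∀ h' : ZMod p, (#{j : ZMod p | f (j + h') ≠ f j} : ℝ) ≤ r) :
    ∃ t : ZMod p, (#{j : ZMod p | f j ≠ f t} : ℝ) ≤ r := by
  have hswap : ∑ h' : ZMod p, #{j : ZMod p | f (j + h') ≠ f j} =
      ∑ t : ZMod p, #{j : ZMod p | f j ≠ f t} := by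
    have h1 : ∑ h' : ZMod p, #{j : ZMod p | f (j + h') ≠ f j} =
        ∑ j : ZMod p, #{h' : ZMod p | f (j + h') ≠ f j} := by
      simp only [Finset.card_filter]
      exact Finset.sum_comm
    rw [h1]
    refine Finset.sum_congr rfl fun t _ => ?_
    refine Finset.card_bij (fun j _ => t + j) ?_ ?_ ?_
    · intro j hj
      rw [mem_filter] at hj ⊢
      exact ⟨mem_univ _, hj.2⟩
    · intro a _ b _ hab
      exact add_left_cancel hab
    · intro b hb
      rw [mem_filter] at hb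
      refine ⟨b - t, ?_, by ring⟩
      rw [mem_filter]
      refine ⟨mem_univ _, ?_⟩
      rw [add_sub_cancel]
      exact hb.2
  have hsum : ∑ t : ZMod p, (#{j : ZMod p | f j ≠ f t} : ℝ) ≤ ∑ _t : ZMod p, r := by
    calc ∑ t : ZMod p, (#{j : ZMod p | f j ≠ f t} : ℝ)
        = ∑ h' : ZMod p, (#{j : ZMod p | f (j + h') ≠ f j} : ℝ) := by
          exact_mod_cast hswap.symm
      _ ≤ ∑ _t : ZMod p, r := Finset.sum_le_sum fun h' _ => h h'
  obtain ⟨t, _, ht⟩ := Finset.exists_le_of_sum_le ⟨0, mem_univ _⟩ hsum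
  exact ⟨t, ht⟩

theorem cohen (M1 d0 rho : ℝ) (hM : 0 < M1) (hd : 0 < d0) (hr : 0 < rho) : ∃ P0 : ℕ,
    ∀ (p : ℕ) [Fact p.Prime], P0 ≤ p → ∀ (ψ : AddChar (ZMod p) ℂ), ψ.IsPrimitive →
      ∀ w : ZMod p → ℝ, (∀ a, 0 ≤ w a) → ∑ a, w a ≤ M1 →
      (∀ i j, FT ψ w i = FT ψ w j ∨ d0 ≤ ‖FT ψ w i - FT ψ w j‖) →
      ∃ t : ZMod p, (#{j : ZMod p | FT ψ w j ≠ FT ψ w t} : ℝ) ≤ rho * p := by
  obtain ⟨Kc, hKc⟩ : ∃ Kc : ℕ, Kc = ⌈16 * Real.pi * M1 / d0⌉₊ + 1 := ⟨_, rfl⟩
  have hKc0 : 0 < Kc := by omega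
  have hKc1 : 16 * Real.pi * M1 / d0 ≤ Kc := by
    refine (Nat.le_ceil _).trans ?_
    rw [hKc]
    push_cast
    linarith
  obtain ⟨η0, hη0, hscale⟩ := scale M1 (d0 / 8) hM (by positivity)
    (fun η => rho * d0 ^ 2 / (128 * M1 * ((Kc ^ ⌈M1 / η⌉₊).factorial : ℝ)))
    (fun η _ => by positivity)
  refine ⟨Kc ^ ⌈M1 / η0⌉₊ + 1, ?_⟩
  intro p hp hP0 ψ hψ w hw hwM hsep
  obtain ⟨η, η', h1, h2, h3, h4, h5⟩ := hscale w hw hwM
  have hη'0 : 0 < η' := lt_of_lt_of_le hη0 h1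
  have hη00 : 0 < η := lt_of_lt_of_le hη'0 h2
  have hp0 : (0 : ℝ) < p := by exact_mod_cast hp.out.pos
  obtain ⟨N, hN⟩ : ∃ N : ℕ, N = Kc ^ ⌈M1 / η⌉₊ := ⟨_, rfl⟩
  have hNp : N < p := by
    have h6 : M1 / η ≤ M1 / η0 := div_le_div_of_nonneg_left hM.le hη0 (h1.trans h2)
    have h7 : ⌈M1 / η⌉₊ ≤ ⌈M1 / η0⌉₊ := Nat.ceil_le_ceil h6
    have h8 : Kc ^ ⌈M1 / η⌉₊ ≤ Kc ^ ⌈M1 / η0⌉₊ := Nat.pow_le_pow_right hKc0 h7
    omega
  simp only [← hN] at h4
  have hQ0 : (0 : ℝ) < (N.factorial : ℝ) := by exact_mod_cast Nat.factorial_pos N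
  have hstep : ∀ h : ZMod p,
      (#{j : ZMod p | FT ψ w (j + (N.factorial : ZMod p) * h) ≠ FT ψ w j} : ℝ) ≤ rho * p := by
    intro h
    obtain ⟨n, hn1, hn2, hn3⟩ := shift_step hψ w hw M1 d0 hM hd hwM hsep η η' hη'0 h2 h5 Kc hKc1
      hKc0 h
    rw [← hN] at hn2
    obtain ⟨m, hm⟩ : n ∣ N.factorial := Nat.dvd_factorial (by omega) hn2
    have hmQ : m ≤ N.factorial := by
      rw [hm]
      exact Nat.le_mul_of_pos_left m (by omega)
    have hu := cohen_union (FT ψ w) ((n : ZMod p) * h) m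
    have e : (m : ZMod p) * ((n : ZMod p) * h) = (N.factorial : ZMod p) * h := by
      rw [hm]
      push_cast
      ring
    rw [e] at hu
    have hu2 : (#{j : ZMod p | FT ψ w (j + (N.factorial : ZMod p) * h) ≠ FT ψ w j} : ℝ) ≤
        (m : ℝ) * #{j : ZMod p | FT ψ w (j + n * h) ≠ FT ψ w j} := by
      exact_mod_cast hu
    calc (#{j : ZMod p | FT ψ w (j + (N.factorial : ZMod p) * h) ≠ FT ψ w j} : ℝ)
        ≤ (m : ℝ) * #{j : ZMod p | FT ψ w (j + n * h) ≠ FT ψ w j} := hu2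
      _ ≤ (N.factorial : ℝ) * (128 * M1 / d0 ^ 2 * η' * p) := by
          refine mul_le_mul (by exact_mod_cast hmQ) hn3 (by positivity) (by positivity)
      _ ≤ (N.factorial : ℝ) * (128 * M1 / d0 ^ 2 *
            (rho * d0 ^ 2 / (128 * M1 * (N.factorial : ℝ))) * p) := by
          refine mul_le_mul_of_nonneg_left ?_ hQ0.le
          refine mul_le_mul_of_nonneg_right ?_ hp0.le
          exact mul_le_mul_of_nonneg_left h4 (by positivity)
      _ = rho * p := by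
          field_simp
  refine cohen_average (FT ψ w) (rho * p) fun h' => ?_
  have hQne : (N.factorial : ZMod p) ≠ 0 := by
    intro h0
    rw [ZMod.natCast_eq_zero_iff] at h0
    have := (hp.out.dvd_factorial).mp h0
    omega
  have e : (N.factorial : ZMod p) * ((N.factorial : ZMod p)⁻¹ * h') = h' := by
    rw [← mul_assoc, mul_inv_cancel₀ hQne, one_mul]
  have := hstep ((N.factorial : ZMod p)⁻¹ * h')
  rw [e] at this
  exact this

end Pool.Agent.CYC
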