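import Mathlib
import Pool.Agent.Lib.MP_8ca0c8_nt_CYC.Defs

/-! Project CYC (MP_8ca0c8_nt), module EMB: embeddings, mean trace, norm. -/

namespace Pool.Agent.CYC

open Finset

theorem emb_minpoly {L : IntermediateField ℚ ℂ} (x : L) : minpoly ℚ (x : ℂ) = minpoly ℚ x :=
  minpoly.algebraMap_eq (algebraMap L ℂ).injective x

theorem sum_emb (L : IntermediateField ℚ ℂ) [FiniteDimensional ℚ L] (x : L) :
    ∑ φ : L →ₐ[ℚ] ℂ, φ x =
      (Fintype.card (L →ₐ[ℚ] ℂ) : ℂ) * STP.meanTrace (x : ℂ) := by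
  have h1 := trace_eq_sum_embeddings (K := ℚ) (L := L) ℂ (x := x)
  have h2 := trace_eq_sum_roots (K := ℚ) (L := L) (F := ℂ) (x := x) (IsAlgClosed.splits _)
  have hint : IsIntegral ℚ x := Algebra.IsIntegral.isIntegral x
  have h3 : Module.finrank ℚ L =
      (minpoly ℚ x).natDegree * Module.finrank (IntermediateField.adjoin ℚ {x}) L := by
    rw [← IntermediateField.adjoin.finrank hint, Module.finrank_mul_finrank]
  have h4 : ((minpoly ℚ x).natDegree : ℂ) ≠ 0 := by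
    exact_mod_cast (minpoly.natDegree_pos hint).ne'
  rw [← h1, h2, AlgHom.card ℚ L ℂ, h3, STP.meanTrace, emb_minpoly, nsmul_eq_mul, Nat.cast_mul]
  field_simp

theorem pos_emb {L : IntermediateField ℚ ℂ} {x : L} (h : STP.IsTotallyPositive (x : ℂ))
    (φ : L →ₐ[ℚ] ℂ) : ∃ r : ℝ, 0 < r ∧ φ x = r := by
  refine h.2 (φ x) ?_
  have hint : IsIntegral ℚ (x : ℂ) := h.1.tower_top
  rw [Polynomial.mem_aroots]
  refine ⟨minpoly.ne_zero hint, ?_⟩
  rw [emb_minpoly, Polynomial.aeval_algHom_apply, minpoly.aeval, map_zero]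

theorem log_norm_nonneg (L : IntermediateField ℚ ℂ) [FiniteDimensional ℚ L] (x : L)
    (hx : IsIntegral ℤ (x : ℂ)) (h0 : x ≠ 0) : 0 ≤ ∑ φ : L →ₐ[ℚ] ℂ, Real.log ‖φ x‖ := by
  have hxL : IsIntegral ℤ x := by
    have := (isIntegral_algebraMap_iff (A := L) (B := ℂ) (R := ℤ) (x := x)
      (algebraMap L ℂ).injective).1 hx
    exact this
  have hne : ∀ φ ∈ (Finset.univ : Finset (L →ₐ[ℚ] ℂ)), ‖φ x‖ ≠ 0 := fun φ _ => by
    rw [norm_ne_zero_iff]
    exact fun h => h0 ((map_eq_zero φ).1 h)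
  rw [← Real.log_prod hne, ← Complex.norm_prod, ← Algebra.norm_eq_prod_embeddings ℚ ℂ x]
  refine Real.log_nonneg ?_
  have h1 : IsIntegral ℤ (Algebra.norm ℚ x) := Algebra.isIntegral_norm ℚ hxL
  obtain ⟨k, hk⟩ := IsIntegrallyClosed.isIntegral_iff.1 h1
  have h2 : Algebra.norm ℚ x ≠ 0 := Algebra.norm_ne_zero_iff.2 h0
  rw [← hk] at h2 ⊢
  have h3 : k ≠ 0 := fun h => h2 (by rw [h, map_zero])
  have h4 : (1 : ℝ) ≤ |(k : ℝ)| := by exact_mod_cast Int.one_le_abs h3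
  simpa using h4

end Pool.Agent.CYC
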