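import Mathlib
import Pool.Agent.Lib.MP_8ca0c8_nt_CYC.Emb

/-! Project CYC (MP_8ca0c8_nt), module COS: 2 + 2 cos(2 pi / p). -/

namespace Pool.Agent.CYC

open Finset

namespace Cos

/-- the trace of a primitive `p`-th root of unity -/
theorem trace_gen {p : ℕ} (hp : p.Prime) (h3 : 3 ≤ p) {ζ : ℂ} (hz : IsPrimitiveRoot ζ p) :
    Algebra.trace ℚ (IntermediateField.adjoin ℚ {ζ}) (IntermediateField.AdjoinSimple.gen ℚ ζ) =
      -1 := by
  have hint : IsIntegral ℚ ζ := (hz.isIntegral hp.pos).tower_top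
  have h1 := PowerBasis.trace_gen_eq_nextCoeff_minpoly (IntermediateField.adjoin.powerBasis hint)
  rw [IntermediateField.adjoin.powerBasis_gen] at h1
  refine Eq.trans h1 ?_
  rw [IntermediateField.minpoly_gen, ← Polynomial.cyclotomic_eq_minpoly_rat hz hp.pos]
  have h2 : (Polynomial.cyclotomic p ℚ).natDegree = p - 1 := by
    rw [Polynomial.natDegree_cyclotomic, Nat.totient_prime hp]
  have : Fact p.Prime := ⟨hp⟩
  rw [Polynomial.nextCoeff_of_natDegree_pos (by omega), h2, Polynomial.cyclotomic_prime,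
    Polynomial.finsetSum_coeff]
  simp only [Polynomial.coeff_X_pow]
  rw [Finset.sum_ite_eq]
  rw [if_pos (Finset.mem_range.2 (by omega))]

theorem finrank_adj {p : ℕ} (hp : p.Prime) {ζ : ℂ} (hz : IsPrimitiveRoot ζ p) :
    Module.finrank ℚ (IntermediateField.adjoin ℚ {ζ}) = p - 1 := by
  have hint : IsIntegral ℚ ζ := (hz.isIntegral hp.pos).tower_top
  rw [IntermediateField.adjoin.finrank hint, ← Polynomial.cyclotomic_eq_minpoly_rat hz hp.pos,
    Polynomial.natDegree_cyclotomic, Nat.totient_prime hp]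

/-- `2 + y + 1/y` is a positive real number -/
theorem pos_val {p : ℕ} (hp : p.Prime) (h3 : 3 ≤ p) {y : ℂ} (hy : IsPrimitiveRoot y p) :
    ∃ r : ℝ, 0 < r ∧ 2 + y + y⁻¹ = r := by
  have hn : ‖y‖ = 1 := Complex.norm_eq_one_of_pow_eq_one hy.pow_eq_one hp.ne_zero
  have hsq : y.re ^ 2 + y.im ^ 2 = 1 := by
    have h1 := Complex.sq_norm y
    rw [hn, Complex.normSq_apply] at h1
    nlinarith
  refine ⟨2 + 2 * y.re, ?_, ?_⟩
  · have h1 : -1 ≤ y.re := by nlinarith [sq_nonneg y.im]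
    rcases lt_or_eq_of_le h1 with h | h
    · linarith
    · exfalso
      have h2 : y.im = 0 := by
        rw [← h] at hsq
        nlinarith
      have h4 : y = -1 := Complex.ext (by simp [← h]) (by simp [h2])
      have h5 := hy.pow_eq_one
      rw [h4, (hp.odd_of_ne_two (by omega)).neg_one_pow] at h5
      norm_num at h5
  · rw [Complex.inv_eq_conj hn, add_assoc, Complex.add_conj]
    push_cast
    ring

end Cos

open Cos in
theorem cos_mem (p : ℕ) (hp : p.Prime) (h3 : 3 ≤ p) :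
    (2 - 2 / ((p : ℝ) - 1)) ∈ cycTraceSet := by
  have hz : IsPrimitiveRoot (zt p) p := zt_pow p hp.ne_zero
  obtain ⟨ζ, hζ⟩ : ∃ ζ, ζ = zt p := ⟨_, rfl⟩
  rw [← hζ] at hz
  have hint : IsIntegral ℤ ζ := hz.isIntegral hp.pos
  have hne : ζ ≠ 0 := hz.ne_zero hp.ne_zero
  have hinv : ζ⁻¹ = ζ ^ (p - 1) := by
    refine (eq_inv_of_mul_eq_one_left ?_).symm
    rw [← pow_succ, Nat.sub_add_cancel hp.one_le, hz.pow_eq_one]
  have : FiniteDimensional ℚ (IntermediateField.adjoin ℚ {ζ}) :=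
    IntermediateField.adjoin.finiteDimensional hint.tower_top
  obtain ⟨g, hg⟩ : ∃ g : IntermediateField.adjoin ℚ {ζ},
      g = IntermediateField.AdjoinSimple.gen ℚ ζ := ⟨_, rfl⟩
  have hgc : (g : ℂ) = ζ := by rw [hg]; rfl
  have hgp : IsPrimitiveRoot g p := by
    refine IsPrimitiveRoot.of_map_of_injective
      (f := (IntermediateField.adjoin ℚ {ζ}).val) ?_ (RingHom.injective _)
    show IsPrimitiveRoot (g : ℂ) p
    rw [hgc]
    exact hz
  obtain ⟨x, hx⟩ : ∃ x : IntermediateField.adjoin ℚ {ζ}, x = 2 + g + g⁻¹ := ⟨_, rfl⟩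
  have hxc : (x : ℂ) = 2 + ζ + ζ⁻¹ := by
    have h4 : (x : ℂ) = 2 + (g : ℂ) + (g : ℂ)⁻¹ := by
      rw [hx]
      push_cast
      rfl
    rw [h4, hgc]
  have hxint : IsIntegral ℤ (x : ℂ) := by
    rw [hxc, hinv]
    exact ((isIntegral_algebraMap (x := (2 : ℤ))).add hint).add (hint.pow _)
  have hφy : ∀ φ : (IntermediateField.adjoin ℚ {ζ}) →ₐ[ℚ] ℂ, IsPrimitiveRoot (φ g) p :=
    fun φ => hgp.map_of_injective (RingHom.injective φ.toRingHom)
  have hφx : ∀ φ : (IntermediateField.adjoin ℚ {ζ}) →ₐ[ℚ] ℂ,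
      φ x = 2 + φ g + (φ g)⁻¹ := by
    intro φ
    rw [hx, map_add, map_add, map_inv₀, map_ofNat]
  refine ⟨(x : ℂ), ⟨hxint, ζ, ⟨p, hp.pos, hz.pow_eq_one⟩, x.2⟩, ⟨hxint, ?_⟩, ?_⟩
  · intro w hw
    have h4 : w ∈ (minpoly ℚ x).rootSet ℂ := by
      have h5 : minpoly ℚ x = minpoly ℚ (x : ℂ) :=
        (minpoly.algebraMap_eq (B := IntermediateField.adjoin ℚ {ζ}) (B' := ℂ)
          (algebraMap (IntermediateField.adjoin ℚ {ζ}) ℂ).injective x).symm
      rw [h5, Polynomial.mem_rootSet']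
      exact (Polynomial.mem_aroots').1 hw
    rw [← Algebra.IsAlgebraic.range_eval_eq_rootSet_minpoly (F := ℚ)
      (K := IntermediateField.adjoin ℚ {ζ}) ℂ x] at h4
    obtain ⟨φ, rfl⟩ := h4
    obtain ⟨r, hr, h6⟩ := pos_val hp h3 (hφy φ)
    exact ⟨r, hr, (hφx φ).trans h6⟩
  · have h4 := sum_emb (IntermediateField.adjoin ℚ {ζ}) x
    have hcard : Fintype.card ((IntermediateField.adjoin ℚ {ζ}) →ₐ[ℚ] ℂ) = p - 1 := by
      rw [AlgHom.card]
      exact finrank_adj hp hz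
    have hs1 : ∑ φ : (IntermediateField.adjoin ℚ {ζ}) →ₐ[ℚ] ℂ, φ g = -1 := by
      have h5 := trace_eq_sum_embeddings (K := ℚ) (L := IntermediateField.adjoin ℚ {ζ}) ℂ
        (x := g)
      rw [← h5]
      have h6 : Algebra.trace ℚ (IntermediateField.adjoin ℚ {ζ}) g = -1 := by
        rw [hg]
        exact trace_gen hp h3 hz
      rw [h6]
      simp
    have hs2 : ∑ φ : (IntermediateField.adjoin ℚ {ζ}) →ₐ[ℚ] ℂ, (φ g)⁻¹ = -1 := by
      have h5 : ∀ φ : (IntermediateField.adjoin ℚ {ζ}) →ₐ[ℚ] ℂ,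
          (φ g)⁻¹ = (starRingEnd ℂ) (φ g) := fun φ =>
        Complex.inv_eq_conj (Complex.norm_eq_one_of_pow_eq_one (hφy φ).pow_eq_one hp.ne_zero)
      rw [Finset.sum_congr rfl fun φ _ => h5 φ, ← map_sum, hs1]
      simp
    have h7 : ∑ φ : (IntermediateField.adjoin ℚ {ζ}) →ₐ[ℚ] ℂ, φ x =
        2 * ((p - 1 : ℕ) : ℂ) - 2 := by
      rw [Finset.sum_congr rfl fun φ _ => hφx φ, Finset.sum_add_distrib,
        Finset.sum_add_distrib, hs1, hs2, Finset.sum_const, Finset.card_univ, hcard]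
      simp only [nsmul_eq_mul]
      ring
    rw [h7, hcard] at h4
    have h8 : ((p - 1 : ℕ) : ℂ) = (p : ℂ) - 1 := by
      rw [Nat.cast_sub hp.one_le, Nat.cast_one]
    have h9 : (p : ℂ) - 1 ≠ 0 := by
      rw [← h8]
      exact_mod_cast (by omega : p - 1 ≠ 0)
    rw [h8] at h4
    have h10 : STP.meanTrace (x : ℂ) = (2 * ((p : ℂ) - 1) - 2) / ((p : ℂ) - 1) := by
      rw [h4]
      field_simp
    rw [h10]
    push_cast
    field_simp

end Pool.Agent.CYC
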