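import Mathlib
import Pool.Agent.Lib.MP_8ca0c8_nt_CYC.Defs

/-! Project CYC (MP_8ca0c8_nt), module CYCI: cyclotomic integers. -/

namespace Pool.Agent.CYC

open Finset

theorem cyclotomicInteger_mem {α : ℂ} (h : IsCyclotomicInteger α) : α ∈ Rinf ⊥ := by
  obtain ⟨hint, z, ⟨n, hn, hz⟩, hmem⟩ := h
  have hfin : IsOfFinOrder z := isOfFinOrder_iff_pow_eq_one.2 ⟨n, hn, hz⟩
  have hd : 0 < orderOf z := hfin.orderOf_pos
  have : NeZero (orderOf z) := ⟨hd.ne'⟩
  have hζ : IsPrimitiveRoot z (orderOf z) := IsPrimitiveRoot.orderOf z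
  have halg : IsAlgebraic ℚ z := (hζ.isIntegral hd).tower_top.isAlgebraic
  have hcyc : IsCyclotomicExtension {orderOf z} ℚ (IntermediateField.adjoin ℚ {z}) := by
    change IsCyclotomicExtension {orderOf z} ℚ (IntermediateField.adjoin ℚ {z}).toSubalgebra
    rw [IntermediateField.adjoin_simple_toSubalgebra_of_isAlgebraic halg]
    exact hζ.adjoin_isCyclotomicExtension ℚ
  have hζL : IsPrimitiveRoot (IntermediateField.AdjoinSimple.gen ℚ z) (orderOf z) :=
    IsPrimitiveRoot.coe_submonoidClass_iff.mp hζ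
  have hcl := IsCyclotomicExtension.Rat.isIntegralClosure_adjoin_singleton hζL
  have hint' : IsIntegral ℤ (⟨α, hmem⟩ : IntermediateField.adjoin ℚ {z}) :=
    (isIntegral_algebraMap_iff (algebraMap (IntermediateField.adjoin ℚ {z}) ℂ).injective).1 hint
  obtain ⟨y, hy⟩ := hcl.isIntegral_iff.1 hint'
  have key : ∀ x ∈ Algebra.adjoin ℤ {IntermediateField.AdjoinSimple.gen ℚ z},
      ((x : IntermediateField.adjoin ℚ {z}) : ℂ) ∈ Rinf ⊥ := by
    intro x hx
    induction hx using Algebra.adjoin_induction with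
    | mem x hx =>
      rw [Set.mem_singleton_iff] at hx
      rw [hx]
      exact Subring.subset_closure (Or.inr ⟨n, hn, by
        rw [IntermediateField.AdjoinSimple.coe_gen]; exact hz⟩)
    | algebraMap r =>
      have : ((algebraMap ℤ (IntermediateField.adjoin ℚ {z}) r :
          IntermediateField.adjoin ℚ {z}) : ℂ) = (r : ℂ) := by simp
      rw [this]
      exact intCast_mem (Rinf ⊥) r
    | add x y _ _ hx hy =>
      rw [IntermediateField.coe_add]
      exact Subring.add_mem _ hx hy
    | mul x y _ _ hx hy =>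
      rw [IntermediateField.coe_mul]
      exact Subring.mul_mem _ hx hy
  have h1 := key _ y.2
  have h2 : ((y : IntermediateField.adjoin ℚ {z}) : ℂ) = α := by
    have := congrArg (fun t : IntermediateField.adjoin ℚ {z} => (t : ℂ)) hy
    exact this
  rwa [h2] at h1

end Pool.Agent.CYC
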