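import Mathlib
import Pool.Agent.Lib.MP_8ca0c8_nt_CYC.Defs

/-!
# Project CYC (MP_8ca0c8_nt): the rings `O_K[ζ_n]`, basic facts.
-/

namespace Pool.Agent.CYC

theorem zt_mul_pow (m q : ℕ) (hm : 0 < m) (hq : 0 < q) : zt (m * q) ^ m = zt q := by
  unfold zt
  rw [← Complex.exp_nat_mul]
  congr 1
  have h1 : (m : ℂ) ≠ 0 := by exact_mod_cast hm.ne'
  have h2 : (q : ℂ) ≠ 0 := by exact_mod_cast hq.ne'
  push_cast
  field_simp

theorem rnB_zt_mem (K : IntermediateField ℚ ℂ) (n : ℕ) : zt n ∈ Rn K n :=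
  Subring.subset_closure (Or.inr rfl)

theorem rnB_int_mem (K : IntermediateField ℚ ℂ) (n : ℕ) {x : ℂ} (hx : x ∈ K)
    (hi : IsIntegral ℤ x) : x ∈ Rn K n :=
  Subring.subset_closure (Or.inl ⟨hx, hi⟩)

theorem rn_mono (K : IntermediateField ℚ ℂ) {m n : ℕ} (hn : 0 < n) (h : m ∣ n) :
    Rn K m ≤ Rn K n := by
  obtain ⟨q, rfl⟩ := h
  have hm : 0 < m := Nat.pos_of_ne_zero (fun h => by simp [h] at hn)
  have hq : 0 < q := Nat.pos_of_ne_zero (fun h => by simp [h] at hn)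
  refine Subring.closure_le.mpr ?_
  rintro x (⟨hx, hi⟩ | hx)
  · exact rnB_int_mem K _ hx hi
  · have hx' : x = zt m := hx
    rw [hx', ← zt_mul_pow q m hq hm, mul_comm q m]
    exact (Rn K (m * q)).pow_mem (rnB_zt_mem K _) q

theorem rnB_zt_integral {n : ℕ} (hn : 0 < n) : IsIntegral ℤ (zt n) :=
  (zt_pow n hn.ne').isIntegral hn

theorem rn_sub (K : IntermediateField ℚ ℂ) {n : ℕ} (hn : 0 < n) {x : ℂ} (hx : x ∈ Rn K n) :
    x ∈ Ln K n ∧ IsIntegral ℤ x := by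
  constructor
  · have h : Rn K n ≤ (Ln K n).toSubfield.toSubring := by
      refine Subring.closure_le.mpr ?_
      rintro y (⟨hy, _⟩ | hy)
      · exact (le_sup_left : K ≤ Ln K n) hy
      · have hy' : y = zt n := hy
        rw [hy']
        exact zt_mem K n
    exact h hx
  · have h : Rn K n ≤ (integralClosure ℤ ℂ).toSubring := by
      refine Subring.closure_le.mpr ?_
      rintro y (⟨_, hy⟩ | hy)
      · exact hy
      · have hy' : y = zt n := hy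
        rw [hy']
        exact rnB_zt_integral hn
    exact h hx

theorem rnB_root_mem (K : IntermediateField ℚ ℂ) {k : ℕ} (hk : 0 < k) {z : ℂ} (hz : z ^ k = 1) :
    z ∈ Rn K k := by
  have : NeZero k := ⟨hk.ne'⟩
  obtain ⟨i, _, hi⟩ := (zt_pow k hk.ne').eq_pow_of_pow_eq_one hz
  rw [← hi]
  exact (Rn K k).pow_mem (rnB_zt_mem K k) i

theorem exists_level (K : IntermediateField ℚ ℂ) {f : ℕ} (hf : 0 < f) {x : ℂ}
    (hx : x ∈ Rinf K) : ∃ n : ℕ, 0 < n ∧ f ∣ n ∧ x ∈ Rn K n := by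
  unfold Rinf at hx
  induction hx using Subring.closure_induction with
  | mem x hx =>
    rcases hx with ⟨hx, hi⟩ | ⟨k, hk, hz⟩
    · exact ⟨f, hf, dvd_rfl, rnB_int_mem K f hx hi⟩
    · exact ⟨k * f, Nat.mul_pos hk hf, dvd_mul_left f k,
        rn_mono K (Nat.mul_pos hk hf) (dvd_mul_right k f) (rnB_root_mem K hk hz)⟩
  | zero => exact ⟨f, hf, dvd_rfl, (Rn K f).zero_mem⟩
  | one => exact ⟨f, hf, dvd_rfl, (Rn K f).one_mem⟩
  | add x y _ _ h1 h2 =>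
    obtain ⟨n1, hn1, hf1, hx1⟩ := h1
    obtain ⟨n2, hn2, hf2, hx2⟩ := h2
    have hp : 0 < n1 * n2 := Nat.mul_pos hn1 hn2
    exact ⟨n1 * n2, hp, hf1.mul_right n2, (Rn K (n1 * n2)).add_mem
      (rn_mono K hp (dvd_mul_right n1 n2) hx1) (rn_mono K hp (dvd_mul_left n2 n1) hx2)⟩
  | neg x _ h1 =>
    obtain ⟨n1, hn1, hf1, hx1⟩ := h1
    exact ⟨n1, hn1, hf1, (Rn K n1).neg_mem hx1⟩
  | mul x y _ _ h1 h2 =>
    obtain ⟨n1, hn1, hf1, hx1⟩ := h1
    obtain ⟨n2, hn2, hf2, hx2⟩ := h2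
    have hp : 0 < n1 * n2 := Nat.mul_pos hn1 hn2
    exact ⟨n1 * n2, hp, hf1.mul_right n2, (Rn K (n1 * n2)).mul_mem
      (rn_mono K hp (dvd_mul_right n1 n2) hx1) (rn_mono K hp (dvd_mul_left n2 n1) hx2)⟩

end Pool.Agent.CYC
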