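import Mathlib
import Pool.Agent.Lib.MP_8ca0c8_nt_CYC.RnBasic

/-! Project CYC (MP_8ca0c8_nt), module RNE: expansion in powers of zeta_n. -/

namespace Pool.Agent.CYC

open Finset

/-- the algebraic integers of `K` -/
noncomputable def rnE_O (K : IntermediateField ℚ ℂ) : Subring ℂ :=
  K.toSubfield.toSubring ⊓ (integralClosure ℤ ℂ).toSubring

theorem rnE_mem (K : IntermediateField ℚ ℂ) (x : ℂ) :
    x ∈ rnE_O K ↔ x ∈ K ∧ IsIntegral ℤ x := Iff.rfl

/-- evaluation at `ζ_n` -/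
noncomputable def rnE_ev (K : IntermediateField ℚ ℂ) (n : ℕ) :
    Polynomial (rnE_O K) →+* ℂ := Polynomial.eval₂RingHom (rnE_O K).subtype (zt n)

theorem rnE_le (K : IntermediateField ℚ ℂ) (n : ℕ) : Rn K n ≤ (rnE_ev K n).range := by
  refine Subring.closure_le.mpr ?_
  rintro y (⟨hy, hi⟩ | hy)
  · refine ⟨Polynomial.C ⟨y, (rnE_mem K y).mpr ⟨hy, hi⟩⟩, ?_⟩
    simp [rnE_ev]
  · have hy' : y = zt n := hy
    refine ⟨Polynomial.X, ?_⟩
    simp [rnE_ev, hy']

theorem rn_expand (K : IntermediateField ℚ ℂ) {n : ℕ} (hn : 0 < n) {x : ℂ} (hx : x ∈ Rn K n) :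
    ∃ c : ℕ → ℂ, (∀ i, c i ∈ K ∧ IsIntegral ℤ (c i)) ∧ x = ∑ i ∈ range n, c i * zt n ^ i := by
  obtain ⟨P, hP⟩ := rnE_le K n hx
  have h1 : x = ∑ k ∈ range (P.natDegree + 1), (P.coeff k : ℂ) * zt n ^ k := by
    rw [← hP]
    unfold rnE_ev
    rw [Polynomial.coe_eval₂RingHom, Polynomial.eval₂_eq_sum_range]
    rfl
  refine ⟨fun i => ∑ k ∈ (range (P.natDegree + 1)).filter (fun k => k % n = i), (P.coeff k : ℂ),
    ?_, ?_⟩
  · intro i
    rw [← rnE_mem]
    apply Subring.sum_mem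
    intro k _
    exact (P.coeff k).2
  · rw [h1, ← Finset.sum_fiberwise_of_maps_to (s := range (P.natDegree + 1)) (t := range n)
      (g := fun k => k % n) (fun k _ => Finset.mem_range.mpr (Nat.mod_lt k hn))]
    apply Finset.sum_congr rfl
    intro i _
    rw [Finset.sum_mul]
    apply Finset.sum_congr rfl
    intro k hk
    rw [Finset.mem_filter] at hk
    rw [pow_eq_pow_mod k (zt_pow n hn.ne').pow_eq_one, hk.2]

end Pool.Agent.CYC
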