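import Mathlib
import Pool.Agent.Lib.MP_8ca0c8_nt_CYC.RnExpand

/-!
# Project CYC (MP_8ca0c8_nt), module DECA: decomposition, case A

For `m` and `p` coprime every element of `O_K[ζ_{mp}]` is `∑_j t_j ζ_p^j` with `t_j` in
`O_K[ζ_m]`, and the automorphisms of `K(ζ_{mp})` fixing `K` and `ζ_m` act by `ζ_p ↦ ζ_p^a`.
-/

namespace Pool.Agent.CYC

open Finset

private theorem decA_inv (m p : ℕ) [NeZero p] (h : m.Coprime p) : ∃ k : ℕ, m * k ≡ 1 [MOD p] := by
  refine ⟨((m : ZMod p)⁻¹).val, ?_⟩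
  rw [← ZMod.natCast_eq_natCast_iff]
  push_cast
  rw [ZMod.natCast_zmod_val, ZMod.coe_mul_inv_eq_one m h]

private theorem decA_pow_congr {z : ℂ} {n a b : ℕ} (hz : z ^ n = 1) (h : a ≡ b [MOD n]) :
    z ^ a = z ^ b := pow_eq_pow_of_modEq h hz

private theorem decA_zeta (m p m' p' : ℕ) (hm : 0 < m) (hp : 0 < p) (hmp : m.Coprime p)
    (h1 : m * m' ≡ 1 [MOD p]) (h2 : p * p' ≡ 1 [MOD m]) (a u : ℕ) (hua : u ≡ a [MOD p])
    (hu1 : u ≡ 1 [MOD m]) :
    zt (m * p) ^ u = zt p ^ (m' * a) * zt m ^ p' := by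
  have e : u ≡ m * (m' * a) + p * p' [MOD m * p] := by
    rw [← Nat.modEq_and_modEq_iff_modEq_mul hmp]
    constructor
    · have h3 : m * (m' * a) + p * p' ≡ 0 + 1 [MOD m] :=
        Nat.ModEq.add ((Nat.modEq_zero_iff_dvd).mpr (dvd_mul_right m _)) h2
      exact hu1.trans (by simpa using h3.symm)
    · have h3 : m * (m' * a) + p * p' ≡ 1 * a + 0 [MOD p] := by
        refine Nat.ModEq.add ?_ ((Nat.modEq_zero_iff_dvd).mpr (dvd_mul_right p _))
        rw [← mul_assoc]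
        exact h1.mul_right a
      exact hua.trans (by simpa using h3.symm)
  have hz : zt (m * p) ^ (m * p) = 1 := (zt_pow (m * p) (Nat.mul_pos hm hp).ne').pow_eq_one
  rw [decA_pow_congr hz e, pow_add, pow_mul (zt (m * p)) m, pow_mul (zt (m * p)) p,
    zt_mul_pow m p hm hp]
  congr 2
  rw [mul_comm m p]
  exact zt_mul_pow p m hp hm

theorem decompA (K : IntermediateField ℚ ℂ) (m p : ℕ) (hm : 0 < m) [NeZero p]
    (hmp : m.Coprime p) (α : ℂ) (hα : α ∈ Rn K (m * p)) :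
    ∃ t : ZMod p → ℂ, (∀ j, t j ∈ Rn K m) ∧
      (∀ (a u : ℕ) (σ : Ln K (m * p) ≃ₐ[ℚ] Ln K (m * p)), u ≡ a [MOD p] → u ≡ 1 [MOD m] →
        (∀ x : Ln K (m * p), (x : ℂ) ∈ K → σ x = x) →
        (∀ z : Ln K (m * p), (z : ℂ) = zt (m * p) →
          ((σ z : Ln K (m * p)) : ℂ) = zt (m * p) ^ u) →
        ∀ x : Ln K (m * p), (x : ℂ) = α →
          ((σ x : Ln K (m * p)) : ℂ) = ∑ j, t j * zt p ^ (a * j.val)) := by
  have hp : 0 < p := NeZero.pos p
  have : NeZero m := ⟨hm.ne'⟩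
  obtain ⟨m', h1⟩ := decA_inv m p hmp
  obtain ⟨p', h2⟩ := decA_inv p m hmp.symm
  obtain ⟨c, hc, hx⟩ := rn_expand K (Nat.mul_pos hm hp) hα
  classical
  refine ⟨fun j => ∑ i ∈ (range (m * p)).filter (fun i => ((m' * i : ℕ) : ZMod p) = j),
    c i * zt m ^ (p' * i), ?_, ?_⟩
  · intro j
    refine (Rn K m).sum_mem fun i _ => (Rn K m).mul_mem ?_ ((Rn K m).pow_mem ?_ _)
    · exact Subring.subset_closure (Or.inl (hc i))
    · exact Subring.subset_closure (Or.inr rfl)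
  · intro a u σ hua hu1 hK hz x hxα
    have hcL : ∀ i, c i ∈ Ln K (m * p) := fun i => (le_sup_left : K ≤ Ln K (m * p)) (hc i).1
    set z : Ln K (m * p) := ⟨zt (m * p), zt_mem K (m * p)⟩ with hzdef
    have hxs : x = ∑ i ∈ range (m * p), (⟨c i, hcL i⟩ : Ln K (m * p)) * z ^ i := by
      apply Subtype.ext
      rw [hxα, hx]
      push_cast
      rfl
    have hσ : ((σ x : Ln K (m * p)) : ℂ) =
        ∑ i ∈ range (m * p), c i * (zt (m * p) ^ u) ^ i := by
      rw [hxs, map_sum]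
      push_cast
      refine sum_congr rfl fun i _ => ?_
      rw [map_mul, map_pow, hK ⟨c i, hcL i⟩ (hc i).1]
      push_cast
      rw [hz z rfl]
    rw [hσ, decA_zeta m p m' p' hm hp hmp h1 h2 a u hua hu1,
      ← Finset.sum_fiberwise (range (m * p)) (fun i => ((m' * i : ℕ) : ZMod p))]
    refine sum_congr rfl fun j _ => ?_
    rw [sum_mul]
    refine sum_congr rfl fun i hi => ?_
    rw [mem_filter] at hi
    have hj : j.val ≡ m' * i [MOD p] := by
      rw [← ZMod.natCast_eq_natCast_iff, ZMod.natCast_zmod_val]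
      exact hi.2.symm
    have hzp : zt p ^ p = 1 := (zt_pow p hp.ne').pow_eq_one
    have h3 : zt p ^ (a * j.val) = zt p ^ (a * (m' * i)) :=
      decA_pow_congr hzp (hj.mul_left a)
    rw [h3, mul_pow, ← pow_mul, ← pow_mul]
    have h4 : m' * a * i = a * (m' * i) := by ring
    rw [h4]
    ring

end Pool.Agent.CYC
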