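import Mathlib
import Pool.Agent.Lib.MP_8ca0c8_nt_CYC.RnExpand

/-! Project CYC (MP_8ca0c8_nt), module DECB: decomposition, case B. -/

namespace Pool.Agent.CYC

open Finset

theorem decompB_zt_pow_one (q : ℕ) [NeZero q] : zt q ^ q = 1 :=
  (zt_pow q (NeZero.ne q)).pow_eq_one

theorem decompB_pow (q : ℕ) [NeZero q] (b i : ℕ) :
    zt q ^ (b * i) = zt q ^ (b * (i : ZMod q).val) := by
  rw [mul_comm b i, mul_comm b _, pow_mul, pow_mul, ZMod.val_natCast,
    pow_eq_pow_mod i (decompB_zt_pow_one q)]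

theorem decompB (K : IntermediateField ℚ ℂ) (m q : ℕ) (hm : 0 < m) [NeZero q] (α : ℂ)
    (hα : α ∈ Rn K (m * q)) :
    ∃ t : ZMod q → ℂ, (∀ j, t j ∈ Rn K (m * q)) ∧
      (∀ (b : ℕ) (σ : Ln K (m * q) ≃ₐ[ℚ] Ln K (m * q)),
        (∀ x : Ln K (m * q), (x : ℂ) ∈ K → σ x = x) →
        (∀ z : Ln K (m * q), (z : ℂ) = zt (m * q) →
          ((σ z : Ln K (m * q)) : ℂ) = zt (m * q) ^ (1 + m * b)) →
        ∀ a : Ln K (m * q), (a : ℂ) = α →
          ((σ a : Ln K (m * q)) : ℂ) = ∑ j, t j * zt q ^ (b * j.val)) ∧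
      (∀ p : ℕ, p.Prime → p ∣ q → (∀ j : ZMod q, ¬ p ∣ j.val → t j = 0) →
        α ∈ Rn K (m * q / p)) := by
  classical
  have hq : 0 < q := NeZero.pos q
  have hn : 0 < m * q := Nat.mul_pos hm hq
  obtain ⟨c, hc, hx⟩ := rn_expand K hn hα
  have hcR : ∀ n' i : ℕ, c i ∈ Rn K n' := fun n' i => Subring.subset_closure (Or.inl (hc i))
  have hzR : ∀ n' : ℕ, zt n' ∈ Rn K n' := fun n' => Subring.subset_closure (Or.inr rfl)
  have hsum : ∀ F : ℕ → ℂ, ∑ j : ZMod q, ∑ i ∈ (range (m * q)).filter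
      (fun i : ℕ => (i : ZMod q) = j), F i = ∑ i ∈ range (m * q), F i := fun F =>
    Finset.sum_fiberwise _ _ _
  refine ⟨fun j => ∑ i ∈ (range (m * q)).filter (fun i : ℕ => (i : ZMod q) = j),
    c i * zt (m * q) ^ i, fun j => ?_, fun b σ hK hz a ha => ?_, fun p hp hpq h => ?_⟩
  · refine Subring.sum_mem _ fun i _ => ?_
    exact Subring.mul_mem _ (hcR _ i) (Subring.pow_mem _ (hzR _) i)
  · let c' : ℕ → Ln K (m * q) := fun i => ⟨c i, (le_sup_left : K ≤ Ln K (m * q)) (hc i).1⟩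
    let z : Ln K (m * q) := ⟨zt (m * q), zt_mem K (m * q)⟩
    have h1 : a = ∑ i ∈ range (m * q), c' i * z ^ i := by
      apply Subtype.ext
      rw [ha, hx]
      push_cast
      rfl
    have h2 : ((σ a : Ln K (m * q)) : ℂ) =
        ∑ i ∈ range (m * q), c i * (zt (m * q) ^ i * zt q ^ (b * i)) := by
      rw [h1, map_sum]
      push_cast
      refine Finset.sum_congr rfl fun i _ => ?_
      rw [map_mul, map_pow, hK (c' i) (hc i).1]
      push_cast
      rw [hz z rfl, ← pow_mul, add_mul, one_mul, pow_add, mul_assoc m b i, pow_mul,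
        zt_mul_pow m q hm hq]
    rw [h2, ← hsum]
    refine Finset.sum_congr rfl fun j _ => ?_
    rw [Finset.sum_mul]
    refine Finset.sum_congr rfl fun i hi => ?_
    rw [decompB_pow q b i, (Finset.mem_filter.mp hi).2]
    ring
  · have hpn : p ∣ m * q := hpq.mul_left m
    have hnp : 0 < m * q / p := Nat.div_pos (Nat.le_of_dvd hn hpn) hp.pos
    have hzp : zt (m * q) ^ p = zt (m * q / p) := by
      have := zt_mul_pow p (m * q / p) hp.pos hnp
      rwa [Nat.mul_div_cancel' hpn] at this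
    rw [hx, ← hsum]
    refine Subring.sum_mem _ fun j _ => ?_
    by_cases hj : p ∣ j.val
    · refine Subring.sum_mem _ fun i hi => ?_
      have hij := (Finset.mem_filter.mp hi).2
      have hpi : p ∣ i := by
        rw [← hij, ZMod.val_natCast] at hj
        exact (Nat.dvd_mod_iff hpq).mp hj
      obtain ⟨k, rfl⟩ := hpi
      rw [pow_mul, hzp]
      exact Subring.mul_mem _ (hcR _ _) (Subring.pow_mem _ (hzR _) k)
    · have := h j hj
      simp only at this
      rw [this]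
      exact Subring.zero_mem _

end Pool.Agent.CYC
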