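import Mathlib
import Pool.Agent.Lib.MP_8ca0c8_nt_CYC.Emb

/-! Project CYC (MP_8ca0c8_nt), module FAMMK: the family of weights of a set of automorphisms. -/

namespace Pool.Agent.CYC

open Finset

/-- reindexing of a sum over the embeddings by an automorphism -/
theorem fammk_sum_comp {M : Type} [AddCommMonoid M] (L : IntermediateField ℚ ℂ)
    [FiniteDimensional ℚ L] (τ : L ≃ₐ[ℚ] L) (g : ℂ → M) (x : L) :
    ∑ φ : L →ₐ[ℚ] ℂ, g (φ (τ x)) = ∑ φ : L →ₐ[ℚ] ℂ, g (φ x) := by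
  refine Fintype.sum_bijective (fun φ : L →ₐ[ℚ] ℂ => φ.comp (τ : L →ₐ[ℚ] L)) ?_ _ _ ?_
  · refine Function.bijective_iff_has_inverse.mpr
      ⟨fun φ => φ.comp (τ.symm : L →ₐ[ℚ] L), fun φ => ?_, fun φ => ?_⟩
    · ext y
      simp
    · ext y
      simp
  · intro φ
    simp

theorem fammk_pos {L : IntermediateField ℚ ℂ} {α : L}
    (hα : STP.IsTotallyPositive (α : ℂ)) (τ : L ≃ₐ[ℚ] L) (φ : L →ₐ[ℚ] ℂ) :
    0 < (φ (τ α)).re ∧ φ (τ α) = (((φ (τ α)).re : ℝ) : ℂ) := by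
  obtain ⟨r, hr, h⟩ := pos_emb hα (φ.comp (τ : L →ₐ[ℚ] L))
  have h1 : φ (τ α) = (r : ℂ) := by simpa using h
  rw [h1]
  simpa using hr

theorem fam_mk (L : IntermediateField ℚ ℂ) [FiniteDimensional ℚ L] (q : ℕ) [NeZero q]
    (S : Finset (ZMod q)) (hS : q ≤ 2 * S.card) (σ : ZMod q → L ≃ₐ[ℚ] L) (α : L)
    (hα : STP.IsTotallyPositive (α : ℂ)) (ω : L) (hω : IsPrimitiveRoot ω q) :
    ∃ F : Fam (L →ₐ[ℚ] ℂ) q, F.S = S ∧
      (∀ φ j, F.T φ j = φ ((1 / (S.card : L)) * ∑ b ∈ S, σ b α * ω ^ (j * b).val)) ∧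
      ∑ φ, F.m φ = Fintype.card (L →ₐ[ℚ] ℂ) * (STP.meanTrace (α : ℂ)).re := by
  have hprim : ∀ φ : L →ₐ[ℚ] ℂ, IsPrimitiveRoot (φ ω) q := fun φ =>
    hω.map_of_injective φ.injective
  have hpos : ∀ (φ : L →ₐ[ℚ] ℂ) (b : ZMod q), 0 < (φ (σ b α)).re ∧
      φ (σ b α) = (((φ (σ b α)).re : ℝ) : ℂ) := fun φ b => fammk_pos hα (σ b) φ
  have hα0 : α ≠ 0 := by
    intro h
    obtain ⟨h1, h2⟩ := fammk_pos hα AlgEquiv.refl (Algebra.ofId L ℂ |>.restrictScalars ℚ)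
    rw [h] at h1
    simp at h1
  have hlog : 0 ≤ ∑ φ : L →ₐ[ℚ] ℂ, ∑ a ∈ S, Real.log (φ (σ a α)).re := by
    rw [Finset.sum_comm]
    refine Finset.sum_nonneg fun b _ => ?_
    have h1 : ∑ φ : L →ₐ[ℚ] ℂ, Real.log (φ (σ b α)).re =
        ∑ φ : L →ₐ[ℚ] ℂ, Real.log ‖φ (σ b α)‖ := by
      refine Finset.sum_congr rfl fun φ _ => ?_
      obtain ⟨h2, h3⟩ := hpos φ b
      conv_rhs => rw [h3]
      rw [Complex.norm_real, Real.norm_eq_abs, abs_of_pos h2]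
    rw [h1, fammk_sum_comp L (σ b) (fun z => Real.log ‖z‖) α]
    exact log_norm_nonneg L α hα.1 hα0
  let F : Fam (L →ₐ[ℚ] ℂ) q :=
    { ψ := fun φ => AddChar.zmodChar q ((IsPrimitiveRoot.iff_def (φ ω) q).mp (hprim φ)).left
      hψ := fun φ => AddChar.zmodChar_primitive_of_primitive_root q (hprim φ)
      S := S
      hS := hS
      f := fun φ b => (φ (σ b α)).re
      hf := fun φ b _ => (hpos φ b).1
      hlog := hlog }
  refine ⟨F, rfl, fun φ j => ?_, ?_⟩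
  · have h1 : F.T φ j = ∑ a, (F.w φ a : ℂ) * (φ ω) ^ (j * a).val := rfl
    have h2 : ∀ a, F.w φ a = if a ∈ S then (φ (σ a α)).re / S.card else 0 := fun a => rfl
    rw [h1]
    have h3 : ∀ a, (F.w φ a : ℂ) * (φ ω) ^ (j * a).val =
        if a ∈ S then φ (σ a α) / S.card * (φ ω) ^ (j * a).val else 0 := by
      intro a
      rw [h2 a]
      split_ifs with h
      · rw [Complex.ofReal_div, ← (hpos φ a).2, Complex.ofReal_natCast]
      · simp
    rw [Finset.sum_congr rfl fun a _ => h3 a, Finset.sum_ite_mem, Finset.univ_inter]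
    rw [map_mul, map_sum, map_div₀, map_one, map_natCast, Finset.mul_sum]
    refine Finset.sum_congr rfl fun a _ => ?_
    rw [map_mul, map_pow]
    ring
  · have h1 : ∀ φ, F.m φ = (∑ b ∈ S, (φ (σ b α)).re) / S.card := fun φ => F.m_eq φ
    rw [Finset.sum_congr rfl fun φ _ => h1 φ, ← Finset.sum_div, Finset.sum_comm]
    have h2 : ∀ b ∈ S, ∑ φ : L →ₐ[ℚ] ℂ, (φ (σ b α)).re =
        Fintype.card (L →ₐ[ℚ] ℂ) * (STP.meanTrace (α : ℂ)).re := by
      intro b _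
      rw [fammk_sum_comp L (σ b) Complex.re α, ← Complex.re_sum, sum_emb L α, Complex.mul_re]
      simp
    rw [Finset.sum_congr rfl h2, Finset.sum_const, nsmul_eq_mul]
    have h3 : (S.card : ℝ) ≠ 0 := by
      have h4 := NeZero.pos q
      have h5 : S.card ≠ 0 := by omega
      exact_mod_cast h5
    field_simp

end Pool.Agent.CYC
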