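import Mathlib
import Pool.Agent.Lib.MP_8ca0c8_nt_CYC.Defs

/-! Project CYC (MP_8ca0c8_nt), module GALA: degrees of cyclotomic extensions of K. -/

namespace Pool.Agent.CYC

open Finset

/-- the degree of the cyclotomic field -/
theorem GalA_cyc (n : ℕ) (hn : 0 < n) :
    Module.finrank ℚ (IntermediateField.adjoin ℚ {zt n}) = n.totient := by
  have h1 : IsIntegral ℚ (zt n) := ((zt_pow n hn.ne').isIntegral hn).tower_top
  rw [IntermediateField.adjoin.finrank h1,
    ← Polynomial.cyclotomic_eq_minpoly_rat (zt_pow n hn.ne') hn, Polynomial.natDegree_cyclotomic]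

theorem GalA_zt (m n : ℕ) (hn : 0 < n) (h : m ∣ n) : zt m = zt n ^ (n / m) := by
  obtain ⟨k, rfl⟩ := h
  have hm : 0 < m := Nat.pos_of_mul_pos_right hn
  have hk : 0 < k := Nat.pos_of_mul_pos_left hn
  rw [Nat.mul_div_cancel_left k hm]
  unfold zt
  rw [← Complex.exp_nat_mul]
  congr 1
  have h1 : (m : ℂ) ≠ 0 := by exact_mod_cast hm.ne'
  have h2 : (k : ℂ) ≠ 0 := by exact_mod_cast hk.ne'
  push_cast
  field_simp

theorem GalA_le (m n : ℕ) (hn : 0 < n) (h : m ∣ n) :
    IntermediateField.adjoin ℚ {zt m} ≤ IntermediateField.adjoin ℚ {zt n} := by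
  rw [IntermediateField.adjoin_simple_le_iff, GalA_zt m n hn h]
  exact pow_mem (IntermediateField.mem_adjoin_simple_self ℚ (zt n)) _

/-- the degree over the field `C` of the compositum -/
theorem GalA_rel {C A B : IntermediateField ℚ ℂ} (hA : C ≤ A) (hB : C ≤ B) :
    IntermediateField.relfinrank C (A ⊔ B) ≤
      IntermediateField.relfinrank C A * IntermediateField.relfinrank C B := by
  rw [IntermediateField.relfinrank_eq_finrank_of_le (le_sup_of_le_left hA),
    IntermediateField.relfinrank_eq_finrank_of_le hA,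
    IntermediateField.relfinrank_eq_finrank_of_le hB, ← IntermediateField.extendScalars_sup hA hB]
  exact IntermediateField.finrank_sup_le _ _

theorem GalA_mono (K : IntermediateField ℚ ℂ) [FiniteDimensional ℚ K] (m n : ℕ) (hn : 0 < n)
    (h : m ∣ n) :
    Module.finrank ℚ (Ln K n) * m.totient ≤ Module.finrank ℚ (Ln K m) * n.totient := by
  have hm : 0 < m := Nat.pos_of_dvd_of_pos h hn
  set C : IntermediateField ℚ ℂ := IntermediateField.adjoin ℚ {zt m} with hC
  set D : IntermediateField ℚ ℂ := IntermediateField.adjoin ℚ {zt n} with hD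
  have hCD : C ≤ D := GalA_le m n hn h
  have hCL : C ≤ Ln K m := le_sup_right
  have e : Ln K n = Ln K m ⊔ D := by
    unfold Ln
    rw [sup_assoc, ← hC, ← hD, sup_eq_right.mpr hCD]
  have h1 := GalA_rel hCL hCD
  rw [← e] at h1
  have hCn : C ≤ Ln K n := by
    rw [e]
    exact le_sup_of_le_left hCL
  have h2 := IntermediateField.finrank_bot_mul_relfinrank hCL
  have h3 := IntermediateField.finrank_bot_mul_relfinrank hCD
  have h4 := IntermediateField.finrank_bot_mul_relfinrank hCn
  rw [GalA_cyc m hm] at h2 h3 h4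
  rw [GalA_cyc n hn] at h3
  rw [← h2, ← h3, ← h4]
  calc m.totient * C.relfinrank (Ln K n) * m.totient
      ≤ m.totient * (C.relfinrank (Ln K m) * C.relfinrank D) * m.totient := by gcongr
    _ = _ := by ring

theorem GalA_dvd (K : IntermediateField ℚ ℂ) (n : ℕ) (hn : 0 < n) :
    n.totient ∣ Module.finrank ℚ (Ln K n) := by
  have hCn : IntermediateField.adjoin ℚ {zt n} ≤ Ln K n := le_sup_right
  have h4 := IntermediateField.finrank_bot_mul_relfinrank hCn
  rw [GalA_cyc n hn] at h4
  exact Dvd.intro _ h4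

/-- degrees -/
theorem gal_degree (K : IntermediateField ℚ ℂ) [FiniteDimensional ℚ K] : ∃ f : ℕ, 0 < f ∧
    ∀ m n : ℕ, 0 < n → f ∣ m → m ∣ n →
      Module.finrank ℚ (Ln K n) * m.totient = Module.finrank ℚ (Ln K m) * n.totient := by
  classical
  set d : ℕ → ℕ := fun n => Module.finrank ℚ (Ln K n) / n.totient with hd
  have hex : ∃ v, ∃ f, 0 < f ∧ d f = v := ⟨d 1, 1, one_pos, rfl⟩
  obtain ⟨f, hf, hfv⟩ := Nat.find_spec hex
  have hmin : ∀ n, 0 < n → d f ≤ d n := by
    intro n hn
    rw [hfv]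
    exact Nat.find_min' hex ⟨n, hn, rfl⟩
  have hdn : ∀ n, 0 < n → Module.finrank ℚ (Ln K n) = d n * n.totient := by
    intro n hn
    exact (Nat.div_mul_cancel (GalA_dvd K n hn)).symm
  have hmono : ∀ m n, 0 < n → m ∣ n → d n ≤ d m := by
    intro m n hn h
    have hm : 0 < m := Nat.pos_of_dvd_of_pos h hn
    have h1 := GalA_mono K m n hn h
    rw [hdn n hn, hdn m hm] at h1
    have h2 : 0 < n.totient * m.totient :=
      Nat.mul_pos (Nat.totient_pos.mpr hn) (Nat.totient_pos.mpr hm)
    apply Nat.le_of_mul_le_mul_right _ h2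
    calc d n * (n.totient * m.totient) = d n * n.totient * m.totient := by ring
      _ ≤ d m * m.totient * n.totient := h1
      _ = d m * (n.totient * m.totient) := by ring
  refine ⟨f, hf, ?_⟩
  intro m n hn hfm hmn
  have hm : 0 < m := Nat.pos_of_dvd_of_pos hmn hn
  have h1 := hmin n hn
  have h2 := hmono m n hn hmn
  have h3 := hmono f m hm hfm
  have h4 : d n = d m := by omega
  rw [hdn n hn, hdn m hm, h4]
  ring

end Pool.Agent.CYC
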