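import Mathlib
import Pool.Agent.Lib.MP_8ca0c8_nt_CYC.Defs

/-! Project CYC (MP_8ca0c8_nt), module GALB: automorphisms from degrees. -/

namespace Pool.Agent.CYC

open Finset

theorem galB_zt_pow {m n : ℕ} (hn : 0 < n) (hmn : m ∣ n) : zt n ^ (n / m) = zt m := by
  obtain ⟨k, rfl⟩ := hmn
  have hm : 0 < m := Nat.pos_of_mul_pos_right hn
  have hk : 0 < k := Nat.pos_of_mul_pos_left hn
  rw [Nat.mul_div_cancel_left k hm, zt, zt, ← Complex.exp_nat_mul]
  congr 1
  have h1 : (m : ℂ) ≠ 0 := Nat.cast_ne_zero.2 hm.ne'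
  have h2 : (k : ℂ) ≠ 0 := Nat.cast_ne_zero.2 hk.ne'
  push_cast
  field_simp

/-- the field `Ln K n` over `Ln K m` -/
noncomputable def galB_N (K : IntermediateField ℚ ℂ) (m n : ℕ) : IntermediateField (Ln K m) ℂ :=
  IntermediateField.adjoin (Ln K m) {zt n}

theorem galB_mem_N (K : IntermediateField ℚ ℂ) (m n : ℕ) : zt n ∈ galB_N K m n :=
  IntermediateField.subset_adjoin _ _ (Set.mem_singleton _)

theorem galB_cyc (K : IntermediateField ℚ ℂ) (m n : ℕ) (hn : 0 < n) :
    IsCyclotomicExtension {n} (Ln K m) (galB_N K m n) := by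
  have : NeZero n := ⟨hn.ne'⟩
  change IsCyclotomicExtension {n} (Ln K m) (IntermediateField.adjoin (Ln K m) {zt n}).toSubalgebra
  have halg : IsAlgebraic (Ln K m) (zt n) :=
    (((zt_pow n hn.ne').isIntegral hn).tower_top).isAlgebraic
  rw [IntermediateField.adjoin_simple_toSubalgebra_of_isAlgebraic halg]
  exact (zt_pow n hn.ne').adjoin_isCyclotomicExtension _

theorem galB_restrict (K : IntermediateField ℚ ℂ) {m n : ℕ} (hn : 0 < n) (hmn : m ∣ n) (x : ℂ) :
    x ∈ galB_N K m n ↔ x ∈ Ln K n := by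
  have h1 : (galB_N K m n).restrictScalars ℚ = Ln K n := by
    have h0 := IntermediateField.restrictScalars_adjoin ℚ (Ln K m) {zt n}
    refine h0.trans (le_antisymm ?_ ?_)
    · rw [IntermediateField.adjoin_le_iff]
      rintro y (hy | hy)
      · have h2 : Ln K m ≤ Ln K n := by
          refine sup_le le_sup_left ?_
          rw [IntermediateField.adjoin_le_iff, Set.singleton_subset_iff, ← galB_zt_pow hn hmn]
          exact pow_mem (zt_mem K n) _
        exact h2 hy
      · rw [Set.mem_singleton_iff.1 hy]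
        exact zt_mem K n
    · refine sup_le ?_ ?_
      · intro y hy
        have h2 : y ∈ Ln K m := le_sup_left (a := K) hy
        exact IntermediateField.subset_adjoin _ _ (Or.inl h2)
      · rw [IntermediateField.adjoin_le_iff, Set.singleton_subset_iff]
        exact IntermediateField.subset_adjoin _ _ (Or.inr rfl)
  rw [← h1]
  rfl

/-- the identity map -/
noncomputable def galB_e (K : IntermediateField ℚ ℂ) {m n : ℕ} (hn : 0 < n) (hmn : m ∣ n) :
    Ln K n ≃ₐ[ℚ] galB_N K m n where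
  toFun x := ⟨x.1, (galB_restrict K hn hmn x.1).2 x.2⟩
  invFun x := ⟨x.1, (galB_restrict K hn hmn x.1).1 x.2⟩
  left_inv _ := rfl
  right_inv _ := rfl
  map_mul' _ _ := rfl
  map_add' _ _ := rfl
  commutes' _ := rfl

theorem galB_card_ker {m n : ℕ} [NeZero n] (hmn : m ∣ n) :
    Nat.card (ZMod.unitsMap hmn).ker * m.totient = n.totient := by
  have : NeZero m := ⟨fun h => NeZero.ne n (Nat.eq_zero_of_zero_dvd (h ▸ hmn))⟩
  have h1 := (ZMod.unitsMap hmn).ker.card_mul_index
  rw [Subgroup.index_ker, MonoidHom.range_eq_top.2 (ZMod.unitsMap_surjective hmn),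
    Subgroup.card_top, Nat.card_eq_fintype_card (α := (ZMod m)ˣ),
    Nat.card_eq_fintype_card (α := (ZMod n)ˣ), ZMod.card_units_eq_totient,
    ZMod.card_units_eq_totient] at h1
  exact h1

theorem gal_of_degree (K : IntermediateField ℚ ℂ) [FiniteDimensional ℚ K] (m n : ℕ) (hn : 0 < n)
    (hmn : m ∣ n)
    (h : Module.finrank ℚ (Ln K n) * m.totient = Module.finrank ℚ (Ln K m) * n.totient)
    (u : ℕ) (hu : u.Coprime n) (hum : u ≡ 1 [MOD m]) :
    ∃ σ : Ln K n ≃ₐ[ℚ] Ln K n, (∀ x : Ln K n, (x : ℂ) ∈ K → σ x = x) ∧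
      ∀ z : Ln K n, (z : ℂ) = zt n → ((σ z : Ln K n) : ℂ) = zt n ^ u := by
  have hn' : NeZero n := ⟨hn.ne'⟩
  have hm : 0 < m := Nat.pos_of_dvd_of_pos hmn hn
  have := galB_cyc K m n hn
  have : IsGalois (Ln K m) (galB_N K m n) := IsCyclotomicExtension.isGalois {n} _ _
  have : FiniteDimensional (Ln K m) (galB_N K m n) :=
    IsCyclotomicExtension.finiteDimensional {n} _ _
  set e := galB_e K hn hmn with he
  -- the degree
  have hdeg : Module.finrank (Ln K m) (galB_N K m n) * m.totient = n.totient := by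
    have h1 : Module.finrank ℚ (galB_N K m n) = Module.finrank ℚ (Ln K n) :=
      (LinearEquiv.finrank_eq e.toLinearEquiv).symm
    have h2 := Module.finrank_mul_finrank ℚ (Ln K m) (galB_N K m n)
    have h3 : 0 < Module.finrank ℚ (Ln K m) := Module.finrank_pos
    rw [h1] at h2
    refine Nat.eq_of_mul_eq_mul_left h3 ?_
    rw [← h, ← h2, mul_assoc]
  -- the primitive root
  set ζ : galB_N K m n := ⟨zt n, galB_mem_N K m n⟩ with hζdef
  have hζ : IsPrimitiveRoot ζ n :=
    IsPrimitiveRoot.of_map_of_injective (f := algebraMap (galB_N K m n) ℂ)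
      (zt_pow n hn.ne') (algebraMap (galB_N K m n) ℂ).injective
  have hinj := hζ.autToPow_injective (Ln K m)
  set A := hζ.autToPow (Ln K m) with hA
  have hle : A.range ≤ (ZMod.unitsMap hmn).ker := by
    rintro _ ⟨f, rfl⟩
    rw [MonoidHom.mem_ker]
    have hsp := hζ.autToPow_spec (Ln K m) f
    set v : ℕ := (A f : ZMod n).val with hv
    -- `f` fixes `zt m`
    have h1 : zt m ∈ Ln K m := zt_mem K m
    have h2 : f (algebraMap (Ln K m) (galB_N K m n) ⟨zt m, h1⟩) =
        algebraMap (Ln K m) (galB_N K m n) ⟨zt m, h1⟩ := f.commutes _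
    have h3 : algebraMap (Ln K m) (galB_N K m n) ⟨zt m, h1⟩ = ζ ^ (n / m) := by
      apply Subtype.ext
      show zt m = zt n ^ (n / m)
      rw [galB_zt_pow hn hmn]
    rw [h3, map_pow, ← hsp] at h2
    have h4 := congrArg Subtype.val h2
    have h5 : (zt n ^ v) ^ (n / m) = zt n ^ (n / m) := h4
    rw [← pow_mul, mul_comm, pow_mul, galB_zt_pow hn hmn] at h5
    have hzm := zt_pow m hm.ne'
    have h6 : zt m ^ ((v : ℤ) - 1) = 1 := by
      rw [zpow_sub₀ (hzm.ne_zero hm.ne'), zpow_natCast, zpow_one, h5,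
        div_self (hzm.ne_zero hm.ne')]
    rw [hzm.zpow_eq_one_iff_dvd] at h6
    apply Units.ext
    rw [ZMod.unitsMap_val, Units.val_one, ← ZMod.natCast_val, ← hv]
    have h7 : (((v : ℤ) - 1 : ℤ) : ZMod m) = 0 := (ZMod.intCast_zmod_eq_zero_iff_dvd _ _).2 h6
    push_cast at h7
    exact sub_eq_zero.1 h7
  have hcard : Nat.card (ZMod.unitsMap hmn).ker ≤ Nat.card A.range := by
    have h1 : Nat.card A.range = Module.finrank (Ln K m) (galB_N K m n) := by
      rw [← Nat.card_congr (MonoidHom.ofInjective hinj).toEquiv]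
      exact IsGalois.card_aut_eq_finrank _ _
    have h2 := galB_card_ker (n := n) hmn
    rw [h1]
    have h3 : 0 < m.totient := Nat.totient_pos.2 hm
    exact (Nat.eq_of_mul_eq_mul_right h3 (h2.trans hdeg.symm)).le
  have heq := Subgroup.eq_of_le_of_card_ge hle hcard
  -- the automorphism
  have hmem : ZMod.unitOfCoprime u hu ∈ (ZMod.unitsMap hmn).ker := by
    rw [MonoidHom.mem_ker]
    apply Units.ext
    rw [ZMod.unitsMap_val, Units.val_one, ZMod.coe_unitOfCoprime, ZMod.cast_natCast hmn]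
    have := (ZMod.natCast_eq_natCast_iff u 1 m).2 hum
    simpa using this
  rw [← heq] at hmem
  obtain ⟨f, hf⟩ := hmem
  have hsp := hζ.autToPow_spec (Ln K m) f
  rw [← hA, hf, ZMod.coe_unitOfCoprime, ZMod.val_natCast] at hsp
  have hfζ : f ζ = ζ ^ u := by
    rw [← hsp, ← pow_mod_orderOf ζ u, ← hζ.eq_orderOf]
  refine ⟨(e.trans (f.restrictScalars ℚ)).trans e.symm, fun x hx => ?_, fun z hz => ?_⟩
  · have h1 : (x : ℂ) ∈ Ln K m := le_sup_left (a := K) hx
    have h2 : e x = algebraMap (Ln K m) (galB_N K m n) ⟨x, h1⟩ := Subtype.ext rfl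
    show e.symm (f (e x)) = x
    rw [h2, f.commutes, ← h2, AlgEquiv.symm_apply_apply]
  · have h2 : e z = ζ := Subtype.ext hz
    have h3 : ((e.symm (f (e z)) : Ln K n) : ℂ) = ((f (e z) : galB_N K m n) : ℂ) := rfl
    show ((e.symm (f (e z)) : Ln K n) : ℂ) = zt n ^ u
    rw [h3, h2, hfζ]
    rfl

end Pool.Agent.CYC
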