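import Mathlib
import Pool.Agent.Lib.MP_8ca0c8_nt_CYC.GalA
import Pool.Agent.Lib.MP_8ca0c8_nt_CYC.GalB

/-! Project CYC (MP_8ca0c8_nt), automorphisms of K(zeta_n). STUB. -/

namespace Pool.Agent.CYC

open Finset

/-- the automorphisms of `K(ζ_n)` over `K(ζ_m)` are all `ζ_n ↦ ζ_n ^ u`, `u = 1` mod `m`, for
`f ∣ m ∣ n` -/
def GalOK (K : IntermediateField ℚ ℂ) (f : ℕ) : Prop :=
  ∀ m n : ℕ, 0 < n → f ∣ m → m ∣ n → ∀ u : ℕ, u.Coprime n → u ≡ 1 [MOD m] →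
    ∃ σ : Ln K n ≃ₐ[ℚ] Ln K n, (∀ x : Ln K n, (x : ℂ) ∈ K → σ x = x) ∧
      ∀ z : Ln K n, (z : ℂ) = zt n → ((σ z : Ln K n) : ℂ) = zt n ^ u

theorem gal_exists (K : IntermediateField ℚ ℂ) [FiniteDimensional ℚ K] :
    ∃ f : ℕ, 0 < f ∧ GalOK K f := by
  obtain ⟨f, hf, h⟩ := gal_degree K
  exact ⟨f, hf, fun m n hn hfm hmn u hu hum => gal_of_degree K m n hn hmn (h m n hn hfm hmn) u hu hum⟩

end Pool.Agent.CYC
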