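import Mathlib
import Pool.Agent.Lib.MP_8ca0c8_nt_CYC.FamMk
import Pool.Agent.Lib.MP_8ca0c8_nt_CYC.Gal
import Pool.Agent.Lib.MP_8ca0c8_nt_CYC.DecompA

/-! Project CYC (MP_8ca0c8_nt), module FAMA: the family of case A. -/

namespace Pool.Agent.CYC

open Finset

/-- orthogonality of the characters of `ZMod q` -/
theorem famA_char_sum (q : ℕ) [NeZero q] (i j : ZMod q) :
    ∑ b : ZMod q, zt q ^ (b.val * i.val) * zt q ^ (j * b).val =
      if i = -j then (q : ℂ) else 0 := by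
  have hprim := zt_pow q (NeZero.ne q)
  have h1 : zt q ^ q = 1 := hprim.pow_eq_one
  have hψ : (AddChar.zmodChar q h1).IsPrimitive :=
    AddChar.zmodChar_primitive_of_primitive_root q hprim
  have h2 : ∀ b : ZMod q, zt q ^ (b.val * i.val) * zt q ^ (j * b).val =
      AddChar.zmodChar q h1 (b * (i + j)) := by
    intro b
    have h3 : zt q ^ (b.val * i.val) = AddChar.zmodChar q h1 (b * i) := by
      rw [← AddChar.zmodChar_apply' (n := q) h1 (b.val * i.val)]
      congr 1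
      push_cast
      rw [ZMod.natCast_zmod_val, ZMod.natCast_zmod_val]
    rw [h3, ← AddChar.zmodChar_apply (n := q) h1 (j * b), ← AddChar.map_add_eq_mul]
    congr 1
    ring
  rw [Finset.sum_congr rfl fun b _ => h2 b, AddChar.sum_mulShift (i + j) hψ, ZMod.card]
  by_cases h : i = -j
  · rw [if_pos h, if_pos (by rw [h]; ring)]
  · rw [if_neg h, if_neg (fun h' => h (eq_neg_of_add_eq_zero_left h'))]
    simp

/-- the same sum without the term `b = 0` -/
theorem famA_char_sum_erase (q : ℕ) [NeZero q] (i j : ZMod q) :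
    ∑ b ∈ (univ : Finset (ZMod q)).erase 0, zt q ^ (b.val * i.val) * zt q ^ (j * b).val =
      (if i = -j then (q : ℂ) else 0) - 1 := by
  have h1 := famA_char_sum q i j
  rw [← Finset.add_sum_erase univ _ (mem_univ (0 : ZMod q))] at h1
  rw [← h1]
  simp

/-- the exponent for the automorphism belonging to `a` -/
theorem famA_exists_u (m p : ℕ) [Fact p.Prime] (hpm : ¬ p ∣ m) (a : ZMod p) (ha : a ≠ 0) :
    ∃ u : ℕ, u.Coprime (m * p) ∧ u ≡ 1 [MOD m] ∧ u ≡ a.val [MOD p] := by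
  have hp : p.Prime := Fact.out
  have hco : m.Coprime p := ((Nat.Prime.coprime_iff_not_dvd hp).2 hpm).symm
  obtain ⟨u, hu1, hu2⟩ := Nat.chineseRemainder hco 1 a.val
  refine ⟨u, ?_, hu1, hu2⟩
  refine Nat.Coprime.mul_right ?_ ?_
  · have h1 : u.gcd m = 1 := by
      rw [hu1.gcd_eq]
      exact Nat.gcd_one_left m
    exact h1
  · have h1 : u.gcd p = 1 := by
      rw [hu2.gcd_eq]
      refine Nat.Coprime.symm ((Nat.Prime.coprime_iff_not_dvd hp).2 fun h => ha ?_)
      have h2 : ((a.val : ℕ) : ZMod p) = 0 := (ZMod.natCast_eq_zero_iff _ _).2 h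
      rwa [ZMod.natCast_zmod_val] at h2
    exact h1

theorem famA (K : IntermediateField ℚ ℂ) [FiniteDimensional ℚ K] (f : ℕ) (hf : 0 < f)
    (hgal : GalOK K f) (m p : ℕ) (hm : 0 < m) [Fact p.Prime] (hp3 : 3 ≤ p) (hpm : ¬ p ∣ m)
    (hfm : f ∣ m) (α : ℂ) (hα : α ∈ Rn K (m * p))
    (htp : STP.IsTotallyPositive α) (hnot : α ∉ Rn K m) :
    ∃ F : Fam (Ln K (m * p) →ₐ[ℚ] ℂ) p, F.S = univ.erase 0 ∧
      (∀ i j, (∀ φ, F.T φ i = F.T φ j) ∨ ((∀ φ, F.T φ i ≠ F.T φ j) ∧
        0 ≤ ∑ φ, Real.log ‖F.T φ i - F.T φ j‖)) ∧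
      (∃ i j : ZMod p, i ≠ 0 ∧ j ≠ 0 ∧ ∃ φ, F.T φ i ≠ F.T φ j) ∧
      ∑ φ, F.m φ = Fintype.card (Ln K (m * p) →ₐ[ℚ] ℂ) * (STP.meanTrace α).re := by
  have hp : p.Prime := Fact.out
  have hn : 0 < m * p := Nat.mul_pos hm hp.pos
  set ζ : Ln K (m * p) := ⟨zt (m * p), zt_mem K _⟩ with hζ
  set ω : Ln K (m * p) := ζ ^ m with hω
  have hωc : (ω : ℂ) = zt p := by
    rw [hω, hζ]
    simpa using zt_mul_pow m p hm hp.pos
  have hωp : IsPrimitiveRoot ω p := by
    refine IsPrimitiveRoot.of_map_of_injective (f := (Ln K (m * p)).val) ?_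
      (Ln K (m * p)).val.injective
    show IsPrimitiveRoot (ω : ℂ) p
    rw [hωc]
    exact zt_pow _ hp.ne_zero
  obtain ⟨t, ht1, ht2⟩ := decompA K m p hm ((Nat.Prime.coprime_iff_not_dvd hp).2 hpm).symm α hα
  set x : Ln K (m * p) := ⟨α, (rn_sub K hn hα).1⟩ with hx
  -- the automorphisms
  have hσ : ∀ b : ZMod p, ∃ σ : Ln K (m * p) ≃ₐ[ℚ] Ln K (m * p), b ≠ 0 →
      ((σ x : Ln K (m * p)) : ℂ) = ∑ i, t i * zt p ^ (b.val * i.val) := by
    intro b
    by_cases hb : b = 0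
    · exact ⟨AlgEquiv.refl, fun h => absurd hb h⟩
    · obtain ⟨u, hu1, hu2, hu3⟩ := famA_exists_u m p hpm b hb
      obtain ⟨σ, hσ1, hσ2⟩ := hgal m (m * p) hn hfm (dvd_mul_right m _) u hu1 hu2
      exact ⟨σ, fun _ => ht2 b.val u σ hu3 hu2 hσ1 hσ2 x rfl⟩
  choose σ hσ using hσ
  have hcard : ((univ : Finset (ZMod p)).erase 0).card = p - 1 := by
    rw [Finset.card_erase_of_mem (mem_univ _), card_univ, ZMod.card]
  obtain ⟨F, hFS, hFT, hFm⟩ := fam_mk (Ln K (m * p)) p ((univ : Finset (ZMod p)).erase 0)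
    (by rw [hcard]; omega) σ x htp ω hωp
  set τ : ZMod p → Ln K (m * p) := fun j =>
    (1 / ((((univ : Finset (ZMod p)).erase 0).card : Ln K (m * p)))) *
      ∑ b ∈ (univ : Finset (ZMod p)).erase 0, σ b x * ω ^ (j * b).val with hτ
  have hp1 : ((p : ℂ) - 1) ≠ 0 := by
    have : (p : ℂ) ≠ 1 := by exact_mod_cast hp.one_lt.ne'
    exact sub_ne_zero.2 this
  have hτt : ∀ j, ((τ j : Ln K (m * p)) : ℂ) = ((p : ℂ) * t (-j) - ∑ i, t i) / ((p : ℂ) - 1) := by
    intro j
    have h1 : ((τ j : Ln K (m * p)) : ℂ) = (1 / ((p : ℂ) - 1)) *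
        ∑ b ∈ (univ : Finset (ZMod p)).erase 0,
          ((σ b x : Ln K (m * p)) : ℂ) * (ω : ℂ) ^ (j * b).val := by
      rw [hτ]
      simp only [hcard]
      push_cast [Nat.cast_sub hp.one_lt.le]
      rfl
    rw [h1]
    have h2 : ∀ b ∈ (univ : Finset (ZMod p)).erase 0,
        ((σ b x : Ln K (m * p)) : ℂ) * (ω : ℂ) ^ (j * b).val =
        ∑ i, t i * (zt p ^ (b.val * i.val) * zt p ^ (j * b).val) := by
      intro b hb
      rw [hσ b (Finset.ne_of_mem_erase hb), hωc, Finset.sum_mul]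
      exact Finset.sum_congr rfl fun i _ => by ring
    rw [Finset.sum_congr rfl h2, Finset.sum_comm]
    have h3 : ∀ i : ZMod p, ∑ b ∈ (univ : Finset (ZMod p)).erase 0,
        t i * (zt p ^ (b.val * i.val) * zt p ^ (j * b).val) =
        (if i = -j then t i * (p : ℂ) else 0) - t i := by
      intro i
      rw [← Finset.mul_sum, famA_char_sum_erase]
      split_ifs <;> ring
    rw [Finset.sum_congr rfl fun i _ => h3 i, Finset.sum_sub_distrib,
      Finset.sum_ite_eq' univ (-j), if_pos (mem_univ _)]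
    field_simp
  have hTτ : ∀ φ j, F.T φ j = φ (τ j) := fun φ j => hFT φ j
  have hdiff : ∀ i j, ((τ i - τ j : Ln K (m * p)) : ℂ) =
      ((p : ℂ) / ((p : ℂ) - 1)) * (t (-i) - t (-j)) := by
    intro i j
    have h1 : ((τ i - τ j : Ln K (m * p)) : ℂ) =
        ((τ i : Ln K (m * p)) : ℂ) - ((τ j : Ln K (m * p)) : ℂ) := rfl
    rw [h1, hτt, hτt]
    field_simp
    ring
  have htn : ∀ j, t j ∈ Rn K (m * p) := fun j => rn_mono K hn (dvd_mul_right m p) (ht1 j)
  refine ⟨F, hFS, fun i j => ?_, ?_, hFm⟩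
  · by_cases h0 : t (-i) = t (-j)
    · left
      intro φ
      rw [hTτ, hTτ]
      have h1 : τ i - τ j = 0 := by
        apply Subtype.ext
        rw [hdiff, h0, sub_self, mul_zero]
        rfl
      rw [sub_eq_zero.1 h1]
    · right
      have hyR : t (-i) - t (-j) ∈ Rn K (m * p) := Subring.sub_mem _ (htn _) (htn _)
      set y : Ln K (m * p) := ⟨t (-i) - t (-j), (rn_sub K hn hyR).1⟩ with hy
      have hy0 : y ≠ 0 := by
        intro h
        apply h0
        have h1 : (y : ℂ) = 0 := by rw [h]; rfl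
        exact sub_eq_zero.1 h1
      have hpL : ((p : Ln K (m * p)) - 1) ≠ 0 := by
        intro h
        apply hp1
        have h1 := congrArg (fun z : Ln K (m * p) => (z : ℂ)) h
        simpa using h1
      have hτy : τ i - τ j = ((p : Ln K (m * p)) / ((p : Ln K (m * p)) - 1)) * y := by
        apply Subtype.ext
        rw [hdiff]
        simp [hy]
      have hval : ∀ φ, F.T φ i - F.T φ j = ((p : ℂ) / ((p : ℂ) - 1)) * φ y := by
        intro φ
        rw [hTτ, hTτ, ← map_sub, hτy, map_mul, map_div₀, map_sub, map_natCast, map_one]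
      have hpp : ((p : ℂ) / ((p : ℂ) - 1)) ≠ 0 :=
        div_ne_zero (by exact_mod_cast hp.ne_zero) hp1
      have hφy : ∀ φ : Ln K (m * p) →ₐ[ℚ] ℂ, φ y ≠ 0 := fun φ =>
        (map_ne_zero_iff φ φ.injective).2 hy0
      have hlog : 0 ≤ Real.log ‖((p : ℂ) / ((p : ℂ) - 1))‖ := by
        apply Real.log_nonneg
        have h1 : ((p : ℂ) / ((p : ℂ) - 1)) = (((p : ℝ) / ((p : ℝ) - 1) : ℝ) : ℂ) := by
          push_cast
          rfl
        have h2 : (1 : ℝ) < p := by exact_mod_cast hp.one_lt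
        rw [h1, Complex.norm_real, Real.norm_eq_abs]
        refine le_trans ?_ (le_abs_self _)
        rw [le_div_iff₀ (by linarith)]
        linarith
      refine ⟨fun φ h => ?_, ?_⟩
      · have h1 := hval φ
        rw [h, sub_self] at h1
        exact (mul_ne_zero hpp (hφy φ)) h1.symm
      · have h1 : ∑ φ, Real.log ‖F.T φ i - F.T φ j‖ =
            ∑ φ : Ln K (m * p) →ₐ[ℚ] ℂ,
              (Real.log ‖((p : ℂ) / ((p : ℂ) - 1))‖ + Real.log ‖φ y‖) := by
          refine Finset.sum_congr rfl fun φ _ => ?_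
          rw [hval, norm_mul, Real.log_mul (norm_ne_zero_iff.2 hpp) (norm_ne_zero_iff.2 (hφy φ))]
        rw [h1, Finset.sum_add_distrib]
        have h2 := log_norm_nonneg (Ln K (m * p)) y (rn_sub K hn hyR).2 hy0
        have h3 : 0 ≤ ∑ _φ : Ln K (m * p) →ₐ[ℚ] ℂ, Real.log ‖((p : ℂ) / ((p : ℂ) - 1))‖ :=
          Finset.sum_nonneg fun _ _ => hlog
        linarith
  · by_contra hcon
    push Not at hcon
    apply hnot
    have hone : (1 : ZMod p) ≠ 0 := one_ne_zero
    -- `t` is constant on the nonzero elements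
    have hconst : ∀ j : ZMod p, j ≠ 0 → t j = t 1 := by
      intro j hj
      have h1 := hcon (-j) (-1) (neg_ne_zero.2 hj) (neg_ne_zero.2 hone) (Ln K (m * p)).val
      have h2 : ((τ (-j) : Ln K (m * p)) : ℂ) = ((τ (-1) : Ln K (m * p)) : ℂ) :=
        ((hTτ (Ln K (m * p)).val (-j)).symm.trans h1).trans (hTτ (Ln K (m * p)).val (-1))
      have h3 := hdiff (-j) (-1)
      have h4 : ((τ (-j) - τ (-1) : Ln K (m * p)) : ℂ) =
        ((τ (-j) : Ln K (m * p)) : ℂ) - ((τ (-1) : Ln K (m * p)) : ℂ) := rfl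
      rw [h4, h2, sub_self, neg_neg, neg_neg] at h3
      have hpp : ((p : ℂ) / ((p : ℂ) - 1)) ≠ 0 :=
        div_ne_zero (by exact_mod_cast hp.ne_zero) hp1
      rcases mul_eq_zero.1 h3.symm with h5 | h5
      · exact absurd h5 hpp
      · exact sub_eq_zero.1 h5
    have h1 := ht2 1 1 AlgEquiv.refl rfl rfl (fun _ _ => rfl)
      (fun z hz => by rw [pow_one]; exact hz) x rfl
    have h2 : α = ∑ j, t j * zt p ^ (1 * j.val) := h1
    rw [← Finset.add_sum_erase univ _ (mem_univ (0 : ZMod p))] at h2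
    have h3 : ∑ j ∈ (univ : Finset (ZMod p)).erase 0, t j * zt p ^ (1 * j.val) =
        t 1 * ∑ j ∈ (univ : Finset (ZMod p)).erase 0, zt p ^ (j.val * (0 : ZMod p).val) *
          zt p ^ ((1 : ZMod p) * j).val := by
      rw [Finset.mul_sum]
      refine Finset.sum_congr rfl fun j hj => ?_
      rw [hconst j (Finset.ne_of_mem_erase hj)]
      simp
    rw [h3, famA_char_sum_erase, if_neg (by simpa using hone)] at h2
    have h4 : α = t 0 - t 1 := by
      rw [h2]
      simp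
      ring
    rw [h4]
    exact Subring.sub_mem _ (ht1 _) (ht1 _)

end Pool.Agent.CYC
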