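import Mathlib
import Pool.Agent.Lib.MP_8ca0c8_nt_CYC.FamMk
import Pool.Agent.Lib.MP_8ca0c8_nt_CYC.Gal
import Pool.Agent.Lib.MP_8ca0c8_nt_CYC.DecompB

/-! Project CYC (MP_8ca0c8_nt), module FAMB: the family of case B. -/

namespace Pool.Agent.CYC

open Finset

/-- orthogonality of the characters of `ZMod q` -/
theorem famB_char_sum (q : ℕ) [NeZero q] (i j : ZMod q) :
    ∑ b : ZMod q, zt q ^ (b.val * i.val) * zt q ^ (j * b).val =
      if i = -j then (q : ℂ) else 0 := by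
  have hprim := zt_pow q (NeZero.ne q)
  have h1 : zt q ^ q = 1 := hprim.pow_eq_one
  have hψ : (AddChar.zmodChar q h1).IsPrimitive :=
    AddChar.zmodChar_primitive_of_primitive_root q hprim
  have h2 : ∀ b : ZMod q, zt q ^ (b.val * i.val) * zt q ^ (j * b).val =
      AddChar.zmodChar q h1 (b * (i + j)) := by
    intro b
    have h3 : zt q ^ (b.val * i.val) = AddChar.zmodChar q h1 (b * i) := by
      rw [← AddChar.zmodChar_apply' (n := q) h1 (b.val * i.val)]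
      congr 1
      push_cast
      rw [ZMod.natCast_zmod_val, ZMod.natCast_zmod_val]
    rw [h3, ← AddChar.zmodChar_apply (n := q) h1 (j * b), ← AddChar.map_add_eq_mul]
    congr 1
    ring
  rw [Finset.sum_congr rfl fun b _ => h2 b, AddChar.sum_mulShift (i + j) hψ, ZMod.card]
  by_cases h : i = -j
  · rw [if_pos h, if_pos (by rw [h]; ring)]
  · rw [if_neg h, if_neg (fun h' => h (eq_neg_of_add_eq_zero_left h'))]
    simp

theorem famB_coprime (m b p s : ℕ) (hpm : p ∣ m) : (1 + m * b).Coprime (m * p ^ s) := by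
  have h1 : (1 + m * b).Coprime m := by
    rw [Nat.coprime_add_mul_left_left]
    exact Nat.coprime_one_left m
  exact Nat.Coprime.mul_right h1 (Nat.Coprime.pow_right s (Nat.Coprime.coprime_dvd_right hpm h1))

theorem famB (K : IntermediateField ℚ ℂ) [FiniteDimensional ℚ K] (f : ℕ) (hf : 0 < f)
    (hgal : GalOK K f) (m p s : ℕ) (hm : 0 < m) (hp : p.Prime) (hpm : p ∣ m) (hs : 1 ≤ s)
    (hfm : f ∣ m) [NeZero (p ^ s)] (α : ℂ) (hα : α ∈ Rn K (m * p ^ s))
    (htp : STP.IsTotallyPositive α) (hnot : α ∉ Rn K (m * p ^ s / p)) :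
    ∃ F : Fam (Ln K (m * p ^ s) →ₐ[ℚ] ℂ) (p ^ s),
      (∀ j, (∀ φ, F.T φ j = 0) ∨ ((∀ φ, F.T φ j ≠ 0) ∧ 0 ≤ ∑ φ, Real.log ‖F.T φ j‖)) ∧
      (∃ j0 : ZMod (p ^ s), addOrderOf j0 = p ^ s ∧ ∃ φ, F.T φ j0 ≠ 0) ∧
      ∑ φ, F.m φ = Fintype.card (Ln K (m * p ^ s) →ₐ[ℚ] ℂ) * (STP.meanTrace α).re := by
  have hq : 0 < p ^ s := NeZero.pos _
  have hn : 0 < m * p ^ s := Nat.mul_pos hm hq
  set ζ : Ln K (m * p ^ s) := ⟨zt (m * p ^ s), zt_mem K _⟩ with hζ
  set ω : Ln K (m * p ^ s) := ζ ^ m with hω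
  have hωc : (ω : ℂ) = zt (p ^ s) := by
    rw [hω, hζ]
    simpa using zt_mul_pow m (p ^ s) hm hq
  have hωp : IsPrimitiveRoot ω (p ^ s) := by
    refine IsPrimitiveRoot.of_map_of_injective (f := (Ln K (m * p ^ s)).val) ?_
      (Ln K (m * p ^ s)).val.injective
    show IsPrimitiveRoot (ω : ℂ) (p ^ s)
    rw [hωc]
    exact zt_pow _ hq.ne'
  have hσ : ∀ b : ZMod (p ^ s), ∃ σ : Ln K (m * p ^ s) ≃ₐ[ℚ] Ln K (m * p ^ s),
      (∀ x : Ln K (m * p ^ s), (x : ℂ) ∈ K → σ x = x) ∧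
      ∀ z : Ln K (m * p ^ s), (z : ℂ) = zt (m * p ^ s) →
        ((σ z : Ln K (m * p ^ s)) : ℂ) = zt (m * p ^ s) ^ (1 + m * b.val) := by
    intro b
    refine hgal m (m * p ^ s) hn hfm (dvd_mul_right m _) (1 + m * b.val)
      (famB_coprime m b.val p s hpm) ?_
    simp [Nat.ModEq]
  choose σ hσ1 hσ2 using hσ
  set a : Ln K (m * p ^ s) := ⟨α, (rn_sub K hn hα).1⟩ with ha
  obtain ⟨F, -, hFT, hFm⟩ := fam_mk (Ln K (m * p ^ s)) (p ^ s) univ
    (by rw [card_univ, ZMod.card]; omega) σ a htp ω hωp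
  obtain ⟨t, ht1, ht2, ht3⟩ := decompB K m (p ^ s) hm α hα
  set τ : ZMod (p ^ s) → Ln K (m * p ^ s) := fun j =>
    (1 / (((univ : Finset (ZMod (p ^ s))).card : Ln K (m * p ^ s)))) *
      ∑ b ∈ univ, σ b a * ω ^ (j * b).val with hτ
  have hτt : ∀ j, ((τ j : Ln K (m * p ^ s)) : ℂ) = t (-j) := by
    intro j
    have h1 : ((τ j : Ln K (m * p ^ s)) : ℂ) = (1 / ((p ^ s : ℕ) : ℂ)) *
        ∑ b : ZMod (p ^ s), ((σ b a : Ln K (m * p ^ s)) : ℂ) * (ω : ℂ) ^ (j * b).val := by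
      rw [hτ]
      simp only [card_univ, ZMod.card]
      push_cast
      rfl
    rw [h1]
    have h2 : ∀ b : ZMod (p ^ s), ((σ b a : Ln K (m * p ^ s)) : ℂ) * (ω : ℂ) ^ (j * b).val =
        ∑ i, t i * (zt (p ^ s) ^ (b.val * i.val) * zt (p ^ s) ^ (j * b).val) := by
      intro b
      rw [ht2 b.val (σ b) (hσ1 b) (hσ2 b) a rfl, hωc, Finset.sum_mul]
      exact Finset.sum_congr rfl fun i _ => by ring
    rw [Finset.sum_congr rfl fun b _ => h2 b, Finset.sum_comm]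
    have h3 : ∀ i : ZMod (p ^ s), ∑ b : ZMod (p ^ s),
        t i * (zt (p ^ s) ^ (b.val * i.val) * zt (p ^ s) ^ (j * b).val) =
        if i = -j then t i * ((p ^ s : ℕ) : ℂ) else 0 := by
      intro i
      rw [← Finset.mul_sum, famB_char_sum]
      split_ifs <;> simp
    rw [Finset.sum_congr rfl fun i _ => h3 i, Finset.sum_ite_eq' univ (-j), if_pos (mem_univ _)]
    have h4 : ((p ^ s : ℕ) : ℂ) ≠ 0 := by exact_mod_cast hq.ne'
    field_simp
  have hTτ : ∀ φ j, F.T φ j = φ (τ j) := fun φ j => hFT φ j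
  refine ⟨F, fun j => ?_, ?_, hFm⟩
  · by_cases h0 : t (-j) = 0
    · left
      intro φ
      rw [hTτ]
      have h1 : τ j = 0 := by
        apply Subtype.ext
        rw [hτt j, h0]
        rfl
      rw [h1, map_zero]
    · right
      have h1 : τ j ≠ 0 := by
        intro h2
        apply h0
        rw [← hτt j, h2]
        rfl
      refine ⟨fun φ => ?_, ?_⟩
      · rw [hTτ]
        exact (map_ne_zero_iff φ φ.injective).2 h1
      · have h2 := log_norm_nonneg (Ln K (m * p ^ s)) (τ j)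
          (by rw [hτt j]; exact (rn_sub K hn (ht1 _)).2) h1
        simpa only [hTτ] using h2
  · by_contra hcon
    push Not at hcon
    apply hnot
    refine ht3 p hp (dvd_pow_self p (by omega)) fun j hj => ?_
    have h1 : addOrderOf (-j) = p ^ s := by
      rw [addOrderOf_neg]
      conv_lhs => rw [← ZMod.natCast_zmod_val j]
      rw [ZMod.addOrderOf_coe _ hq.ne']
      have h2 : (p ^ s).gcd j.val = 1 :=
        Nat.Coprime.pow_left s ((Nat.Prime.coprime_iff_not_dvd hp).2 hj)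
      rw [h2, Nat.div_one]
    have h3 : ((τ (-j) : Ln K (m * p ^ s)) : ℂ) = 0 :=
      (hTτ (Ln K (m * p ^ s)).val (-j)).symm.trans (hcon (-j) h1 (Ln K (m * p ^ s)).val)
    rwa [hτt, neg_neg] at h3

end Pool.Agent.CYC
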