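import Mathlib
import Pool.Agent.Lib.MP_8ca0c8_nt_CYC.Defs

/-! Project CYC (MP_8ca0c8_nt), module FEJ: Fejer kernel. -/

namespace Pool.Agent.CYC

open Finset

open scoped ComplexConjugate in
/-- the product of a power and a conjugate power of a unimodular number -/
theorem fejer_pow_ge {z : ℂ} (hz : ‖z‖ = 1) {k l : ℕ} (h : l ≤ k) :
    z ^ k * conj z ^ l = z ^ (k - l) := by
  have h1 : z * conj z = 1 := by
    rw [Complex.mul_conj, Complex.normSq_eq_norm_sq, hz]
    norm_num
  obtain ⟨r, rfl⟩ := Nat.exists_eq_add_of_le h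
  rw [Nat.add_sub_cancel_left, pow_add, mul_comm (z ^ l), mul_assoc, ← mul_pow, h1, one_pow,
    mul_one]

open scoped ComplexConjugate in
theorem fejer_pow_le {z : ℂ} (hz : ‖z‖ = 1) {k l : ℕ} (h : k ≤ l) :
    z ^ k * conj z ^ l = conj (z ^ (l - k)) := by
  have h1 : ‖conj z‖ = 1 := by rw [Complex.norm_conj, hz]
  have h2 := fejer_pow_ge h1 h
  rw [Complex.conj_conj] at h2
  rw [mul_comm, h2, map_pow]

/-- there is a unimodular number that turns `F` into a nonpositive number -/
theorem fejer_unimodular (F : ℂ) : ∃ c : ℂ, ‖c‖ = 1 ∧ c * F = -(‖F‖ : ℂ) := by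
  by_cases h : F = 0
  · exact ⟨1, by simp, by simp [h]⟩
  · have h1 : (‖F‖ : ℂ) ≠ 0 := by
      rw [Ne, Complex.ofReal_eq_zero, norm_eq_zero]
      exact h
    refine ⟨-(‖F‖ : ℂ) / F, ?_, ?_⟩
    · rw [norm_div, norm_neg, Complex.norm_real, norm_norm, div_self]
      rwa [Ne, norm_eq_zero]
    · rw [div_mul_cancel₀ _ h]

/-- the sum of the indicators of the neighbouring pairs -/
theorem fejer_ind (R : ℕ) (m F s : ℝ) :
    ∑ k ∈ range (R + 1), ∑ l ∈ range (R + 1), ((if k = l then m else 0) -
      (if k = l + 1 then F else 0) - (if l = k + 1 then F else 0) + s) =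
      (R + 1) * m - 2 * R * F + (R + 1) ^ 2 * s := by
  have h1 : ∑ k ∈ range (R + 1), ∑ l ∈ range (R + 1), (if k = l then m else 0) =
      (R + 1) * m := by
    have : ∀ k ∈ range (R + 1), ∑ l ∈ range (R + 1), (if k = l then m else 0) = m := by
      intro k hk
      rw [Finset.sum_ite_eq, if_pos hk]
    rw [Finset.sum_congr rfl this, Finset.sum_const, card_range, nsmul_eq_mul]
    push_cast
    ring
  have h2 : ∑ k ∈ range (R + 1), ∑ l ∈ range (R + 1), (if l = k + 1 then F else 0) =
      R * F := by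
    have : ∀ k ∈ range (R + 1), ∑ l ∈ range (R + 1), (if l = k + 1 then F else 0) =
        if k < R then F else 0 := by
      intro k _
      rw [Finset.sum_ite_eq']
      simp only [mem_range, Nat.add_lt_add_iff_right]
    rw [Finset.sum_congr rfl this, Finset.sum_range_succ, if_neg (lt_irrefl R), add_zero]
    have h3 : ∀ k ∈ range R, (if k < R then F else 0) = F := by
      intro k hk
      rw [if_pos (mem_range.1 hk)]
    rw [Finset.sum_congr rfl h3, Finset.sum_const, card_range, nsmul_eq_mul]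
  have h3 : ∑ k ∈ range (R + 1), ∑ l ∈ range (R + 1), (if k = l + 1 then F else 0) =
      R * F := by
    rw [Finset.sum_comm]
    exact h2
  have h4 : ∑ k ∈ range (R + 1), ∑ l ∈ range (R + 1), s = (R + 1) ^ 2 * s := by
    simp only [Finset.sum_const, card_range, nsmul_eq_mul]
    push_cast
    ring
  simp only [Finset.sum_add_distrib, Finset.sum_sub_distrib]
  rw [h1, h2, h3, h4]
  ring

open scoped ComplexConjugate in
theorem fejer {q : ℕ} [NeZero q] (ψ : AddChar (ZMod q) ℂ) (w : ZMod q → ℝ) (hw : ∀ a, 0 ≤ w a)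
    (j : ZMod q) (R : ℕ) (s : ℝ) (hs : 0 ≤ s)
    (hR : ∀ r : ℕ, 2 ≤ r → r ≤ R → ‖FT ψ w (r * j)‖ ≤ s) :
    2 * R * ‖FT ψ w j‖ ≤ (R + 1) * (∑ a, w a) + (R + 1) ^ 2 * s := by
  obtain ⟨c, hc, hcF⟩ := fejer_unimodular (FT ψ w j)
  set z : ZMod q → ℂ := fun a => c * ψ (j * a) with hzdef
  have hz : ∀ a, ‖z a‖ = 1 := fun a => by
    rw [hzdef]
    simp only [norm_mul, norm_psi, hc, mul_one]
  set G : ℕ → ℂ := fun r => ∑ a, (w a : ℂ) * z a ^ r with hG
  have hGr : ∀ r, G r = c ^ r * FT ψ w (r * j) := by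
    intro r
    simp only [hG, FT, Finset.mul_sum]
    refine Finset.sum_congr rfl fun a _ => ?_
    have h1 : ψ ((r : ZMod q) * j * a) = ψ (j * a) ^ r := by
      rw [mul_assoc, ← nsmul_eq_mul, AddChar.map_nsmul_eq_pow]
    rw [h1, hzdef]
    simp only [mul_pow]
    ring
  have hG0 : G 0 = ((∑ a, w a : ℝ) : ℂ) := by
    simp [hG]
  have hG1 : G 1 = -(‖FT ψ w j‖ : ℂ) := by
    rw [hGr 1, pow_one, Nat.cast_one, one_mul, hcF]
  have hGn : ∀ r, 2 ≤ r → r ≤ R → (G r).re ≤ s := by
    intro r h2 h3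
    refine (Complex.re_le_norm _).trans ?_
    rw [hGr r, norm_mul, norm_pow, hc, one_pow, one_mul]
    exact hR r h2 h3
  -- the terms
  have hV : ∀ k l : ℕ, (∑ a, (w a : ℂ) * (z a ^ k * conj (z a) ^ l)).re =
      (G (max k l - min k l)).re := by
    intro k l
    rcases le_total l k with h | h
    · rw [max_eq_left h, min_eq_right h, hG]
      simp only
      congr 1
      exact Finset.sum_congr rfl fun a _ => by rw [fejer_pow_ge (hz a) h]
    · rw [max_eq_right h, min_eq_left h]
      have h1 : ∑ a, (w a : ℂ) * (z a ^ k * conj (z a) ^ l) = conj (G (l - k)) := by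
        rw [hG]
        simp only [map_sum, map_mul, Complex.conj_ofReal]
        exact Finset.sum_congr rfl fun a _ => by rw [fejer_pow_le (hz a) h]
      rw [h1, Complex.conj_re]
  have hT : ∀ k ∈ range (R + 1), ∀ l ∈ range (R + 1),
      (∑ a, (w a : ℂ) * (z a ^ k * conj (z a) ^ l)).re ≤
      (if k = l then (∑ a, w a) else 0) - (if k = l + 1 then ‖FT ψ w j‖ else 0) -
        (if l = k + 1 then ‖FT ψ w j‖ else 0) + s := by
    intro k hk l hl
    rw [hV k l]
    rw [mem_range] at hk hl
    by_cases h0 : k = l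
    · rw [if_pos h0, if_neg (by omega), if_neg (by omega)]
      have h1 : max k l - min k l = 0 := by omega
      rw [h1, hG0, Complex.ofReal_re]
      linarith
    · by_cases h1 : k = l + 1
      · rw [if_neg h0, if_pos h1, if_neg (by omega)]
        have h2 : max k l - min k l = 1 := by omega
        rw [h2, hG1, Complex.neg_re, Complex.ofReal_re]
        linarith
      · by_cases h2 : l = k + 1
        · rw [if_neg h0, if_neg h1, if_pos h2]
          have h3 : max k l - min k l = 1 := by omega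
          rw [h3, hG1, Complex.neg_re, Complex.ofReal_re]
          linarith
        · rw [if_neg h0, if_neg h1, if_neg h2]
          have := hGn (max k l - min k l) (by omega) (by omega)
          linarith
  have hpos : 0 ≤ ∑ k ∈ range (R + 1), ∑ l ∈ range (R + 1),
      (∑ a, (w a : ℂ) * (z a ^ k * conj (z a) ^ l)).re := by
    have h1 : ∑ k ∈ range (R + 1), ∑ l ∈ range (R + 1),
        (∑ a, (w a : ℂ) * (z a ^ k * conj (z a) ^ l)).re =
        ∑ a, w a * ‖∑ k ∈ range (R + 1), z a ^ k‖ ^ 2 := by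
      have h2 : ∀ a, ((w a * ‖∑ k ∈ range (R + 1), z a ^ k‖ ^ 2 : ℝ) : ℂ) =
          ∑ k ∈ range (R + 1), ∑ l ∈ range (R + 1), (w a : ℂ) * (z a ^ k * conj (z a) ^ l) := by
        intro a
        rw [← Complex.normSq_eq_norm_sq, Complex.ofReal_mul, ← Complex.mul_conj, map_sum,
          Finset.sum_mul_sum, Finset.mul_sum]
        refine Finset.sum_congr rfl fun k _ => ?_
        rw [Finset.mul_sum]
        refine Finset.sum_congr rfl fun l _ => ?_
        rw [map_pow]
      have h3 : (((∑ a, w a * ‖∑ k ∈ range (R + 1), z a ^ k‖ ^ 2 : ℝ)) : ℂ) =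
          ∑ k ∈ range (R + 1), ∑ l ∈ range (R + 1),
            ∑ a, (w a : ℂ) * (z a ^ k * conj (z a) ^ l) := by
        rw [Complex.ofReal_sum, Finset.sum_congr rfl fun a _ => h2 a, Finset.sum_comm]
        exact Finset.sum_congr rfl fun k _ => Finset.sum_comm
      have h4 := congrArg Complex.re h3
      rw [Complex.ofReal_re] at h4
      rw [h4, Complex.re_sum]
      exact Finset.sum_congr rfl fun k _ => (Complex.re_sum _ _).symm
    rw [h1]
    exact Finset.sum_nonneg fun a _ => mul_nonneg (hw a) (by positivity)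
  have hfin := Finset.sum_le_sum fun k hk => Finset.sum_le_sum fun l hl => hT k hk l hl
  rw [fejer_ind] at hfin
  linarith

end Pool.Agent.CYC
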