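import Mathlib
import Pool.Agent.Lib.MP_8ca0c8_nt_CYC.Fejer

/-! Project CYC (MP_8ca0c8_nt), module FEJCASE: sparse support. -/

namespace Pool.Agent.CYC

open Finset

theorem fejer_case (ε : ℝ) (hε : 0 < ε) : ∃ (R : ℕ) (k0 : ℝ), 2 ≤ R ∧ 0 < k0 ∧
    ∀ {Ω : Type} [Fintype Ω] {q : ℕ} [NeZero q] (F : Fam Ω q) (j : ZMod q) (D : Ω → ℂ),
      (∀ r : ℕ, 2 ≤ r → r ≤ R → ∀ φ, ‖F.T φ (r * j)‖ ≤ k0 * F.m φ) → (∀ φ, D φ ≠ 0) →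
      -k0 * Fintype.card Ω ≤ ∑ φ, Real.log ‖D φ‖ →
      (∀ φ, ‖D φ‖ ≤ ‖F.T φ j‖ + k0 * F.m φ) →
      (2 - ε) * Fintype.card Ω ≤ ∑ φ, F.m φ := by
  obtain ⟨R, hR2, hRε⟩ : ∃ R : ℕ, 2 ≤ R ∧ 4 ≤ ((R : ℝ) + 1) * ε := by
    refine ⟨⌈4 / ε⌉₊ + 2, by omega, ?_⟩
    have h1 : 4 / ε ≤ (⌈4 / ε⌉₊ : ℝ) := Nat.le_ceil _
    have h2 : 4 / ε ≤ (((⌈4 / ε⌉₊ + 2 : ℕ) : ℝ) + 1) := by
      push_cast
      linarith
    rwa [div_le_iff₀ hε] at h2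
  have hR : (2 : ℝ) ≤ R := by exact_mod_cast hR2
  set k0 : ℝ := 1 / (4 * ((R : ℝ) + 1) ^ 2) with hk0
  have hk0pos : 0 < k0 := by positivity
  have hk0a : k0 * ((R : ℝ) + 1) ^ 2 = 1 / 4 := by
    rw [hk0]
    field_simp
  have hk0b : k0 * R ≤ 1 / 8 := by
    have h1 : (R : ℝ) * 2 ≤ ((R : ℝ) + 1) ^ 2 := by nlinarith
    have h2 := mul_le_mul_of_nonneg_left h1 hk0pos.le
    linarith
  refine ⟨R, k0, hR2, hk0pos, ?_⟩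
  intro Ω _ q _ F j D hr hD hlog hle
  have hcard : (0 : ℝ) ≤ Fintype.card Ω := Nat.cast_nonneg _
  by_cases hm : 2 * (Fintype.card Ω : ℝ) ≤ ∑ φ, F.m φ
  · have := mul_nonneg hε.le hcard
    linarith
  push Not at hm
  have h1 : ∀ φ, 2 * R * ‖F.T φ j‖ ≤ (R + 1) * F.m φ + (R + 1) ^ 2 * (k0 * F.m φ) := fun φ =>
    fejer (F.ψ φ) (F.w φ) (F.w_nonneg φ) j R (k0 * F.m φ)
      (mul_nonneg hk0pos.le (F.m_pos φ).le) fun r hr1 hr2 => hr r hr1 hr2 φ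
  have h2 : ∀ φ, 1 + Real.log ‖D φ‖ ≤ ‖D φ‖ := fun φ => by
    have := Real.log_le_sub_one_of_pos (norm_pos_iff.mpr (hD φ))
    linarith
  have h3 : (Fintype.card Ω : ℝ) + ∑ φ, Real.log ‖D φ‖ ≤ ∑ φ, ‖D φ‖ := by
    have := Finset.sum_le_sum fun φ (_ : φ ∈ (univ : Finset Ω)) => h2 φ
    rwa [Finset.sum_add_distrib, Finset.sum_const, Finset.card_univ, nsmul_eq_mul, mul_one] at this
  have h4 : ∑ φ, 2 * R * ‖D φ‖ ≤ ∑ φ, ((R + 1) * F.m φ + (R + 1) ^ 2 * (k0 * F.m φ) +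
      2 * R * (k0 * F.m φ)) := Finset.sum_le_sum fun φ _ => by
    have := mul_le_mul_of_nonneg_left (hle φ) (by positivity : (0 : ℝ) ≤ 2 * R)
    linarith [h1 φ]
  rw [← Finset.mul_sum] at h4
  have h5 : ∑ φ, ((R + 1) * F.m φ + (R + 1) ^ 2 * (k0 * F.m φ) + 2 * R * (k0 * F.m φ)) =
      ((R + 1) + (R + 1) ^ 2 * k0 + 2 * R * k0) * ∑ φ, F.m φ := by
    rw [Finset.mul_sum]
    exact Finset.sum_congr rfl fun φ _ => by ring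
  rw [h5] at h4
  set S := ∑ φ, F.m φ with hS
  set C : ℝ := (Fintype.card Ω : ℝ) with hC
  have h6 : (1 - k0) * C ≤ ∑ φ, ‖D φ‖ := by linarith
  have h7 : 2 * R * ((1 - k0) * C) ≤ ((R + 1) + (R + 1) ^ 2 * k0 + 2 * R * k0) * S :=
    (mul_le_mul_of_nonneg_left h6 (by positivity)).trans h4
  have h8 : ((R + 1) + (R + 1) ^ 2 * k0 + 2 * R * k0) * S ≤ (R + 1) * S + 2 * (1 / 4 + 1 / 4) * C := by
    have e1 : ((R : ℝ) + 1) ^ 2 * k0 = 1 / 4 := by linarith [hk0a]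
    have e2 : 2 * (R : ℝ) * k0 ≤ 1 / 4 := by linarith [hk0b]
    have e3 : 0 ≤ S := Finset.sum_nonneg fun φ _ => (F.m_pos φ).le
    have e4 : ((R : ℝ) + 1) ^ 2 * k0 + 2 * R * k0 ≤ 1 / 4 + 1 / 4 := by linarith
    have e5 := mul_le_mul_of_nonneg_right e4 e3
    have e6 : (1 / 4 + 1 / 4 : ℝ) * S ≤ (1 / 4 + 1 / 4) * (2 * C) :=
      mul_le_mul_of_nonneg_left hm.le (by norm_num)
    nlinarith
  have h9 : 2 * R * C - 1 / 4 * C ≤ 2 * R * ((1 - k0) * C) := by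
    have := mul_le_mul_of_nonneg_right hk0b hcard
    nlinarith
  have h10 : (2 * R - 5 / 4) * C ≤ (R + 1) * S := by linarith
  have h11 : (R + 1) * ((2 - ε) * C) ≤ (2 * R - 5 / 4) * C := by
    have h12 : ((R : ℝ) + 1) * (2 - ε) ≤ 2 * R - 5 / 4 := by nlinarith
    calc (R + 1) * ((2 - ε) * C) = ((R : ℝ) + 1) * (2 - ε) * C := by ring
      _ ≤ _ := mul_le_mul_of_nonneg_right h12 hcard
  exact le_of_mul_le_mul_left (h11.trans h10) (by positivity : (0 : ℝ) < (R : ℝ) + 1)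

end Pool.Agent.CYC
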