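import Mathlib
import Pool.Agent.Lib.MP_8ca0c8_nt_CYC.Defs

/-! Project CYC (MP_8ca0c8_nt), module PP: large prime power factors. -/

namespace Pool.Agent.CYC

open Finset

theorem prime_power_large (P : ℕ) : ∃ N0 : ℕ, ∀ n : ℕ, N0 ≤ n → 0 < n →
    ∃ p : ℕ, p.Prime ∧ P ≤ p ^ n.factorization p := by
  refine ⟨P ^ P + 1, fun n hn h0 => ?_⟩
  by_contra hcon
  push Not at hcon
  have h2 : 0 < P := lt_of_le_of_lt (Nat.zero_le _) (hcon 2 Nat.prime_two)
  have hsub : n.primeFactors ⊆ Finset.range P := by
    intro p hp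
    have hpp := Nat.prime_of_mem_primeFactors hp
    have h1 : 1 ≤ n.factorization p :=
      (hpp.factorization_pos_of_dvd h0.ne' (Nat.dvd_of_mem_primeFactors hp))
    rw [Finset.mem_range]
    calc p = p ^ 1 := (pow_one p).symm
      _ ≤ p ^ n.factorization p := Nat.pow_le_pow_right hpp.pos h1
      _ < P := hcon p hpp
  have hprod : n = ∏ p ∈ n.primeFactors, p ^ n.factorization p := by
    conv_lhs => rw [← Nat.prod_factorization_pow_eq_self h0.ne']
    rfl
  have hle : n ≤ P ^ n.primeFactors.card := by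
    conv_lhs => rw [hprod]
    exact Finset.prod_le_pow_card _ _ _ fun p hp =>
      (hcon p (Nat.prime_of_mem_primeFactors hp)).le
  have hcard : n.primeFactors.card ≤ P := by
    have := Finset.card_le_card hsub
    rwa [Finset.card_range] at this
  have hfin : n ≤ P ^ P := hle.trans (Nat.pow_le_pow_right h2 hcard)
  omega

end Pool.Agent.CYC
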