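import Mathlib
import Pool.Agent.Lib.MP_8ca0c8_nt_CYC.Defs

/-! Project CYC (MP_8ca0c8_nt), module GOOD: a good place. -/

namespace Pool.Agent.CYC

open Finset

theorem good_log_le {x c : ℝ} (hx : 0 < x) (hc : 0 < c) :
    Real.log x ≤ Real.log c + x / c := by
  have h1 := Real.log_le_sub_one_of_pos (div_pos hx hc)
  rw [Real.log_div hx.ne' hc.ne'] at h1
  linarith

theorem good_place (N : ℕ) : ∃ (M1 d0 : ℝ), 0 < M1 ∧ 0 < d0 ∧
    ∀ {Ω : Type} [Fintype Ω] [Nonempty Ω] {q : ℕ} [NeZero q] (F : Fam Ω q)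
      (J : Finset (ZMod q)), J.card ≤ N → ∑ φ, F.m φ ≤ 2 * Fintype.card Ω →
      (∀ i ∈ J, ∀ j ∈ J, i ≠ j → ∀ φ, F.T φ i ≠ F.T φ j) →
      (∀ i ∈ J, ∀ j ∈ J, i ≠ j → 0 ≤ ∑ φ, Real.log ‖F.T φ i - F.T φ j‖) →
      ∃ φ, F.m φ ≤ M1 ∧ ∀ i ∈ J, ∀ j ∈ J, i ≠ j → d0 ≤ ‖F.T φ i - F.T φ j‖ := by
  set P : ℝ := ((max N 1 : ℕ) : ℝ) ^ 2 with hP
  have hP1 : 1 ≤ P := by
    have h1 : (1 : ℝ) ≤ ((max N 1 : ℕ) : ℝ) := by exact_mod_cast le_max_right N 1
    nlinarith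
  have hc0 : 0 ≤ Real.log (4 * P) := Real.log_nonneg (by linarith)
  set M1 : ℝ := 4 + 2 * P * Real.log (4 * P) with hM1
  have hM4 : 4 ≤ M1 := by
    have : 0 ≤ 2 * P * Real.log (4 * P) := by positivity
    linarith
  have hM0 : 0 ≤ Real.log (2 * M1) := Real.log_nonneg (by linarith)
  refine ⟨M1, Real.exp (-2 - P * Real.log (2 * M1)), by linarith, Real.exp_pos _, ?_⟩
  intro Ω _ _ q _ F J hJ hm hne hsum
  have hoff : ∀ p ∈ J.offDiag, p.1 ∈ J ∧ p.2 ∈ J ∧ p.1 ≠ p.2 := fun p hp => mem_offDiag.1 hp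
  have hcard : ((J.offDiag).card : ℝ) ≤ P := by
    have h1 : (J.offDiag).card ≤ (max N 1) ^ 2 := by
      rw [offDiag_card]
      calc J.card * J.card - J.card ≤ J.card * J.card := Nat.sub_le _ _
        _ ≤ (max N 1) * (max N 1) := by
          have h2 : J.card ≤ max N 1 := hJ.trans (le_max_left _ _)
          exact Nat.mul_le_mul h2 h2
        _ = (max N 1) ^ 2 := (sq _).symm
    rw [hP]
    exact_mod_cast h1
  -- a place with a large value of the sum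
  obtain ⟨φ, hφ⟩ : ∃ φ, -2 ≤ (∑ p ∈ J.offDiag, Real.log ‖F.T φ p.1 - F.T φ p.2‖) - F.m φ := by
    by_contra hcon
    push Not at hcon
    have h1 : ∑ φ, ((∑ p ∈ J.offDiag, Real.log ‖F.T φ p.1 - F.T φ p.2‖) - F.m φ) <
        ∑ _φ : Ω, (-2 : ℝ) :=
      Finset.sum_lt_sum_of_nonempty univ_nonempty fun φ _ => hcon φ
    rw [Finset.sum_sub_distrib, Finset.sum_comm] at h1
    have h2 : 0 ≤ ∑ p ∈ J.offDiag, ∑ φ, Real.log ‖F.T φ p.1 - F.T φ p.2‖ :=
      Finset.sum_nonneg fun p hp => hsum _ (hoff p hp).1 _ (hoff p hp).2.1 (hoff p hp).2.2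
    rw [Finset.sum_const, Finset.card_univ, nsmul_eq_mul] at h1
    linarith
  have hmpos := F.m_pos φ
  have hterm : ∀ p ∈ J.offDiag, 0 < ‖F.T φ p.1 - F.T φ p.2‖ ∧
      ‖F.T φ p.1 - F.T φ p.2‖ ≤ 2 * F.m φ := by
    intro p hp
    refine ⟨?_, ?_⟩
    · rw [norm_pos_iff, sub_ne_zero]
      exact hne _ (hoff p hp).1 _ (hoff p hp).2.1 (hoff p hp).2.2 φ
    · refine (norm_sub_le _ _).trans ?_
      have h1 := F.norm_T_le φ p.1
      have h2 := F.norm_T_le φ p.2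
      linarith
  have hmM : F.m φ ≤ M1 := by
    have h1 : ∀ p ∈ J.offDiag, Real.log ‖F.T φ p.1 - F.T φ p.2‖ ≤
        Real.log (4 * P) + F.m φ / (2 * P) := by
      intro p hp
      refine (good_log_le (hterm p hp).1 (show 0 < 4 * P by linarith)).trans ?_
      have h2 : ‖F.T φ p.1 - F.T φ p.2‖ / (4 * P) ≤ 2 * F.m φ / (4 * P) :=
        div_le_div_of_nonneg_right (hterm p hp).2 (by linarith)
      have h3 : 2 * F.m φ / (4 * P) = F.m φ / (2 * P) := by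
        field_simp
        ring
      linarith
    have h2 := Finset.sum_le_sum h1
    rw [Finset.sum_const, nsmul_eq_mul] at h2
    have h3 : 0 ≤ Real.log (4 * P) + F.m φ / (2 * P) := by positivity
    have h4 : ((J.offDiag).card : ℝ) * (Real.log (4 * P) + F.m φ / (2 * P)) ≤
        P * (Real.log (4 * P) + F.m φ / (2 * P)) := mul_le_mul_of_nonneg_right hcard h3
    have h5 : P * (Real.log (4 * P) + F.m φ / (2 * P)) = P * Real.log (4 * P) + F.m φ / 2 := by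
      field_simp
    rw [hM1]
    linarith
  refine ⟨φ, hmM, fun i hi j hj hij => ?_⟩
  have hpm : (i, j) ∈ J.offDiag := mem_offDiag.2 ⟨hi, hj, hij⟩
  have h1 : ∑ p ∈ J.offDiag, Real.log ‖F.T φ p.1 - F.T φ p.2‖ =
      Real.log ‖F.T φ i - F.T φ j‖ +
        ∑ p ∈ J.offDiag.erase (i, j), Real.log ‖F.T φ p.1 - F.T φ p.2‖ :=
    (Finset.add_sum_erase _ (fun p : ZMod q × ZMod q => Real.log ‖F.T φ p.1 - F.T φ p.2‖) hpm).symm
  have h2 : ∑ p ∈ J.offDiag.erase (i, j), Real.log ‖F.T φ p.1 - F.T φ p.2‖ ≤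
      P * Real.log (2 * M1) := by
    refine (Finset.sum_le_card_nsmul _ _ (Real.log (2 * M1)) fun p hp => ?_).trans ?_
    · have hp' := Finset.mem_of_mem_erase hp
      exact Real.log_le_log (hterm p hp').1 ((hterm p hp').2.trans (by linarith))
    · rw [nsmul_eq_mul]
      refine mul_le_mul_of_nonneg_right (le_trans ?_ hcard) hM0
      exact_mod_cast Finset.card_le_card (Finset.erase_subset _ _)
  have h3 : -2 - P * Real.log (2 * M1) ≤ Real.log ‖F.T φ i - F.T φ j‖ := by linarith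
  calc Real.exp (-2 - P * Real.log (2 * M1)) ≤ Real.exp (Real.log ‖F.T φ i - F.T φ j‖) :=
        Real.exp_le_exp.2 h3
    _ = ‖F.T φ i - F.T φ j‖ := Real.exp_log (hterm (i, j) hpm).1

end Pool.Agent.CYC
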