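import Mathlib
import Pool.Agent.Lib.MP_8ca0c8_nt_CYC.Defs

/-! Project CYC (MP_8ca0c8_nt), module VAND: Vandermonde bound. -/

namespace Pool.Agent.CYC

open Finset

/-- norm of a Vandermonde determinant -/
theorem vand_det_le {N : ℕ} (v : Fin N → ℂ) :
    ‖(Matrix.vandermonde v).det‖ ≤ (N.factorial : ℝ) * ∏ i, (max 1 ‖v i‖) ^ (N - 1) := by
  rw [Matrix.det_apply]
  refine (norm_sum_le _ _).trans ?_
  have h1 : ∀ σ ∈ (Finset.univ : Finset (Equiv.Perm (Fin N))),
      ‖Equiv.Perm.sign σ • ∏ i, Matrix.vandermonde v (σ i) i‖ ≤ ∏ i, (max 1 ‖v i‖) ^ (N - 1) := by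
    intro σ _
    have hs : ‖Equiv.Perm.sign σ • ∏ i, Matrix.vandermonde v (σ i) i‖ =
        ‖∏ i, Matrix.vandermonde v (σ i) i‖ := by
      rcases Int.units_eq_one_or (Equiv.Perm.sign σ) with h | h
      · rw [h, one_smul]
      · rw [h, Units.neg_smul, one_smul, norm_neg]
    rw [hs, norm_prod, ← Equiv.prod_comp σ (fun i => (max 1 ‖v i‖) ^ (N - 1))]
    refine Finset.prod_le_prod (fun i _ => norm_nonneg _) fun i _ => ?_
    rw [Matrix.vandermonde_apply, norm_pow]
    have hm : (1 : ℝ) ≤ max 1 ‖v (σ i)‖ := le_max_left _ _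
    calc ‖v (σ i)‖ ^ (i : ℕ) ≤ (max 1 ‖v (σ i)‖) ^ (i : ℕ) :=
          pow_le_pow_left₀ (norm_nonneg _) (le_max_right _ _) _
      _ ≤ (max 1 ‖v (σ i)‖) ^ (N - 1) := pow_le_pow_right₀ hm (by have := i.isLt; omega)
  refine (Finset.sum_le_sum h1).trans (le_of_eq ?_)
  rw [Finset.sum_const, Finset.card_univ, Fintype.card_perm, Fintype.card_fin, nsmul_eq_mul]

/-- the logarithmic form for an injective family on `Fin N` -/
theorem vand_fin {N : ℕ} (v : Fin N → ℂ) (hv : Function.Injective v) :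
    ∑ i, ∑ j ∈ Finset.Ioi i, Real.log ‖v j - v i‖ ≤ Real.log (N.factorial) +
      (N - 1 : ℕ) * ∑ i, Real.log (max 1 ‖v i‖) := by
  have hne : ∀ i : Fin N, ∀ j ∈ Finset.Ioi i, ‖v j - v i‖ ≠ 0 := by
    intro i j hj
    rw [norm_ne_zero_iff, sub_ne_zero]
    intro h
    have := hv h
    rw [Finset.mem_Ioi] at hj
    exact absurd this (ne_of_gt hj)
  have hdet : ‖(Matrix.vandermonde v).det‖ = ∏ i, ∏ j ∈ Finset.Ioi i, ‖v j - v i‖ := by
    rw [Matrix.det_vandermonde, norm_prod]
    exact Finset.prod_congr rfl fun i _ => norm_prod _ _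
  have hlog : ∑ i, ∑ j ∈ Finset.Ioi i, Real.log ‖v j - v i‖ =
      Real.log ‖(Matrix.vandermonde v).det‖ := by
    rw [hdet, Real.log_prod]
    · exact Finset.sum_congr rfl fun i _ => (Real.log_prod (hne i)).symm
    · intro i _
      exact Finset.prod_ne_zero_iff.mpr (hne i)
  have hpos : 0 < ‖(Matrix.vandermonde v).det‖ := by
    rw [hdet]
    exact Finset.prod_pos fun i _ => Finset.prod_pos fun j hj =>
      lt_of_le_of_ne (norm_nonneg _) (Ne.symm (hne i j hj))
  have hmp : ∀ i : Fin N, (0 : ℝ) < max 1 ‖v i‖ := fun i =>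
    lt_of_lt_of_le one_pos (le_max_left _ _)
  rw [hlog]
  refine (Real.log_le_log hpos (vand_det_le v)).trans (le_of_eq ?_)
  rw [Real.log_mul (by positivity)
    (Finset.prod_ne_zero_iff.mpr fun i _ => pow_ne_zero _ (hmp i).ne'),
    Real.log_prod fun i _ => pow_ne_zero _ (hmp i).ne']
  congr 1
  rw [Finset.mul_sum]
  exact Finset.sum_congr rfl fun i _ => by rw [Real.log_pow]

theorem vand_log {ι : Type} [DecidableEq ι] (J : Finset ι) (z : ι → ℂ) (hz : Set.InjOn z J)
    (B : ℝ) (hB : 0 < B) :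
    ∑ x ∈ J.offDiag, Real.log ‖z x.1 - z x.2‖ ≤ 2 * Real.log (J.card.factorial) +
      J.card * (J.card - 1) * Real.log B +
      2 * (J.card - 1) * ∑ i ∈ J, Real.log (max 1 (‖z i‖ / B)) := by
  classical
  rcases Nat.eq_zero_or_pos J.card with h0 | h0
  · have : J = ∅ := Finset.card_eq_zero.mp h0
    subst this
    simp
  set N := J.card with hN
  let e : Fin N ≃ J := J.equivFin.symm
  have hsum : ∀ h : ι → ℝ, ∑ i ∈ J, h i = ∑ k : Fin N, h (e k) := by
    intro h
    rw [← Finset.sum_coe_sort J, ← Equiv.sum_comp e]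
  let v : Fin N → ℂ := fun k => z (e k) / (B : ℂ)
  have hBc : (B : ℂ) ≠ 0 := by exact_mod_cast hB.ne'
  have hv : Function.Injective v := by
    intro k l hkl
    have h1 : z (e k) = z (e l) := by
      have := hkl
      simp only [v] at this
      field_simp at this
      exact this
    have h2 := hz (e k).2 (e l).2 h1
    exact e.injective (Subtype.ext h2)
  have hzv : ∀ k l : Fin N, k ≠ l →
      Real.log ‖z (e k) - z (e l)‖ = Real.log ‖v k - v l‖ + Real.log B := by
    intro k l hkl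
    have h1 : z (e k) - z (e l) = (v k - v l) * (B : ℂ) := by
      simp only [v]
      field_simp
    have h2 : ‖v k - v l‖ ≠ 0 := by
      rw [norm_ne_zero_iff, sub_ne_zero]
      exact fun h => hkl (hv h)
    rw [h1, norm_mul, Complex.norm_real, Real.norm_eq_abs, abs_of_pos hB,
      Real.log_mul h2 hB.ne']
  have hoff : ∑ x ∈ J.offDiag, Real.log ‖z x.1 - z x.2‖ =
      ∑ k : Fin N, ∑ l ∈ ({k}ᶜ : Finset (Fin N)), Real.log ‖z (e l) - z (e k)‖ := by
    have h1 : ∑ x ∈ J.offDiag, Real.log ‖z x.1 - z x.2‖ =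
        ∑ i ∈ J, ∑ j ∈ J, if i ≠ j then Real.log ‖z i - z j‖ else 0 := by
      rw [← Finset.sum_product', ← Finset.sum_filter]
      refine Finset.sum_congr ?_ fun _ _ => rfl
      ext x
      simp [Finset.mem_offDiag, and_assoc]
    rw [h1, hsum]
    refine Finset.sum_congr rfl fun k _ => ?_
    rw [hsum, ← Finset.sum_filter]
    refine Finset.sum_congr ?_ fun l _ => ?_
    · ext l
      simp only [Finset.mem_filter, Finset.mem_univ, true_and, Finset.mem_compl,
        Finset.mem_singleton]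
      constructor
      · intro h h'
        exact h (by rw [h'])
      · intro h h'
        exact h (e.injective (Subtype.ext h')).symm
    · rw [norm_sub_rev]
  have hpair := Finset.sum_sum_Ioi_add_eq_sum_sum_off_diag
    (fun l k : Fin N => Real.log ‖z (e l) - z (e k)‖)
  have hmain : ∑ x ∈ J.offDiag, Real.log ‖z x.1 - z x.2‖ =
      2 * ∑ k : Fin N, ∑ l ∈ Finset.Ioi k, Real.log ‖v l - v k‖ +
      (N : ℝ) * (N - 1) * Real.log B := by
    have hcount : ∑ k : Fin N, ∑ l ∈ ({k}ᶜ : Finset (Fin N)), Real.log B =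
        (N : ℝ) * (N - 1) * Real.log B := by
      have : ∀ k : Fin N, ∑ l ∈ ({k}ᶜ : Finset (Fin N)), Real.log B =
          ((N : ℝ) - 1) * Real.log B := by
        intro k
        rw [Finset.sum_const, Finset.card_compl, Finset.card_singleton, Fintype.card_fin,
          nsmul_eq_mul, Nat.cast_sub h0, Nat.cast_one]
      rw [Finset.sum_congr rfl fun k _ => this k, Finset.sum_const, Finset.card_univ,
        Fintype.card_fin, nsmul_eq_mul]
      ring
    have hpair' := Finset.sum_sum_Ioi_add_eq_sum_sum_off_diag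
      (fun l k : Fin N => Real.log ‖v l - v k‖)
    rw [hoff, ← hcount]
    have h2 : ∑ k : Fin N, ∑ l ∈ ({k}ᶜ : Finset (Fin N)), Real.log ‖z (e l) - z (e k)‖ =
        ∑ k : Fin N, ∑ l ∈ ({k}ᶜ : Finset (Fin N)), Real.log ‖v l - v k‖ +
        ∑ k : Fin N, ∑ l ∈ ({k}ᶜ : Finset (Fin N)), Real.log B := by
      rw [← Finset.sum_add_distrib]
      refine Finset.sum_congr rfl fun k _ => ?_
      rw [← Finset.sum_add_distrib]
      refine Finset.sum_congr rfl fun l hl => ?_
      refine hzv l k ?_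
      simpa using hl
    rw [h2, ← hpair', Finset.mul_sum]
    congr 1
    refine Finset.sum_congr rfl fun k _ => ?_
    rw [Finset.mul_sum]
    refine Finset.sum_congr rfl fun l _ => ?_
    rw [norm_sub_rev (v k) (v l)]
    ring
  have hvn : ∀ k : Fin N, ‖v k‖ = ‖z (e k)‖ / B := by
    intro k
    simp only [v]
    rw [norm_div, Complex.norm_real, Real.norm_eq_abs, abs_of_pos hB]
  have hfin := vand_fin v hv
  have hlast : ∑ i ∈ J, Real.log (max 1 (‖z i‖ / B)) = ∑ k : Fin N, Real.log (max 1 ‖v k‖) := by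
    rw [hsum]
    exact Finset.sum_congr rfl fun k _ => by rw [hvn]
  rw [hmain, hlast]
  have hcast : ((N - 1 : ℕ) : ℝ) = (N : ℝ) - 1 := by
    rw [Nat.cast_sub h0, Nat.cast_one]
  rw [hcast] at hfin
  nlinarith [hfin]

end Pool.Agent.CYC
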