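import Mathlib
import Pool.Agent.Lib.MP_8ca0c8_nt_CYC.Large
import Pool.Agent.Lib.MP_8ca0c8_nt_CYC.FejerCase
import Pool.Agent.Lib.MP_8ca0c8_nt_CYC.Chain
import Pool.Agent.Lib.MP_8ca0c8_nt_CYC.VandCase
import Pool.Agent.Lib.MP_8ca0c8_nt_CYC.Good
import Pool.Agent.Lib.MP_8ca0c8_nt_CYC.Cohen

/-! Project CYC (MP_8ca0c8_nt), Theorem A: prime order. -/

namespace Pool.Agent.CYC

open Finset

/-- the majority value is small -/
theorem majority_small {Ω : Type} [Fintype Ω] {p : ℕ} [NeZero p] (F : Fam Ω p)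
    (hS : F.S = univ.erase 0) (J : Finset (ZMod p)) (t : ZMod p) (φ : Ω)
    (h : ∀ j, j ∉ J → F.T φ j = F.T φ t) :
    ((p : ℝ) - J.card) * ‖F.T φ t‖ ≤ J.card * F.m φ := by
  classical
  have h0 : ∑ j, F.T φ j = 0 := by
    simp only [Fam.T, FT]
    rw [Finset.sum_comm]
    refine Finset.sum_eq_zero fun a _ => ?_
    rw [← Finset.mul_sum, AddChar.sum_mulShift a (F.hψ φ)]
    by_cases ha : a = 0
    · have : F.w φ a = 0 := by
        rw [Fam.w, if_neg]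
        rw [hS, ha]
        exact Finset.notMem_erase _ _
      rw [this, Complex.ofReal_zero, zero_mul]
    · rw [if_neg ha, Nat.cast_zero, mul_zero]
  have h1 : ((p : ℝ) - J.card : ℝ) * F.T φ t = -∑ j ∈ J, F.T φ j := by
    rw [← Finset.sum_add_sum_compl J] at h0
    have h2 : ∑ j ∈ Jᶜ, F.T φ j = ((p : ℝ) - J.card : ℝ) * F.T φ t := by
      rw [Finset.sum_congr rfl (fun j hj => h j (Finset.mem_compl.mp hj)), Finset.sum_const,
        Finset.card_compl, ZMod.card, nsmul_eq_mul, Nat.cast_sub]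
      · push_cast
        ring
      · have := Finset.card_le_univ J
        rwa [ZMod.card] at this
    rw [← h2]
    linear_combination h0
  have h3 : (0 : ℝ) ≤ (p : ℝ) - J.card := by
    have := Finset.card_le_univ J
    rw [ZMod.card] at this
    have h4 : (J.card : ℝ) ≤ p := by exact_mod_cast this
    linarith
  calc ((p : ℝ) - J.card) * ‖F.T φ t‖ = ‖(((p : ℝ) - J.card : ℝ) : ℂ) * F.T φ t‖ := by
        rw [norm_mul, Complex.norm_real, Real.norm_eq_abs, abs_of_nonneg h3]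
    _ = ‖∑ j ∈ J, F.T φ j‖ := by
        rw [← norm_neg (∑ j ∈ J, F.T φ j), ← h1]
    _ ≤ ∑ j ∈ J, ‖F.T φ j‖ := norm_sum_le _ _
    _ ≤ ∑ _j ∈ J, F.m φ := Finset.sum_le_sum fun j _ => F.norm_T_le φ j
    _ = J.card * F.m φ := by rw [Finset.sum_const, nsmul_eq_mul]

theorem theoremA (ε : ℝ) (hε : 0 < ε) : ∃ P0 : ℕ,
    ∀ {Ω : Type} [Fintype Ω] [Nonempty Ω] {p : ℕ} [Fact p.Prime] (F : Fam Ω p), P0 ≤ p →
      F.S = univ.erase 0 →
      (∀ i j, (∀ φ, F.T φ i = F.T φ j) ∨ ((∀ φ, F.T φ i ≠ F.T φ j) ∧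
        0 ≤ ∑ φ, Real.log ‖F.T φ i - F.T φ j‖)) →
      (∃ i j : ZMod p, i ≠ 0 ∧ j ≠ 0 ∧ ∃ φ, F.T φ i ≠ F.T φ j) →
      (2 - ε) * Fintype.card Ω ≤ ∑ φ, F.m φ := by
  classical
  obtain ⟨X0, k1, hk1, hL⟩ := large_case ε hε
  obtain ⟨R, k2, hR, hk2, hFj⟩ := fejer_case ε hε
  obtain ⟨N0, hV⟩ := vand_case ε hε
  obtain ⟨M1, d0, hM1, hd0, hG⟩ := good_place N0
  have hrho : 0 < min (1 / 2) (k1 / 2) := by positivity
  obtain ⟨P1, hC⟩ := cohen M1 d0 (min (1 / 2) (k1 / 2)) hM1 hd0 hrho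
  refine ⟨max P1 (max (R ^ X0 + 1) (⌈(X0 : ℝ) * (1 + 1 / k2)⌉₊)), ?_⟩
  intro Ω _ _ p _ F hp hS h1 h2
  have hpP1 : P1 ≤ p := (le_max_left _ _).trans hp
  have hpR : R ^ X0 + 1 ≤ p := ((le_max_left _ _).trans (le_max_right _ _)).trans hp
  have hpX : (X0 : ℝ) * (1 + 1 / k2) ≤ p :=
    (Nat.le_ceil _).trans (by exact_mod_cast ((le_max_right _ _).trans (le_max_right _ _)).trans hp)
  by_contra hlt
  push Not at hlt
  have hcard : (0 : ℝ) < Fintype.card Ω := by exact_mod_cast Fintype.card_pos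
  have hsum : ∑ φ, F.m φ ≤ 2 * Fintype.card Ω := by
    refine hlt.le.trans ?_
    exact mul_le_mul_of_nonneg_right (by linarith) hcard.le
  -- representatives of the values
  let r : Setoid (ZMod p) := ⟨fun i j => ∀ φ, F.T φ i = F.T φ j,
    fun _ _ => rfl, fun h φ => (h φ).symm, fun h h' φ => (h φ).trans (h' φ)⟩
  set J : Finset (ZMod p) := univ.image (fun x => (Quotient.mk r x).out) with hJ
  have hJrep : ∀ x, ∃ i ∈ J, ∀ φ, F.T φ x = F.T φ i := fun x =>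
    ⟨_, mem_image_of_mem _ (mem_univ x), fun φ => (Quotient.mk_out (s := r) x φ).symm⟩
  have hJne : ∀ i ∈ J, ∀ j ∈ J, i ≠ j → ¬ ∀ φ, F.T φ i = F.T φ j := by
    intro i hi j hj hij h
    obtain ⟨x, -, rfl⟩ := mem_image.mp hi
    obtain ⟨y, -, rfl⟩ := mem_image.mp hj
    apply hij
    have h3 : (Quotient.mk r x) = (Quotient.mk r y) := by
      rw [← Quotient.out_eq (Quotient.mk r x), ← Quotient.out_eq (Quotient.mk r y)]
      exact Quotient.sound h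
    rw [h3]
  have hJ1 : ∀ i ∈ J, ∀ j ∈ J, i ≠ j → ∀ φ, F.T φ i ≠ F.T φ j := fun i hi j hj hij =>
    ((h1 i j).resolve_left (hJne i hi j hj hij)).1
  have hJ2 : ∀ i ∈ J, ∀ j ∈ J, i ≠ j → 0 ≤ ∑ φ, Real.log ‖F.T φ i - F.T φ j‖ :=
    fun i hi j hj hij => ((h1 i j).resolve_left (hJne i hi j hj hij)).2
  by_cases hN : N0 ≤ J.card
  · exact absurd (hV F J hN hJ1 hJ2) (not_le.mpr hlt)
  push Not at hN
  obtain ⟨φ0, hφ0, hsep⟩ := hG F J hN.le hsum hJ1 hJ2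
  obtain ⟨t, ht⟩ := hC p hpP1 (F.ψ φ0) (F.hψ φ0) (F.w φ0) (F.w_nonneg φ0) hφ0 (fun i j => by
    obtain ⟨i', hi', hii⟩ := hJrep i
    obtain ⟨j', hj', hjj⟩ := hJrep j
    by_cases hij : i' = j'
    · left
      have := (hii φ0).trans ((hij ▸ rfl : F.T φ0 i' = F.T φ0 j').trans (hjj φ0).symm)
      exact this
    · right
      have := hsep i' hi' j' hj' hij
      rw [← hii φ0, ← hjj φ0] at this
      exact this)
  set J' : Finset (ZMod p) := univ.filter (fun j => ∃ φ, F.T φ j ≠ F.T φ t) with hJ'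
  have hJ'0 : ∀ j, j ∉ J' → ∀ φ, F.T φ j = F.T φ t := fun j hj φ => by
    by_contra h
    exact hj (mem_filter.mpr ⟨mem_univ _, φ, h⟩)
  have hJ'1 : ∀ j ∈ J', (∀ φ, F.T φ j ≠ F.T φ t) ∧ 0 ≤ ∑ φ, Real.log ‖F.T φ j - F.T φ t‖ :=
    fun j hj => by
      obtain ⟨φ, hφ⟩ := (mem_filter.mp hj).2
      exact (h1 j t).resolve_left fun h => hφ (h φ)
  have hJ'card : (J'.card : ℝ) ≤ min (1 / 2) (k1 / 2) * p := by
    refine le_trans ?_ ht
    have : J' ⊆ univ.filter (fun j => FT (F.ψ φ0) (F.w φ0) j ≠ FT (F.ψ φ0) (F.w φ0) t) :=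
      fun j hj => mem_filter.mpr ⟨mem_univ _, (hJ'1 j hj).1 φ0⟩
    exact_mod_cast Finset.card_le_card this
  have hp0 : (0 : ℝ) < p := by exact_mod_cast (Fact.out : p.Prime).pos
  have ht1 : ∀ φ, ((p : ℝ) - J'.card) * ‖F.T φ t‖ ≤ J'.card * F.m φ := fun φ =>
    majority_small F hS J' t φ fun j hj => hJ'0 j hj φ
  have hpos : 0 < (p : ℝ) - J'.card := by
    have h3 : (J'.card : ℝ) ≤ 1 / 2 * p := hJ'card.trans
      (mul_le_mul_of_nonneg_right (min_le_left _ _) hp0.le)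
    linarith
  have hD : ∀ φ, ∀ j, ∀ k : ℝ, ‖F.T φ t‖ ≤ k * F.m φ →
      ‖F.T φ j - F.T φ t‖ ≤ ‖F.T φ j‖ + k * F.m φ := fun φ j k h =>
    (norm_sub_le _ _).trans (add_le_add le_rfl h)
  by_cases hX : X0 ≤ J'.card
  · refine absurd (hL F J' (fun φ j => F.T φ j - F.T φ t) hX
      (fun φ j hj => sub_ne_zero.mpr ((hJ'1 j hj).1 φ)) (fun j hj => ?_)
      (fun φ j hj => hD φ j k1 ?_)) (not_le.mpr hlt)
    · refine le_trans ?_ (hJ'1 j hj).2
      have := mul_pos hk1 hcard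
      linarith
    · have h3 : (J'.card : ℝ) ≤ 1 / 2 * p := hJ'card.trans
        (mul_le_mul_of_nonneg_right (min_le_left _ _) hp0.le)
      have h4 : (J'.card : ℝ) ≤ k1 / 2 * p := hJ'card.trans
        (mul_le_mul_of_nonneg_right (min_le_right _ _) hp0.le)
      have h5 := ht1 φ
      have h6 := (F.m_pos φ).le
      have h7 : 1 / 2 * (p : ℝ) * ‖F.T φ t‖ ≤ k1 / 2 * p * F.m φ :=
        (mul_le_mul_of_nonneg_right (by linarith) (norm_nonneg _)).trans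
          (h5.trans (mul_le_mul_of_nonneg_right h4 h6))
      have h8 : (p : ℝ) * ‖F.T φ t‖ ≤ p * (k1 * F.m φ) := by linarith
      exact le_of_mul_le_mul_left h8 hp0
  · push Not at hX
    have hX0 : X0 ≠ 0 := by omega
    have ht2 : ∀ φ, ‖F.T φ t‖ ≤ k2 * F.m φ := fun φ => by
      have h3 : (J'.card : ℝ) ≤ X0 := by exact_mod_cast hX.le
      have h5 := ht1 φ
      have h6 := F.m_pos φ
      have h7 : (X0 : ℝ) / k2 ≤ p - J'.card := by
        have : (X0 : ℝ) * (1 + 1 / k2) = X0 + X0 / k2 := by ring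
        linarith
      have h8 : (X0 : ℝ) / k2 * ‖F.T φ t‖ ≤ X0 * F.m φ :=
        (mul_le_mul_of_nonneg_right h7 (norm_nonneg _)).trans
          (h5.trans (mul_le_mul_of_nonneg_right h3 h6.le))
      have h9 : (0 : ℝ) < X0 := by exact_mod_cast Nat.pos_of_ne_zero hX0
      have h10 : (X0 : ℝ) * ‖F.T φ t‖ ≤ X0 * (k2 * F.m φ) := by
        have := mul_le_mul_of_nonneg_left h8 hk2.le
        calc (X0 : ℝ) * ‖F.T φ t‖ = k2 * (X0 / k2 * ‖F.T φ t‖) := by field_simp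
          _ ≤ k2 * (X0 * F.m φ) := this
          _ = X0 * (k2 * F.m φ) := by ring
      exact le_of_mul_le_mul_left h10 h9
    obtain ⟨j0, hj0, hj0J⟩ : ∃ j0 : ZMod p, j0 ≠ 0 ∧ j0 ∈ J' := by
      obtain ⟨i, j, hi, hj, φ, hφ⟩ := h2
      by_contra hcon
      push Not at hcon
      exact hφ ((hJ'0 i (hcon i hi) φ).trans (hJ'0 j (hcon j hj) φ).symm)
    have hord : addOrderOf j0 = p := addOrderOf_eq_prime (by simp) hj0
    obtain ⟨j, hj, hjr⟩ := chain (J'.erase 0) R X0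
      ((Finset.card_le_card (Finset.erase_subset _ _)).trans hX.le) j0
      (Finset.mem_erase.mpr ⟨hj0, hj0J⟩) (by rw [hord]; omega)
    obtain ⟨hj1, hj2⟩ := Finset.mem_erase.mp hj
    refine absurd (hFj F j (fun φ => F.T φ j - F.T φ t) (fun r hr1 hr2 φ => ?_)
      (fun φ => sub_ne_zero.mpr ((hJ'1 j hj2).1 φ)) ?_ (fun φ => hD φ j k2 (ht2 φ)))
      (not_le.mpr hlt)
    · have hrp : r < p := by
        have : R ≤ R ^ X0 := Nat.le_self_pow hX0 R
        omega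
      have hr0 : (r : ZMod p) ≠ 0 := by
        rw [Ne, ZMod.natCast_eq_zero_iff]
        exact fun h => absurd (Nat.le_of_dvd (by omega) h) (by omega)
      have h3 : (r : ZMod p) * j ∉ J' := fun h => hjr r hr1 hr2
        (Finset.mem_erase.mpr ⟨mul_ne_zero hr0 hj1, h⟩)
      rw [hJ'0 _ h3 φ]
      exact ht2 φ
    · refine le_trans ?_ (hJ'1 j hj2).2
      have := mul_pos hk2 hcard
      linarith

end Pool.Agent.CYC
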