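import Mathlib
import Pool.Agent.Lib.MP_8ca0c8_nt_CYC.Large
import Pool.Agent.Lib.MP_8ca0c8_nt_CYC.FejerCase
import Pool.Agent.Lib.MP_8ca0c8_nt_CYC.Chain

/-! Project CYC (MP_8ca0c8_nt), Theorem B: all fibres of a cyclic group. -/

namespace Pool.Agent.CYC

open Finset

theorem theoremB (ε : ℝ) (hε : 0 < ε) : ∃ (Q0 : ℕ) (k0 : ℝ), 0 < k0 ∧
    ∀ {Ω : Type} [Fintype Ω] [Nonempty Ω] {q : ℕ} [NeZero q] (F : Fam Ω q), Q0 ≤ q →
      (∀ j, (∀ φ, F.T φ j = 0) ∨ ((∀ φ, F.T φ j ≠ 0) ∧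
        -k0 * Fintype.card Ω ≤ ∑ φ, Real.log ‖F.T φ j‖)) →
      (∃ j0 : ZMod q, addOrderOf j0 = q ∧ ∃ φ, F.T φ j0 ≠ 0) →
      (2 - ε) * Fintype.card Ω ≤ ∑ φ, F.m φ := by
  classical
  obtain ⟨X0, k1, hk1, hL⟩ := large_case ε hε
  obtain ⟨R, k2, hR, hk2, hFj⟩ := fejer_case ε hε
  refine ⟨R ^ X0 + 1, min k1 k2, lt_min hk1 hk2, ?_⟩
  intro Ω _ _ q _ F hq h1 h2
  obtain ⟨j0, hj0, φ0, hφ0⟩ := h2
  set J : Finset (ZMod q) := univ.filter (fun j => ∃ φ, F.T φ j ≠ 0) with hJ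
  have hne : ∀ j ∈ J, ∀ φ, F.T φ j ≠ 0 := fun j hj => by
    obtain ⟨φ, hφ⟩ := (mem_filter.mp hj).2
    rcases h1 j with h | h
    · exact absurd (h φ) hφ
    · exact h.1
  have hlog : ∀ j ∈ J, -(min k1 k2) * Fintype.card Ω ≤ ∑ φ, Real.log ‖F.T φ j‖ := fun j hj => by
    obtain ⟨φ, hφ⟩ := (mem_filter.mp hj).2
    rcases h1 j with h | h
    · exact absurd (h φ) hφ
    · exact h.2
  have hzero : ∀ j, j ∉ J → ∀ φ, F.T φ j = 0 := fun j hj φ => by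
    by_contra h
    exact hj (mem_filter.mpr ⟨mem_univ _, φ, h⟩)
  have hcard : (0 : ℝ) ≤ Fintype.card Ω := Nat.cast_nonneg _
  by_cases hX : X0 ≤ J.card
  · refine hL F J F.T hX (fun φ j hj => hne j hj φ) (fun j hj => ?_) (fun φ j hj => ?_)
    · refine le_trans ?_ (hlog j hj)
      exact mul_le_mul_of_nonneg_right (neg_le_neg (min_le_left _ _)) hcard
    · have := mul_nonneg hk1.le (F.m_pos φ).le
      linarith
  · push Not at hX
    obtain ⟨j, hj, hjr⟩ := chain J R X0 hX.le j0 (mem_filter.mpr ⟨mem_univ _, φ0, hφ0⟩)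
      (by rw [hj0]; omega)
    refine hFj F j (fun φ => F.T φ j) (fun r hr1 hr2 φ => ?_) (hne j hj) ?_ (fun φ => ?_)
    · rw [hzero _ (hjr r hr1 hr2) φ, norm_zero]
      exact mul_nonneg hk2.le (F.m_pos φ).le
    · refine le_trans ?_ (hlog j hj)
      exact mul_le_mul_of_nonneg_right (neg_le_neg (min_le_right _ _)) hcard
    · have := mul_nonneg hk2.le (F.m_pos φ).le
      linarith

end Pool.Agent.CYC
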