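import Mathlib
import Pool.Agent.Lib.MP_8ca0c8_nt_CYC.ThA
import Pool.Agent.Lib.MP_8ca0c8_nt_CYC.ThB
import Pool.Agent.Lib.MP_8ca0c8_nt_CYC.FamA
import Pool.Agent.Lib.MP_8ca0c8_nt_CYC.FamB
import Pool.Agent.Lib.MP_8ca0c8_nt_CYC.PrimePow

/-! Project CYC (MP_8ca0c8_nt), large level. -/

namespace Pool.Agent.CYC

open Finset

theorem level_bound (K : IntermediateField ℚ ℂ) [FiniteDimensional ℚ K] (f : ℕ) (hf : 0 < f)
    (hgal : GalOK K f) (ε : ℝ) (hε : 0 < ε) :
    ∃ N : ℕ, ∀ n : ℕ, 0 < n → f ∣ n → N ≤ n → ∀ α : ℂ, α ∈ Rn K n →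
      STP.IsTotallyPositive α → (∀ n' : ℕ, 0 < n' → f ∣ n' → α ∈ Rn K n' → n ≤ n') →
      2 - ε ≤ (STP.meanTrace α).re := by
  classical
  obtain ⟨P0, hA⟩ := theoremA ε hε
  obtain ⟨Q0, k0, hk0, hB⟩ := theoremB ε hε
  obtain ⟨N, hN⟩ := prime_power_large (P0 + 3 + (Q0 + 1) ^ 2 + (Q0 + 1) * f)
  refine ⟨N, fun n hn hfn hNn α hα htp hmin => ?_⟩
  obtain ⟨p, hp, hpP⟩ := hN n hNn hn
  have hn0 : n ≠ 0 := hn.ne'
  have hf0 : f ≠ 0 := hf.ne'
  set k := n.factorization p with hk
  set s := f.factorization p with hs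
  have hpk : p ^ k ∣ n := Nat.ordProj_dvd n p
  have hps : p ^ s ∣ f := Nat.ordProj_dvd f p
  have hsf : p ^ s ≤ f := Nat.le_of_dvd hf hps
  have hsk : s ≤ k := (Nat.factorization_le_iff_dvd hf0 hn0).mpr hfn p
  have hk1 : 1 ≤ k := by
    by_contra h
    have h0 : k = 0 := by omega
    rw [h0, pow_zero] at hpP
    omega
  have hp1 : 1 < p := hp.one_lt
  -- it is impossible to have level `n / p` if `f ∣ n / p`
  have hlow : ∀ n' : ℕ, 0 < n' → f ∣ n' → n' < n → α ∉ Rn K n' := fun n' h1 h2 h3 h4 =>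
    absurd (hmin n' h1 h2 h4) (not_le.mpr h3)
  have hcoprime : ∀ m : ℕ, n = m * p ^ k → ¬ p ∣ m := by
    intro m hm hpm
    have h1 : p ^ (k + 1) ∣ n := by
      obtain ⟨c, hc⟩ := hpm
      rw [hm, hc, pow_succ]
      exact ⟨c, by ring⟩
    have h2 := (hp.pow_dvd_iff_le_factorization hn0).mp h1
    omega
  -- `f` divides `n / p ^ r` when `s ≤ k - r`
  have hfdiv : ∀ m r : ℕ, n = m * p ^ r → s + r ≤ k → f ∣ m := by
    intro m r hm hr
    have hm0 : m ≠ 0 := by
      rintro rfl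
      rw [zero_mul] at hm
      exact hn0 hm
    refine (Nat.factorization_le_iff_dvd hf0 hm0).mp fun l => ?_
    have h1 : n.factorization l = m.factorization l + (p ^ r).factorization l := by
      rw [hm, Nat.factorization_mul hm0 (pow_ne_zero _ hp.ne_zero), Finsupp.add_apply]
    have h2 := (Nat.factorization_le_iff_dvd hf0 hn0).mpr hfn l
    rw [hp.factorization_pow] at h1
    by_cases hl : l = p
    · subst hl
      rw [Finsupp.single_eq_same] at h1
      omega
    · rw [Finsupp.single_eq_of_ne hl] at h1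
      omega
  by_cases hcase : k = 1 ∧ s = 0
  · -- case A
    obtain ⟨hk', hs'⟩ := hcase
    rw [hk', pow_one] at hpP hpk
    obtain ⟨m, hm⟩ := hpk
    rw [mul_comm] at hm
    have hm0 : 0 < m := Nat.pos_of_ne_zero (by rintro rfl; rw [zero_mul] at hm; exact hn0 hm)
    have : Fact p.Prime := ⟨hp⟩
    have : Nonempty (Ln K (m * p) →ₐ[ℚ] ℂ) := ⟨(Ln K (m * p)).val⟩
    have hpm : ¬ p ∣ m := hcoprime m (by rw [hk', pow_one]; exact hm)
    have hfm : f ∣ m := hfdiv m 1 (by rw [pow_one]; exact hm) (by omega)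
    have hmn : m < n := by
      rw [hm]
      exact lt_mul_of_one_lt_right hm0 hp1
    rw [hm] at hα
    obtain ⟨F, hS, hT, hex, hsum⟩ := famA K f hf hgal m p hm0 (by omega) hpm hfm α hα htp
      (hlow m hm0 hfm hmn)
    have h1 := hA F (by omega) hS hT hex
    rw [hsum] at h1
    have hc : (0 : ℝ) < Fintype.card (Ln K (m * p) →ₐ[ℚ] ℂ) := by exact_mod_cast Fintype.card_pos
    rw [mul_comm] at h1
    exact le_of_mul_le_mul_left h1 hc
  · -- case B
    set r := k - max s 1 with hr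
    have hmax : max s 1 < k := by
      rcases Nat.eq_zero_or_pos s with h0 | h0
      · have : k ≠ 1 := fun h => hcase ⟨h, h0⟩
        rw [h0]
        simp only [zero_le, max_eq_right]
        omega
      · have h1 : p ^ s < p ^ k := by
          have : f ≤ (Q0 + 1) * f := Nat.le_mul_of_pos_left f (Nat.succ_pos _)
          omega
        have h2 := (Nat.pow_lt_pow_iff_right hp1).mp h1
        rw [max_eq_left h0]
        exact h2
    have hr1 : 1 ≤ r := by omega
    have hrk : r ≤ k := Nat.sub_le _ _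
    obtain ⟨m, hm⟩ : p ^ r ∣ n := (pow_dvd_pow p hrk).trans hpk
    rw [mul_comm] at hm
    have hm0 : 0 < m := Nat.pos_of_ne_zero (by rintro rfl; rw [zero_mul] at hm; exact hn0 hm)
    have hfm : f ∣ m := hfdiv m r hm (by omega)
    have hpm : p ∣ m := by
      by_contra h
      have h1 : n.factorization p = m.factorization p + (p ^ r).factorization p := by
        rw [hm, Nat.factorization_mul hm0.ne' (pow_ne_zero _ hp.ne_zero), Finsupp.add_apply]
      rw [hp.factorization_pow, Finsupp.single_eq_same, Nat.factorization_eq_zero_of_not_dvd h,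
        ← hk] at h1
      omega
    have hQ : Q0 ≤ p ^ r := by
      have hkr : p ^ k = p ^ r * p ^ (max s 1) := by
        rw [← pow_add]
        congr 1
        omega
      by_contra hlt
      push Not at hlt
      rcases Nat.eq_zero_or_pos s with h0 | h0
      · -- `p ^ max s 1 = p ≤ p ^ r`
        have h1 : p ^ (max s 1) ≤ p ^ r := by
          rw [h0]
          simp only [zero_le, max_eq_right]
          exact Nat.pow_le_pow_right hp.pos hr1
        have h2 : p ^ k ≤ Q0 * Q0 := by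
          rw [hkr]
          exact Nat.mul_le_mul hlt.le (h1.trans hlt.le)
        have h3 : Q0 * Q0 ≤ (Q0 + 1) ^ 2 := by nlinarith
        omega
      · have h1 : p ^ (max s 1) ≤ f := by
          rw [max_eq_left h0]
          exact hsf
        have h2 : p ^ k ≤ Q0 * f := by
          rw [hkr]
          exact Nat.mul_le_mul hlt.le h1
        have h3 : Q0 * f ≤ (Q0 + 1) * f := Nat.mul_le_mul_right f (Nat.le_succ _)
        omega
    have : NeZero (p ^ r) := ⟨pow_ne_zero _ hp.ne_zero⟩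
    have : Nonempty (Ln K (m * p ^ r) →ₐ[ℚ] ℂ) := ⟨(Ln K (m * p ^ r)).val⟩
    have hpr : p ∣ p ^ r := dvd_pow_self p (by omega)
    obtain ⟨m1, hm1⟩ : p ∣ n := hpm.trans ⟨p ^ r, hm⟩
    have hm1' : n / p = m1 := by
      rw [hm1, Nat.mul_div_cancel_left _ hp.pos]
    have hm1pos : 0 < m1 := Nat.pos_of_ne_zero (by rintro rfl; rw [mul_zero] at hm1; exact hn0 hm1)
    have hfm1 : f ∣ m1 := hfdiv m1 1 (by rw [pow_one, hm1]; ring) (by omega)
    have hlt1 : m1 < n := by
      rw [hm1]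
      exact lt_mul_of_one_lt_left hm1pos hp1
    have hnot : α ∉ Rn K (m * p ^ r / p) := by
      rw [← hm, hm1']
      exact hlow m1 hm1pos hfm1 hlt1
    rw [hm] at hα
    obtain ⟨F, hT, hex, hsum⟩ := famB K f hf hgal m p r hm0 hp hpm hr1 hfm α hα htp hnot
    have h1 := hB F hQ (fun j => (hT j).imp id fun h => ⟨h.1, le_trans (by
      have := Nat.cast_nonneg (α := ℝ) (Fintype.card (Ln K (m * p ^ r) →ₐ[ℚ] ℂ))
      nlinarith) h.2⟩) hex
    rw [hsum] at h1
    have hc : (0 : ℝ) < Fintype.card (Ln K (m * p ^ r) →ₐ[ℚ] ℂ) := by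
      exact_mod_cast Fintype.card_pos
    rw [mul_comm] at h1
    exact le_of_mul_le_mul_left h1 hc

end Pool.Agent.CYC
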