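import Mathlib
import Pool.Agent.Lib.MP_8ca0c8_nt_CYC.LevelBound
import Pool.Agent.Lib.MP_8ca0c8_nt_CYC.FinLevel
import Pool.Agent.Lib.MP_8ca0c8_nt_CYC.RnBasic

/-! Project CYC (MP_8ca0c8_nt), finiteness theorem. -/

namespace Pool.Agent.CYC

open Finset

theorem main_finite (K : IntermediateField ℚ ℂ) [FiniteDimensional ℚ K] (ε : ℝ) (hε : 0 < ε) :
    {α : ℂ | α ∈ Rinf K ∧ STP.IsTotallyPositive α ∧ (STP.meanTrace α).re < 2 - ε}.Finite := by
  obtain ⟨f, hf, hgal⟩ := gal_exists K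
  obtain ⟨N, hN⟩ := level_bound K f hf hgal ε hε
  have hfin : (⋃ n ∈ Set.Iio N, {α : ℂ | α ∈ Ln K n ∧ STP.IsTotallyPositive α ∧
      (STP.meanTrace α).re < 2}).Finite :=
    (Set.finite_Iio N).biUnion fun n _ => fin_level (Ln K n)
  refine hfin.subset fun α hα => ?_
  obtain ⟨hα1, hα2, hα3⟩ := hα
  have hex : ∃ n : ℕ, 0 < n ∧ f ∣ n ∧ α ∈ Rn K n := exists_level K hf hα1
  classical
  obtain ⟨h1, h2, h3⟩ := Nat.find_spec hex
  have hlt : Nat.find hex < N := by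
    by_contra h
    push Not at h
    have h4 := hN (Nat.find hex) h1 h2 h α h3 hα2 fun n' a b c => Nat.find_min' hex ⟨a, b, c⟩
    linarith
  exact Set.mem_biUnion (Set.mem_Iio.mpr hlt) ⟨(rn_sub K h1 h3).1, hα2, by linarith⟩

end Pool.Agent.CYC
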