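import Mathlib
import Pool.Agent.Lib.MP_8ca0c8_nt_CYC.MainFin
import Pool.Agent.Lib.MP_8ca0c8_nt_CYC.CycInt
import Pool.Agent.Lib.MP_8ca0c8_nt_CYC.Cos

/-! Project CYC (MP_8ca0c8_nt), module LIM: the least limit point. -/

namespace Pool.Agent.CYC

open Finset

theorem limit_two : STP.IsLimitPoint cycTraceSet 2 := by
  intro U hU
  obtain ⟨ε, hε, hball⟩ := Metric.mem_nhds_iff.1 hU
  obtain ⟨N, hN⟩ := exists_nat_gt (2 / ε + 3)
  have hinf : {p : ℕ | N ≤ p ∧ p.Prime}.Infinite := by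
    rw [Set.infinite_iff_exists_gt]
    intro a
    obtain ⟨p, hp, hpp⟩ := Nat.exists_infinite_primes (max N (a + 1))
    exact ⟨p, ⟨(le_max_left _ _).trans hp, hpp⟩, (le_max_right _ _).trans hp⟩
  have h3N : (3 : ℝ) < N := lt_of_le_of_lt (by have : 0 < 2 / ε := by positivity
                                               linarith) hN
  have hinj : Set.InjOn (fun p : ℕ => (2 - 2 / ((p : ℝ) - 1) : ℝ)) {p : ℕ | N ≤ p ∧ p.Prime} := by
    intro p hp q hq hpq
    have hp1 : (N : ℝ) ≤ p := by exact_mod_cast hp.1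
    have hq1 : (N : ℝ) ≤ q := by exact_mod_cast hq.1
    have hpq' : 2 / ((p : ℝ) - 1) = 2 / ((q : ℝ) - 1) := by
      simp only at hpq
      linarith
    rw [div_eq_div_iff (by linarith) (by linarith)] at hpq'
    have : (p : ℝ) = q := by linarith
    exact_mod_cast this
  refine (hinf.image hinj).mono ?_
  rintro _ ⟨p, ⟨hp, hpp⟩, rfl⟩
  have hp1 : (N : ℝ) ≤ p := by exact_mod_cast hp
  have hp3 : 3 ≤ p := by
    have : (3 : ℝ) ≤ p := by linarith
    exact_mod_cast this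
  refine ⟨hball ?_, cos_mem p hpp hp3⟩
  rw [Metric.mem_ball, Real.dist_eq]
  have hpos : 0 < 2 / ((p : ℝ) - 1) := div_pos two_pos (by linarith)
  have hlt : 2 / ((p : ℝ) - 1) < ε := by
    rw [div_lt_iff₀ (by linarith)]
    have h1 : 2 / ε < (p : ℝ) - 1 := by linarith
    rw [div_lt_iff₀ hε] at h1
    linarith
  simp only [sub_sub_cancel_left, abs_neg]
  rwa [abs_of_pos hpos]

theorem cyc_limit : IsLeast {x : ℝ | STP.IsLimitPoint cycTraceSet x} 2 := by
  refine ⟨limit_two, fun x hx => ?_⟩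
  by_contra hlt
  rw [not_le] at hlt
  have hε : 0 < (2 - x) / 2 := by linarith
  have hfin := main_finite ⊥ ((2 - x) / 2) hε
  have hU : Set.Iio (2 - (2 - x) / 2) ∈ nhds x := Iio_mem_nhds (by linarith)
  refine hx _ hU ((hfin.image fun α => (STP.meanTrace α).re).subset ?_)
  rintro t ⟨ht, α, hα, hpos, hmt⟩
  refine ⟨α, ⟨cyclotomicInteger_mem hα, hpos, ?_⟩, ?_⟩
  · rw [hmt, Complex.ofReal_re]
    exact ht
  · simp only [hmt, Complex.ofReal_re]

end Pool.Agent.CYC
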