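import Mathlib
import Pool.Agent.Lib.MP_8ca0c8_nt_CYC.Limit
import Pool.Agent.Lib.MP_8ca0c8_nt_CYC.RnBasic

/-! Project CYC (MP_8ca0c8_nt): the final theorem. -/

namespace Pool.Agent.CYC

/-- the mean traces of the totally positive elements of `R` -/
def traceSetOf (R : Set ℂ) : Set ℝ :=
  {t | ∃ α ∈ R, STP.IsTotallyPositive α ∧ STP.meanTrace α = (t : ℂ)}

theorem Ln_bot (n : ℕ) : Ln ⊥ n = IntermediateField.adjoin ℚ {zt n} := bot_sup_eq _

theorem mem_Rinf_bot_iff (α : ℂ) : α ∈ Rinf ⊥ ↔ IsCyclotomicInteger α := by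
  constructor
  · intro h
    obtain ⟨n, hn, -, hα⟩ := exists_level ⊥ one_pos h
    obtain ⟨h1, h2⟩ := rn_sub ⊥ hn hα
    rw [Ln_bot] at h1
    exact ⟨h2, zt n, ⟨n, hn, (zt_pow n hn.ne').pow_eq_one⟩, h1⟩
  · exact cyclotomicInteger_mem

theorem Rinf_bot_le (K : IntermediateField ℚ ℂ) : Rinf ⊥ ≤ Rinf K := by
  refine Subring.closure_mono (Set.union_subset_union_left _ ?_)
  rintro x ⟨hx, hi⟩
  exact ⟨bot_le (a := K) hx, hi⟩

theorem final (K : IntermediateField ℚ ℂ) [FiniteDimensional ℚ K] :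
    IsLeast {x : ℝ | STP.IsLimitPoint (traceSetOf (Rinf K)) x} 2 ∧
    ∀ ε : ℝ, 0 < ε →
      {α : ℂ | α ∈ Rinf K ∧ STP.IsTotallyPositive α ∧ (STP.meanTrace α).re < 2 - ε}.Finite := by
  refine ⟨⟨?_, fun x hx => ?_⟩, fun ε hε => main_finite K ε hε⟩
  · intro U hU
    refine (limit_two U hU).mono ?_
    rintro t ⟨ht, α, h1, h2, h3⟩
    exact ⟨ht, α, Rinf_bot_le K (cyclotomicInteger_mem h1), h2, h3⟩
  · by_contra hlt
    rw [not_le] at hlt
    have hε : 0 < (2 - x) / 2 := by linarith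
    have hfin := main_finite K ((2 - x) / 2) hε
    have hU : Set.Iio (2 - (2 - x) / 2) ∈ nhds x := Iio_mem_nhds (by linarith)
    refine hx _ hU ((hfin.image fun α => (STP.meanTrace α).re).subset ?_)
    rintro t ⟨ht, α, hα, hpos, hmt⟩
    refine ⟨α, ⟨hα, hpos, ?_⟩, ?_⟩
    · rw [hmt, Complex.ofReal_re]
      exact ht
    · simp only [hmt, Complex.ofReal_re]

end Pool.Agent.CYC
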